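import Pool.Agent.H40.W.UpH
import Pool.Agent.H83.W.TGE

set_option autoImplicit false
open Finset

/-! # The n-shaped region above a row is an upper side

Row: columns `x0, …, x0 + N - 1` at height `y0`, the string above the column `x0 + c0`. The region `NB xa y0 C
h el er wl (N + 3) wr` with `xa + wl + 2 = x0`, `C = wl + 2 + c0`: rectangle above the row which is at least
two columns wider than the row on each side, with a left and a right leg. -/

namespace Pool.Agent.H56.W

open Pool.Agent.H75.Perc Pool.Agent.H75.TwoArm Pool.Agent.Q1 Pool.Agent.H81.G1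
open Pool.Agent.H30.Mid
open Pool.Agent.H40.W
open Pool.Agent.H83.W
open Pool.Agent.H69.M6b (lbt lbt_inj lbt_odd pr0 PR)
open Pool.Agent.Q1.M6b.Meander (dir dir_lt dir_gt)

variable {N : ℕ}

section

variable {c0 : Fin N} {x0 xa y0 C : ℤ} {h el er wl wr : ℕ} {e : (ℤ × ℤ) × Dir}

/-- the port of a column of the row -/
lemma nb_prz (hx : xa + wl + 2 = x0) (hC : C = wl + 2 + (c0 : ℕ)) {c : Fin N} (hc : c ≠ c0) :
    blk e (nb xa y0 C h el er wl (N + 3) wr) (prz c0 (h + el + (wl + (el + 2))) c) =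
      ((x0 + (c : ℕ), y0 + 1), .S) := by
  have h1 := c.2
  rcases prz_cases (p0 := h + el + (wl + (el + 2))) hc with ⟨h2, h3⟩ | ⟨h2, h3⟩
  · rw [h3, show h + el + (wl + (el + 2)) + (c : ℕ) = h + el + (wl + (el + (2 + (c : ℕ)))) by ring,
      nb4 (by omega)]
    rw [rx_lt (by push_cast; omega)]
    refine Prod.ext (Prod.ext ?_ rfl) rfl
    simp only
    push_cast; omega
  · have e1 : prz c0 (h + el + (wl + (el + 2))) c = h + el + (wl + (el + (2 + ((c : ℕ) - 1)))) := by omega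
    rw [e1, nb4 (by omega)]
    rw [rx_ge (by push_cast; omega)]
    refine Prod.ext (Prod.ext ?_ rfl) rfl
    simp only
    push_cast; omega

end

/-- **The n-shaped region is an upper side.** -/
theorem exists_upH_n (L : Finset (ℤ × ℤ)) (c0 : Fin N) {x0 xa : ℤ} (y0 : ℤ) {C : ℤ} (M : ℕ)
    {h el er wl wr : ℕ} (hx : xa + wl + 2 = x0) (hC : C = wl + 2 + (c0 : ℕ)) (hh : 0 < h)
    (hl : wl = 0 → el = 0) (hr : wr = 0 → er = 0)
    (hM : h = M ∨ (h = M + 1 ∧ CeilW L (NB xa y0 C h el er wl (N + 3) wr) (x0 + (c0 : ℕ))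
      (y0 + 1 + M))) :
    ∃ F : UpH L c0 x0 y0 M, F.Rg = NB xa y0 C h el er wl (N + 3) wr ∧
      ∀ CL CB1 CR1 CM CL2 CB2 CR CT : Finset ℤ,
        (∀ y, y0 - el < y → y < y0 + h → y ∉ CL → (lbt xa y ∈ L ↔ lbt xa (y + 1) ∈ L)) →
        (∀ x, xa ≤ x → x + 1 < xa + wl → x ∉ CB1 →
          (lbt x (y0 + 1 - el) ∈ L ↔ lbt (x + 1) (y0 + 1 - el) ∈ L)) →
        (∀ y, y0 - el < y → y < y0 → y ∉ CR1 →
          (lbt (x0 - 3) y ∈ L ↔ lbt (x0 - 3) (y + 1) ∈ L)) →
        (∀ x, x0 - 2 ≤ x → x < x0 + N + 1 → x ∉ CM → (x + 1 < x0 ∨ x0 + N ≤ x) →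
          (lbt x (y0 + 1) ∈ L ↔ lbt (x + 1) (y0 + 1) ∈ L)) →
        (∀ y, y0 - er < y → y < y0 → y ∉ CL2 →
          (lbt (x0 + N + 2) y ∈ L ↔ lbt (x0 + N + 2) (y + 1) ∈ L)) →
        (∀ x, x0 + N + 2 ≤ x → x < x0 + N + 1 + wr → x ∉ CB2 →
          (lbt x (y0 + 1 - er) ∈ L ↔ lbt (x + 1) (y0 + 1 - er) ∈ L)) →
        (∀ y, y0 - er < y → y < y0 + h → y ∉ CR →
          (lbt (x0 + N + 1 + wr) y ∈ L ↔ lbt (x0 + N + 1 + wr) (y + 1) ∈ L)) →
        (∀ x, xa ≤ x → x < x0 + N + 1 + wr → x ∉ CT → x ≠ x0 + (c0 : ℕ) → x + 1 ≠ x0 + (c0 : ℕ) →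
          (lbt x (y0 + h) ∈ L ↔ lbt (x + 1) (y0 + h) ∈ L)) →
        F.Ex.card ≤
          2 * (CL.card + CB1.card + CR1.card + CM.card + CL2.card + CB2.card + CR.card + CT.card) + 21 := by
  classical
  have hc0 := c0.2
  have hxs : xa + C = x0 + (c0 : ℕ) := by omega
  set e : (ℤ × ℤ) × Dir := ((0, 0), .W) with he
  obtain ⟨P, T⟩ := nsf (xa := xa) (y0 := y0) (C := C) (h := h) (el := el) (er := er) (wl := wl)
    (n := N + 3) (wr := wr) L e (by omega) (by omega)
  have T' := T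
  rw [hxs] at T
  set p0 : ℕ := h + el + (wl + (el + 2)) with hp0
  have hlt : p0 + N ≤ 2 * (h + (wl + (N + 3) + wr)) + 2 * el + 2 * er + 1 := by omega
  have hcs : ∀ c : Fin N, c ≠ c0 →
      cs (x0 + (c0 : ℕ)) (UW (blk e (nb xa y0 C h el er wl (N + 3) wr) (prz c0 p0 c))) =
        ((x0 + (c : ℕ), y0), .N) := by
    intro c hc
    rw [nb_prz hx hC hc]
    show cs (x0 + (c0 : ℕ)) ((x0 + (c : ℕ), y0 + 1 - 1), .N) = _
    rw [cs_N, add_sub_cancel_right]
  have hS : SideZ c0 (excz c0 P p0) (mtz c0 P p0) := sideZ_of' T.inv T.ne T.nc hlt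
  refine ⟨
    { Rg := NB xa y0 C h el er wl (N + 3) wr
      Ex := excz c0 P p0
      U := mtz c0 P p0
      side := hS
      path := fun c hc => path_of_match (inn := blk e (nb xa y0 C h el er wl (N + 3) wr))
        (out := fun k => cs (x0 + (c0 : ℕ)) (UW (blk e (nb xa y0 C h el er wl (N + 3) wr) k)))
        (th := fun k => thd (blk e (nb xa y0 C h el er wl (N + 3) wr) k).2) T.inv T.ne T.nc T.path hlt
        (fun c hc => nb_prz hx hC hc) hcs
        (fun c hc => by
          show thd (blk e (nb xa y0 C h el er wl (N + 3) wr) (prz c0 p0 c)).2 = 1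
          rw [nb_prz hx hC hc]; rfl) hc
      ne := fun u hu => by
        have := hu.2
        rwa [hxs] at this
      row := fun u hu hu2 => by
        have := hu.1
        push_cast at this
        omega
      adj := fun u hu hu2 => by
        have := hu.1
        push_cast at this
        omega
      top := ?_ }, rfl, ?_⟩
  · rcases hM with hM | ⟨hM, hW⟩
    · left
      intro u hu
      have := hu.1
      omega
    · right
      refine ⟨fun u hu => ?_, hW⟩
      have := hu.1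
      omega
  · intro CL CB1 CR1 CM CL2 CB2 CR CT q1 q2 q3 q4 q5 q6 q7 q8
    have key := nsf_exc (L := L) (xa := xa) (y0 := y0) (C := C) (h := h) (el := el) (er := er)
      (wl := wl) (n := N + 3) (wr := wr) (e := e) (CL := CL) (CB1 := CB1) (CR1 := CR1) (CM := CM)
      (CL2 := CL2) (CB2 := CB2) (CR := CR) (CT := CT) (o := 2) (N := N - 1)
      (by omega) (by omega) (by omega) (by omega) (by omega)
      q1 q2
      (fun y g1 g2 g3 => by
        have := q3 y g1 g2 g3
        rwa [show x0 - 3 = xa + wl - 1 by omega] at this)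
      (fun x g1 g2 g3 g4 => q4 x (by omega) (by push_cast at g2; omega) g3 (by omega))
      (fun y g1 g2 g3 => by
        have := q5 y g1 g2 g3
        rwa [show x0 + (N : ℤ) + 2 = xa + wl + ((N + 3 : ℕ) : ℤ) + 1 by push_cast; omega] at this)
      (fun x g1 g2 g3 => q6 x (by push_cast at g1; omega) (by push_cast at g2; omega) g3)
      (fun y g1 g2 g3 => by
        have := q7 y g1 g2 g3
        rwa [show x0 + (N : ℤ) + 1 + wr = xa + wl + ((N + 3 : ℕ) : ℤ) + wr by push_cast; omega] at this)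
      (fun x g1 g2 g3 g4 g5 => q8 x g1 (by push_cast at g2; omega) g3 (by omega) (by omega))
      hh hl hr T'
    rw [← hp0] at key
    have hsub : (excz c0 P p0).erase c0 ⊆ univ.filter (fun c : Fin N => c ≠ c0 ∧
        ¬ (p0 ≤ P (prz c0 p0 c) ∧ P (prz c0 p0 c) < p0 + (N - 1))) := by
      intro c hc
      obtain ⟨h1, h2⟩ := mem_erase.1 hc
      refine mem_filter.2 ⟨mem_univ _, h1, ?_⟩
      rintro ⟨h3, h4⟩
      rcases mem_excz.1 h2 with h5 | h5
      · exact h1 h5
      · obtain ⟨c', g1, g2⟩ := prz_surj (c0 := c0) (p0 := p0) (k := P (prz c0 p0 c)) h3 (by omega)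
        exact h5 c' g1 g2.symm
    have hcard : (univ.filter (fun c : Fin N => c ≠ c0 ∧
        ¬ (p0 ≤ P (prz c0 p0 c) ∧ P (prz c0 p0 c) < p0 + (N - 1)))).card ≤
        ((range (N - 1)).filter fun c => ¬ (p0 ≤ P (p0 + c) ∧ P (p0 + c) < p0 + (N - 1))).card := by
      refine card_le_card_of_injOn (fun c => prz c0 p0 c - p0) ?_ ?_
      · intro c hc
        have hc' := (mem_filter.1 hc).2
        have h1 := c.2
        have hle : p0 ≤ prz c0 p0 c ∧ prz c0 p0 c < p0 + (N - 1) := by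
          rcases prz_cases (p0 := p0) hc'.1 with ⟨h2, h3⟩ | ⟨h2, h3⟩ <;> omega
        refine mem_coe.2 (mem_filter.2 ⟨mem_range.2 ?_, ?_⟩)
        · show prz c0 p0 c - p0 < N - 1
          omega
        · show ¬ (p0 ≤ P (p0 + (prz c0 p0 c - p0)) ∧ P (p0 + (prz c0 p0 c - p0)) < p0 + (N - 1))
          rw [show p0 + (prz c0 p0 c - p0) = prz c0 p0 c by omega]
          exact hc'.2
      · intro c hc c' hc' hcc
        have g1 := (mem_filter.1 (mem_coe.1 hc)).2.1
        have g2 := (mem_filter.1 (mem_coe.1 hc')).2.1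
        have hle : p0 ≤ prz c0 p0 c := by unfold prz; omega
        have hle' : p0 ≤ prz c0 p0 c' := by unfold prz; omega
        apply prz_inj (p0 := p0) g1 g2
        change prz c0 p0 c - p0 = prz c0 p0 c' - p0 at hcc
        omega
    show (excz c0 P p0).card ≤ _
    have h1 := card_le_card hsub
    have h2 : (excz c0 P p0).card ≤ ((excz c0 P p0).erase c0).card + 1 := by
      rw [card_erase_add_one (mem_excz.2 (Or.inl rfl))]
    omega

end Pool.Agent.H56.W
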