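import Pool.Agent.H81.G1.Loops
import Pool.Agent.Q1.M6b.ExN

set_option autoImplicit false
open Finset

/-! # Straight paths through the tiles of a string

`SP X Q x y t`: the strand which leaves the tile of `x` at the end `x` and passes the tiles of `Q` straight
(only `W ↔ E`) next enters a tile outside `Q` at the end `y`; all its wires are ordinary (neither root nor
mark); `t` = its turning, where a straight passage `W → E` of a tile of `Q` counts `+4` and a passage
`E → W` counts `-4`. -/

namespace Pool.Agent.H56.W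

open Pool.Agent.H81.G1

variable {κ : Type*}

/-- the opposite end -/
def op : Dir → Dir
  | .W => .E | .E => .W | .N => .S | .S => .N

/-- the axioms of the wires, without types -/
structure Wi (X : Net κ) : Prop where
  inv : ∀ x, X.π (X.π x) = x
  ne : ∀ x, X.π x ≠ x
  tn : ∀ x, X.t (X.π x) = -X.t x

/-- ends of the root wire and of the mark wire (`= ExN.Sp`, for an arbitrary set of tiles) -/
def Spc (X : Net κ) (x : κ × Dir) : Prop :=
  x = X.x0 ∨ x = X.π X.x0 ∨ x = X.y0 ∨ x = X.π X.y0

lemma Spc_iff {N : ℕ} (X : Net (Fin N)) (x : Fin N × Dir) : Spc X x ↔ Pool.Agent.Q1.M6b.ExN.Sp X x :=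
  Iff.rfl

/-- straight paths through the tiles of `Q` -/
inductive SP (X : Net κ) (Q : κ → Prop) : κ × Dir → κ × Dir → ℤ → Prop
  | base {x : κ × Dir} : ¬ Q (X.π x).1 → ¬ Spc X x → SP X Q x (X.π x) (X.t x)
  | west {x y : κ × Dir} {q : κ} {t : ℤ} : X.π x = (q, .W) → Q q → ¬ Spc X x →
      SP X Q (q, .E) y t → SP X Q x y (X.t x + 4 + t)
  | east {x y : κ × Dir} {q : κ} {t : ℤ} : X.π x = (q, .E) → Q q → ¬ Spc X x →
      SP X Q (q, .W) y t → SP X Q x y (X.t x - 4 + t)

end Pool.Agent.H56.W
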