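import Pool.Agent.H56.W.StrZ

set_option autoImplicit false
set_option linter.unusedSectionVars false
set_option linter.dupNamespace false
open Finset

/-! # Elimination of the whole string: the main theorem -/

namespace Pool.Agent.H56.W

open Pool.Agent.H81.G1

universe u v

/-- the string `q 0, …, q (M-1)` (from the outside to the row) and the row `j`; the root wire starts at the
outer end of the string, the string ends at the end `N` of the tile `j c` -/
structure Str {ι : Type v} {κ : Type u} (X : Net κ) (M : ℕ) (q : ℕ → κ) (j : ι → κ) (c : ι) : Prop where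
  wi : Wi X
  qi : ∀ i < M, ∀ i' < M, q i = q i' → i = i'
  ji : Function.Injective j
  dis : ∀ i < M, ∀ k, q i ≠ j k
  all : ∀ k, (∃ i < M, k = q i) ∨ ∃ k', k = j k'
  root : X.x0 = if M = 0 then (j c, .N) else (q 0, .N)
  chain : ∀ i < M, X.π (q i, .S) = if i + 1 < M then (q (i + 1), .N) else (j c, .N)
  y1 : X.y0 ≠ X.x0
  y2 : X.y0 ≠ X.π X.x0
  y3 : ∀ i < M, X.y0 ≠ (q i, .S) ∧ X.y0 ≠ X.π (q i, .S)

/-- over-tiles on the string -/
def OvS {κ : Type u} (M : ℕ) (q : ℕ → κ) (a b : κ → ℂ) : Prop :=
  ∀ i < M, a (q i) = zt ^ (4 : ℤ) ∧ b (q i) = zt ^ (-4 : ℤ)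

/-- the row network without the string -/
structure RowN {ι : Type v} {κ : Type u} [Fintype ι] [DecidableEq ι] [Fintype κ] [DecidableEq κ]
    (X : Net κ) (M : ℕ) (q : ℕ → κ) (j : ι → κ) (c : ι) (X' : Net ι) : Prop where
  wi : Wi X'
  flat : Flat X'
  x0 : X'.x0 = (c, .N)
  y1 : X'.y0 ≠ X'.x0
  y2 : X'.y0 ≠ X'.π X'.x0
  path : ∀ x y t, SP X (fun k => ∃ i < M, k = q i) (j x.1, x.2) (j y.1, y.2) t →
    X'.π x = y ∧ X'.t x = t ∧ ¬ Spc X' x
  V : ∀ a b : κ → ℂ, OvS M q a b → ‖X.V a b‖ = ‖X'.V (a ∘ j) (b ∘ j)‖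

/-- the two possible results -/
def Out {ι : Type v} {κ : Type u} [Fintype ι] [DecidableEq ι] [Fintype κ] [DecidableEq κ]
    (X : Net κ) (M : ℕ) (q : ℕ → κ) (j : ι → κ) (c : ι) : Prop :=
  (∀ a b : κ → ℂ, OvS M q a b → ‖X.V a b‖ ≤ ∏ k, ‖a (j k) + b (j k)‖) ∨
    ∃ X' : Net ι, RowN X M q j c X'

lemma prod_str {ι : Type v} {κ : Type u} [Fintype ι] [DecidableEq ι] [Fintype κ] [DecidableEq κ]
    {M : ℕ} {q : ℕ → κ} {j : ι → κ} (ji : Function.Injective j)
    (all : ∀ k, (∃ i < M, k = q i) ∨ ∃ k', k = j k') {a b : κ → ℂ} (h : OvS M q a b) :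
    ∏ k, (a k + b k) = ∏ k, (a (j k) + b (j k)) := by
  have h1 : ∏ k, (a k + b k) = ∏ k ∈ univ.image j, (a k + b k) := by
    symm
    refine prod_subset (subset_univ _) fun k _ hk => ?_
    rcases all k with ⟨i, hi, rfl⟩ | ⟨k', rfl⟩
    · rw [(h i hi).1, (h i hi).2]; exact zt_ov
    · exact absurd (mem_image_of_mem j (mem_univ k')) hk
  rw [h1, prod_image (fun x _ y _ hxy => ji hxy)]

theorem str_elim {ι : Type v} [Fintype ι] [DecidableEq ι] : ∀ (M : ℕ) (κ : Type u)
    [Fintype κ] [DecidableEq κ] (X : Net κ) (q : ℕ → κ) (j : ι → κ) (c : ι), Str X M q j c → Flat X →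
    Out X M q j c := by
  intro M
  induction M with
  | zero =>
    intro κ _ _ X q j c h hf
    right
    have hb : Function.Bijective j := by
      refine ⟨h.ji, fun k => ?_⟩
      rcases h.all k with ⟨i, hi, -⟩ | ⟨k', rfl⟩
      · exact absurd hi (Nat.not_lt_zero i)
      · exact ⟨k', rfl⟩
    set e : κ ≃ ι := (Equiv.ofBijective j hb).symm with he
    have ej : ∀ k, e (j k) = k := fun k => (Equiv.ofBijective j hb).symm_apply_apply k
    have je : ∀ k, j (e k) = k := fun k => (Equiv.ofBijective j hb).apply_symm_apply k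
    have eEj : ∀ x : ι × Dir, eE e (j x.1, x.2) = x := fun x => by
      rw [eE_apply, ej]
    have hx0 : X.x0 = (j c, .N) := by rw [h.root, if_pos rfl]
    refine ⟨mp e X, mp_wi e h.wi, mp_flat e h.wi hf, ?_, ?_, ?_, ?_, ?_⟩
    · show eE e X.x0 = _
      rw [hx0, eE_apply, ej]
    · exact fun hh => h.y1 ((eE e).injective hh)
    · show eE e X.y0 ≠ (mp e X).π (eE e X.x0)
      rw [mp_pi]
      exact fun hh => h.y2 ((eE e).injective hh)
    · intro x y t hsp
      have h1 := mp_sp (e := e) (Q' := fun _ => False) (fun k => by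
        constructor
        · exact fun hh => hh.elim
        · rintro ⟨i, hi, -⟩; exact absurd hi (Nat.not_lt_zero i)) hsp
      rw [eEj, eEj] at h1
      cases h1 with
      | base h2 h3 => exact ⟨rfl, rfl, h3⟩
      | west _ h3 => exact h3.elim
      | east _ h3 => exact h3.elim
    · intro a b _
      rw [mp_V]
      have e1 : ∀ a : κ → ℂ, (a ∘ j) ∘ e = a := fun a => funext fun k => congrArg a (je k)
      rw [e1, e1]
  | succ M ih =>
    intro κ _ _ X q j c h hf
    have hM : 0 < M + 1 := Nat.succ_pos M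
    set κ' := {k : κ // k ≠ q 0} with hκ
    set e : κ ≃ Option κ' := (Equiv.optionSubtypeNe (q 0)).symm with he
    have e0 : e (q 0) = none := Equiv.optionSubtypeNe_symm_self (q 0)
    have e1 : ∀ k (hk : k ≠ q 0), e k = some ⟨k, hk⟩ := fun k hk =>
      Equiv.optionSubtypeNe_symm_of_ne hk
    set Y := mp e X with hY
    have hwY : Wi Y := mp_wi e h.wi
    have hfY : Flat Y := mp_flat e h.wi hf
    have hx0 : X.x0 = (q 0, .N) := by rw [h.root, if_neg (by omega)]
    have hY0 : Y.x0 = (none, .N) := by
      show eE e X.x0 = _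
      rw [hx0, eE_apply, e0]
    have jn : ∀ k, j k ≠ q 0 := fun k => (h.dis 0 hM k).symm
    have qn : ∀ i < M, q (i + 1) ≠ q 0 := by
      intro i hi hh
      have := h.qi (i + 1) (by omega) 0 hM hh
      omega
    set j' : ι → κ' := fun k => ⟨j k, jn k⟩ with hj'
    set q' : ℕ → κ' := fun i => if hh : q (i + 1) ≠ q 0 then ⟨q (i + 1), hh⟩ else j' c with hq'
    have q1 : ∀ i < M, (q' i).1 = q (i + 1) := by
      intro i hi
      simp only [hq']
      rw [dif_pos (qn i hi)]
    set x1 : κ' × Dir := if M = 0 then (j' c, .N) else (q' 0, .N) with hx1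
    have eq1 : ∀ i < M, ∀ d, eE e (q (i + 1), d) = ee (q' i, d) := by
      intro i hi d
      rw [eE_apply, e1 _ (qn i hi)]
      unfold ee
      refine Prod.ext ?_ rfl
      exact congrArg some (Subtype.ext (q1 i hi).symm)
    have ej1 : ∀ k d, eE e (j k, d) = ee (j' k, d) := by
      intro k d
      rw [eE_apply, e1 _ (jn k)]; rfl
    have hYS : Y.π (none, .S) = ee x1 := by
      have h1 := mp_pi (X := X) e (q 0, .S)
      rw [eE_apply, e0, h.chain 0 hM] at h1
      rw [h1]
      by_cases hM0 : M = 0
      · rw [if_neg (by omega), ej1]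
        simp only [hx1, if_pos hM0]
      · rw [if_pos (by omega), eq1 0 (by omega)]
        simp only [hx1, if_neg hM0]
    have hYq : ∀ i < M, Y.π (ee (q' i, .S)) =
        ee (if i + 1 < M then (q' (i + 1), .N) else (j' c, .N)) := by
      intro i hi
      rw [← eq1 i hi, mp_pi, h.chain (i + 1) (by omega)]
      by_cases h2 : i + 1 < M
      · rw [if_pos h2, if_pos (by omega), eq1 _ h2]
      · rw [if_neg h2, if_neg (by omega), ej1]
    have yne : ∀ {z : κ × Dir}, X.y0 ≠ z → Y.y0 ≠ eE e z := fun hz hh => hz ((eE e).injective hh)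
    have y1 : Y.y0 ≠ Y.x0 := yne h.y1
    have y2 : Y.y0 ≠ Y.π Y.x0 := by
      show Y.y0 ≠ (mp e X).π (eE e X.x0)
      rw [mp_pi]
      exact yne h.y2
    have y3 : Y.y0 ≠ (none, .S) := by
      have := yne (h.y3 0 hM).1
      rwa [eE_apply, e0] at this
    have y4 : Y.y0 ≠ ee x1 := by
      rw [← hYS]
      have := yne (h.y3 0 hM).2
      rwa [← mp_pi, eE_apply, e0] at this
    have hall' : ∀ k : κ', (∃ i < M, k = q' i) ∨ ∃ k', k = j' k' := by
      intro k
      rcases h.all k.1 with ⟨i, hi, hk⟩ | ⟨k', hk⟩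
      · left
        have hi0 : i ≠ 0 := by
          rintro rfl
          exact k.2 hk
        refine ⟨i - 1, by omega, Subtype.ext ?_⟩
        rw [q1 _ (by omega), hk]
        congr 1
        omega
      · right
        exact ⟨k', Subtype.ext hk⟩
    have ji' : Function.Injective j' := fun x y hxy => h.ji (congrArg Subtype.val hxy)
    -- the weights
    have ov : ∀ a b : κ → ℂ, OvS (M + 1) q a b → Ov (a ∘ e.symm) (b ∘ e.symm) ∧
        OvS M q' (rs (a ∘ e.symm)) (rs (b ∘ e.symm)) ∧ Y.V (a ∘ e.symm) (b ∘ e.symm) = X.V a b ∧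
        (∀ k, rs (a ∘ e.symm) (j' k) = a (j k)) ∧ ∀ k, rs (b ∘ e.symm) (j' k) = b (j k) := by
      intro a b hab
      refine ⟨?_, ?_, ?_, fun k => rfl, fun k => rfl⟩
      · exact hab 0 hM
      · intro i hi
        have h1 : ∀ a : κ → ℂ, rs (a ∘ e.symm) (q' i) = a (q (i + 1)) := by
          intro a
          show a (q' i).1 = _
          rw [q1 i hi]
        rw [h1, h1]
        exact hab (i + 1) (by omega)
      · rw [mp_V]
        congr 1 <;> (funext k; simp)
    have res := V_step hwY hY0 hYS hfY y1 y2 y3 y4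
    have hf1 : Flat (el Y x1) := flat_step hwY hY0 hYS hfY
    rcases res with h0 | ⟨c0, hc0, h0⟩ | ⟨g1, g2, c0, hc0, h0⟩
    · left
      intro a b hab
      obtain ⟨o1, -, o3, -⟩ := ov a b hab
      rw [← o3, h0 _ _ o1, norm_zero]
      exact prod_nonneg fun _ _ => norm_nonneg _
    · left
      intro a b hab
      obtain ⟨o1, o2, o3, o4, o5⟩ := ov a b hab
      obtain ⟨c1, hc1, hV⟩ := hf1
      rw [← o3, h0 _ _ o1, hV, norm_mul, norm_mul, hc0, hc1, one_mul, one_mul,
        prod_str ji' hall' o2, norm_prod]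
      refine le_of_eq (prod_congr rfl fun k _ => ?_)
      rw [o4, o5]
    · have hwe := el_wi hwY hYS
      have hQe : (fun k : κ' => ∃ i < M + 1, (k : κ) = q i) = fun k => ∃ i < M, k = q' i := by
        funext k
        apply propext
        constructor
        · rintro ⟨i, hi, hk⟩
          have hi0 : i ≠ 0 := by
            rintro rfl
            exact k.2 hk
          refine ⟨i - 1, by omega, Subtype.ext ?_⟩
          rw [q1 _ (by omega), hk]
          congr 1
          omega
        · rintro ⟨i, hi, rfl⟩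
          exact ⟨i + 1, by omega, q1 i hi⟩
      have hStr : Str (el Y x1) M q' j' c := by
        have hchain : ∀ i < M, (el Y x1).π (q' i, .S) =
            if i + 1 < M then (q' (i + 1), .N) else (j' c, .N) := fun i hi => (el_reg (hYq i hi)).1
        refine ⟨hwe, ?_, ji', ?_, hall', rfl, hchain, g1, g2, ?_⟩
        · intro i hi i' hi' hii
          have h1 := congrArg Subtype.val hii
          rw [q1 i hi, q1 i' hi'] at h1
          have := h.qi _ (by omega) _ (by omega) h1
          omega
        · intro i hi k hk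
          have h1 := congrArg Subtype.val hk
          rw [q1 i hi] at h1
          exact h.dis _ (by omega) k h1
        · intro i hi
          rcases end_cases Y.y0 with ⟨y, hy⟩ | ⟨d, hd⟩
          · have ey : (el Y x1).y0 = y := by
              show (J Y x1 2 Y.y0).1 = y
              rw [hy, J_some]
            rw [ey]
            constructor
            · rintro rfl
              apply yne (h.y3 (i + 1) (by omega)).1
              rw [eq1 i hi]; exact hy
            · intro hh
              apply yne (h.y3 (i + 1) (by omega)).2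
              rw [← mp_pi, eq1 i hi, hYq i hi, ← hchain i hi, ← hh]
              exact hy
          · have htn : Tn Y (el Y x1).y0 := by
              show Tn Y (J Y x1 2 Y.y0).1
              rw [hd]
              exact tn_J hwY hY0 hYS d
            constructor
            · intro hh
              rw [hh] at htn
              obtain ⟨d', hd'⟩ := htn
              rw [hYq i hi] at hd'
              exact ee_ne _ _ hd'
            · intro hh
              rw [hh] at htn
              have htn2 := tn_pi hwY hY0 hYS htn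
              rw [hwe.inv] at htn2
              obtain ⟨d', hd'⟩ := htn2
              rw [hYq i hi] at hd'
              exact ee_ne _ _ hd'
      rcases ih κ' (el Y x1) q' j' c hStr hf1 with hl | ⟨X', hr⟩
      · left
        intro a b hab
        obtain ⟨o1, o2, o3, o4, o5⟩ := ov a b hab
        rw [← o3, h0 _ _ o1, norm_mul, hc0, one_mul]
        refine (hl _ _ o2).trans (le_of_eq (prod_congr rfl fun k _ => ?_))
        rw [o4, o5]
      · right
        refine ⟨X', hr.wi, hr.flat, hr.x0, hr.y1, hr.y2, ?_, ?_⟩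
        · intro x y t hsp
          have h1 := mp_sp (e := e) (Q' := fun z => ∃ i < M + 1, e.symm z = q i) (fun k => by
            simp only [Equiv.symm_apply_apply]) hsp
          rw [ej1, ej1] at h1
          obtain ⟨y', hy', h2, -⟩ := sp_step hwY hY0 hYS ⟨0, hM, rfl⟩ h1
          have hyy : (j' y.1, y.2) = y' := ee_inj hy'
          subst hyy
          have h3 := h2 _ rfl
          have h4 : (fun i : κ' => ∃ i' < M + 1, e.symm (some i) = q i') =
            fun k => ∃ i < M, k = q' i := hQe
          rw [h4] at h3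
          exact hr.path x y t h3
        · intro a b hab
          obtain ⟨o1, o2, o3, o4, o5⟩ := ov a b hab
          rw [← o3, h0 _ _ o1, norm_mul, hc0, one_mul, hr.V _ _ o2]
          rfl

end Pool.Agent.H56.W
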