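import Pool.Agent.H56.W.Flat
import Pool.Agent.H56.W.SP

set_option autoImplicit false
set_option linter.unusedSectionVars false
set_option linter.dupNamespace false
open Finset

/-! # Elimination of one tile of the string (vertex sums)

`X : Net (Option ι)`: the tile `none` has the weights `(ζ⁴, ζ⁻⁴)`, the root is its end `N`. The arrow goes
straight through it (`N` in, `S` out), the strand `W–E` passes straight, and the vertex sum is that of the
network `el X x1` without this tile, whose root is the end `x1` below it. -/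

namespace Pool.Agent.H56.W

open Pool.Agent.H81.G1

variable {ι : Type*}

/-- an end of an old tile -/
def ee (x : ι × Dir) : Option ι × Dir := (some x.1, x.2)

lemma ee_inj {x y : ι × Dir} (h : ee x = ee y) : x = y := by
  unfold ee at h
  rw [Prod.mk.injEq] at h
  exact Prod.ext (Option.some.inj h.1) h.2

lemma ee_ne (x : ι × Dir) (d : Dir) : ee x ≠ (none, d) := by
  unfold ee
  intro h
  rw [Prod.mk.injEq] at h
  exact absurd h.1 (by simp)

lemma end_cases (z : Option ι × Dir) : (∃ y, z = ee y) ∨ ∃ d, z = (none, d) := by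
  obtain ⟨c, d⟩ := z
  cases c with
  | none => exact Or.inr ⟨d, rfl⟩
  | some i => exact Or.inl ⟨(i, d), rfl⟩

/-- turning of the straight passage which enters at the end `d` -/
def cr : Dir → ℤ
  | .W => 4 | .E => -4 | .N => 0 | .S => 0

/-- the old end which is reached from `z` when the new tile is passed straight, and the turning -/
def J (X : Net (Option ι)) (x1 : ι × Dir) : ℕ → Option ι × Dir → (ι × Dir) × ℤ
  | _, (some i, d) => ((i, d), 0)
  | 0, (none, _) => (x1, 0)
  | n + 1, (none, d) => ((J X x1 n (X.π (none, op d))).1,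
      cr d + X.t (none, op d) + (J X x1 n (X.π (none, op d))).2)

lemma J_some (X : Net (Option ι)) (x1 : ι × Dir) (n : ℕ) (y : ι × Dir) : J X x1 n (ee y) = (y, 0) := by
  cases n <;> rfl

lemma J_none (X : Net (Option ι)) (x1 : ι × Dir) (n : ℕ) (d : Dir) : J X x1 (n + 1) (none, d) =
    ((J X x1 n (X.π (none, op d))).1, cr d + X.t (none, op d) + (J X x1 n (X.π (none, op d))).2) := rfl

/-- additional turning of a wire -/
def dl (X : Net (Option ι)) (x1 x : ι × Dir) : ℤ := (J X x1 2 (X.π (ee x))).2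

/-- the network without the tile `none` -/
def el (X : Net (Option ι)) (x1 : ι × Dir) : Net ι where
  π x := (J X x1 2 (X.π (ee x))).1
  t x := X.t (ee x) + dl X x1 x
  x0 := x1
  y0 := (J X x1 2 X.y0).1

variable {X : Net (Option ι)} {x1 A B R x y : ι × Dir}

lemma el_reg (h : X.π (ee x) = ee y) : (el X x1).π x = y ∧ dl X x1 x = 0 := by
  constructor
  · show (J X x1 2 (X.π (ee x))).1 = y
    rw [h, J_some]
  · unfold dl
    rw [h, J_some]

lemma el_one {d : Dir} (h : X.π (ee x) = (none, d)) (h2 : X.π (none, op d) = ee y) :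
    (el X x1).π x = y ∧ dl X x1 x = cr d + X.t (none, op d) := by
  constructor
  · show (J X x1 2 (X.π (ee x))).1 = y
    rw [h, J_none, h2, J_some]
  · unfold dl
    rw [h, J_none, h2, J_some, add_zero]

lemma el_two {d d' : Dir} (h : X.π (ee x) = (none, d)) (h2 : X.π (none, op d) = (none, d'))
    (h3 : X.π (none, op d') = ee y) : (el X x1).π x = y ∧
      dl X x1 x = cr d + X.t (none, op d) + (cr d' + X.t (none, op d')) := by
  constructor
  · show (J X x1 2 (X.π (ee x))).1 = y
    rw [h, J_none, h2, J_none, h3, J_some]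
  · unfold dl
    rw [h, J_none, h2, J_none, h3, J_some, add_zero]

/-! ### The types of the tile -/

/-- all four wires leave the tile -/
structure TyI (X : Net (Option ι)) (x1 A B R : ι × Dir) : Prop where
  S : X.π (none, .S) = ee x1
  W : X.π (none, .W) = ee A
  E : X.π (none, .E) = ee B
  N : X.π (none, .N) = ee R

/-- a loop `W–E` -/
structure TyL (X : Net (Option ι)) (x1 R : ι × Dir) : Prop where
  S : X.π (none, .S) = ee x1
  W : X.π (none, .W) = (none, .E)
  N : X.π (none, .N) = ee R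

/-- the root wire is `N–W` -/
structure TyW (X : Net (Option ι)) (x1 B : ι × Dir) : Prop where
  S : X.π (none, .S) = ee x1
  N : X.π (none, .N) = (none, .W)
  E : X.π (none, .E) = ee B

/-- the root wire is `N–E` -/
structure TyE (X : Net (Option ι)) (x1 A : ι × Dir) : Prop where
  S : X.π (none, .S) = ee x1
  N : X.π (none, .N) = (none, .E)
  W : X.π (none, .W) = ee A

lemma ty_cases (hw : Wi X) (hS : X.π (none, .S) = ee x1) :
    (∃ A B R, TyI X x1 A B R) ∨ (∃ R, TyL X x1 R) ∨ (∃ B, TyW X x1 B) ∨ ∃ A, TyE X x1 A := by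
  have nS : ∀ d, X.π (none, d) ≠ (none, .S) := by
    intro d h
    have := hw.inv (none, d)
    rw [h, hS] at this
    exact ee_ne _ _ this
  have nn : ∀ d, X.π (none, d) ≠ (none, d) := fun d => hw.ne _
  rcases end_cases (X.π (none, .N)) with ⟨R, hR⟩ | ⟨d, hd⟩
  · rcases end_cases (X.π (none, .W)) with ⟨A, hA⟩ | ⟨d, hd⟩
    · rcases end_cases (X.π (none, .E)) with ⟨B, hB⟩ | ⟨d, hd⟩
      · exact Or.inl ⟨A, B, R, hS, hA, hB, hR⟩
      · exfalso
        cases d
        · have := hw.inv (none, .E)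
          rw [hd, hA] at this
          exact ee_ne _ _ this
        · have := hw.inv (none, .E)
          rw [hd, hR] at this
          exact ee_ne _ _ this
        · exact nn _ hd
        · exact nS _ hd
    · cases d
      · exact absurd hd (nn _)
      · exfalso
        have := hw.inv (none, .W)
        rw [hd, hR] at this
        exact ee_ne _ _ this
      · exact Or.inr (Or.inl ⟨R, hS, hd, hR⟩)
      · exact absurd hd (nS _)
  · cases d
    · right; right; left
      rcases end_cases (X.π (none, .E)) with ⟨B, hB⟩ | ⟨d, he⟩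
      · exact ⟨B, hS, hd, hB⟩
      · exfalso
        have h1 := hw.inv (none, .E)
        have h2 := hw.inv (none, .N)
        cases d
        · rw [he] at h1
          rw [hd, h1] at h2
          exact absurd (congrArg Prod.snd h2) (by simp)
        · rw [he, hd] at h1
          exact absurd (congrArg Prod.snd h1) (by simp)
        · exact nn _ he
        · exact nS _ he
    · exact absurd hd (nn _)
    · right; right; right
      rcases end_cases (X.π (none, .W)) with ⟨A, hA⟩ | ⟨d, he⟩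
      · exact ⟨A, hS, hd, hA⟩
      · exfalso
        have h1 := hw.inv (none, .W)
        have h2 := hw.inv (none, .N)
        cases d
        · exact nn _ he
        · rw [he, hd] at h1
          exact absurd (congrArg Prod.snd h1) (by simp)
        · rw [he] at h1
          rw [hd, h1] at h2
          exact absurd (congrArg Prod.snd h2) (by simp)
        · exact nS _ he
    · exact absurd hd (nS _)

section
variable (hw : Wi X)
include hw

lemma back {z z' : Option ι × Dir} (h : X.π z = z') : X.π z' = z := by rw [← h, hw.inv]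

/-- wires of the type I -/
lemma TyI.val (h : TyI X x1 A B R) :
    ((el X x1).π A = B ∧ dl X x1 A = 4 + X.t (none, .E)) ∧
    ((el X x1).π B = A ∧ dl X x1 B = -4 + X.t (none, .W)) ∧
    ((el X x1).π R = x1 ∧ dl X x1 R = 0 + X.t (none, .S)) ∧
    ((el X x1).π x1 = R ∧ dl X x1 x1 = 0 + X.t (none, .N)) :=
  ⟨el_one (d := .W) (back hw h.W) h.E, el_one (d := .E) (back hw h.E) h.W,
    el_one (d := .N) (back hw h.N) h.S, el_one (d := .S) (back hw h.S) h.N⟩

lemma TyL.val (h : TyL X x1 R) :
    ((el X x1).π R = x1 ∧ dl X x1 R = 0 + X.t (none, .S)) ∧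
    ((el X x1).π x1 = R ∧ dl X x1 x1 = 0 + X.t (none, .N)) :=
  ⟨el_one (d := .N) (back hw h.N) h.S, el_one (d := .S) (back hw h.S) h.N⟩

lemma TyW.val (h : TyW X x1 B) :
    ((el X x1).π B = x1 ∧ dl X x1 B = -4 + X.t (none, .W) + (0 + X.t (none, .S))) ∧
    ((el X x1).π x1 = B ∧ dl X x1 x1 = 0 + X.t (none, .N) + (4 + X.t (none, .E))) :=
  ⟨el_two (d := .E) (d' := .N) (back hw h.E) (back hw h.N) h.S,
    el_two (d := .S) (d' := .W) (back hw h.S) h.N h.E⟩

lemma TyE.val (h : TyE X x1 A) :
    ((el X x1).π A = x1 ∧ dl X x1 A = 4 + X.t (none, .E) + (0 + X.t (none, .S))) ∧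
    ((el X x1).π x1 = A ∧ dl X x1 x1 = 0 + X.t (none, .N) + (-4 + X.t (none, .W))) :=
  ⟨el_two (d := .W) (d' := .N) (back hw h.W) (back hw h.N) h.S,
    el_two (d := .S) (d' := .E) (back hw h.S) h.N h.W⟩

/-- ends of the type I -/
lemma TyI.ends (h : TyI X x1 A B R) (x : ι × Dir) : x = A ∨ x = B ∨ x = R ∨ x = x1 ∨
    ∃ y, X.π (ee x) = ee y := by
  rcases end_cases (X.π (ee x)) with ⟨y, hy⟩ | ⟨d, hd⟩
  · exact Or.inr (Or.inr (Or.inr (Or.inr ⟨y, hy⟩)))
  · have h1 := back hw hd
    cases d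
    · left; rw [h.W] at h1; exact (ee_inj h1).symm
    · right; right; left; rw [h.N] at h1; exact (ee_inj h1).symm
    · right; left; rw [h.E] at h1; exact (ee_inj h1).symm
    · right; right; right; left; rw [h.S] at h1; exact (ee_inj h1).symm

lemma TyL.ends (h : TyL X x1 R) (x : ι × Dir) : x = R ∨ x = x1 ∨
    ∃ y, X.π (ee x) = ee y := by
  rcases end_cases (X.π (ee x)) with ⟨y, hy⟩ | ⟨d, hd⟩
  · exact Or.inr (Or.inr ⟨y, hy⟩)
  · have h1 := back hw hd
    cases d
    · rw [h.W] at h1; exact absurd h1.symm (ee_ne _ _)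
    · left; rw [h.N] at h1; exact (ee_inj h1).symm
    · have h2 := back hw h.W
      rw [h2] at h1; exact absurd h1.symm (ee_ne _ _)
    · right; left; rw [h.S] at h1; exact (ee_inj h1).symm

lemma TyW.ends (h : TyW X x1 B) (x : ι × Dir) : x = B ∨ x = x1 ∨
    ∃ y, X.π (ee x) = ee y := by
  rcases end_cases (X.π (ee x)) with ⟨y, hy⟩ | ⟨d, hd⟩
  · exact Or.inr (Or.inr ⟨y, hy⟩)
  · have h1 := back hw hd
    cases d
    · rw [back hw h.N] at h1; exact absurd h1.symm (ee_ne _ _)
    · rw [h.N] at h1; exact absurd h1.symm (ee_ne _ _)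
    · left; rw [h.E] at h1; exact (ee_inj h1).symm
    · right; left; rw [h.S] at h1; exact (ee_inj h1).symm

lemma TyE.ends (h : TyE X x1 A) (x : ι × Dir) : x = A ∨ x = x1 ∨
    ∃ y, X.π (ee x) = ee y := by
  rcases end_cases (X.π (ee x)) with ⟨y, hy⟩ | ⟨d, hd⟩
  · exact Or.inr (Or.inr ⟨y, hy⟩)
  · have h1 := back hw hd
    cases d
    · left; rw [h.W] at h1; exact (ee_inj h1).symm
    · rw [h.N] at h1; exact absurd h1.symm (ee_ne _ _)
    · rw [back hw h.N] at h1; exact absurd h1.symm (ee_ne _ _)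
    · right; left; rw [h.S] at h1; exact (ee_inj h1).symm

lemma pi_inj {z z' : Option ι × Dir} (h : X.π z = X.π z') : z = z' := by
  rw [← hw.inv z, h, hw.inv]

/-- distinct ends -/
lemma TyI.dist (h : TyI X x1 A B R) : A ≠ B ∧ A ≠ R ∧ A ≠ x1 ∧ B ≠ R ∧ B ≠ x1 ∧ R ≠ x1 := by
  have key : ∀ {d d' : Dir} {P Q : ι × Dir}, X.π (none, d) = ee P → X.π (none, d') = ee Q → d ≠ d' →
      P ≠ Q := by
    intro d d' P Q h1 h2 hd hPQ
    apply hd
    have h3 : X.π (none, d) = X.π (none, d') := by rw [h1, h2, hPQ]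
    exact congrArg Prod.snd (pi_inj hw h3)
  exact ⟨key h.W h.E (by simp), key h.W h.N (by simp), key h.W h.S (by simp), key h.E h.N (by simp),
    key h.E h.S (by simp), key h.N h.S (by simp)⟩

lemma ne_of_pi {d d' : Dir} {P Q : ι × Dir} (h1 : X.π (none, d) = ee P) (h2 : X.π (none, d') = ee Q)
    (hd : d ≠ d') : P ≠ Q := by
  intro hPQ
  apply hd
  have h3 : X.π (none, d) = X.π (none, d') := by rw [h1, h2, hPQ]
  exact congrArg Prod.snd (pi_inj hw h3)

/-- **the wires of the network without the tile** -/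
theorem el_wi (hS : X.π (none, .S) = ee x1) : Wi (el X x1) := by
  have hreg : ∀ x y, X.π (ee x) = ee y → (el X x1).π ((el X x1).π x) = x ∧ (el X x1).π x ≠ x ∧
      (el X x1).t ((el X x1).π x) = -(el X x1).t x := by
    intro x y hxy
    have h1 := el_reg (x1 := x1) hxy
    have h2 := el_reg (x1 := x1) (back hw hxy)
    refine ⟨by rw [h1.1, h2.1], ?_, ?_⟩
    · rw [h1.1]
      intro h
      rw [h] at hxy
      exact hw.ne _ hxy
    · rw [h1.1]
      show X.t (ee y) + dl X x1 y = -(X.t (ee x) + dl X x1 x)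
      rw [h1.2, h2.2, ← hxy, hw.tn]; ring
  have tW : ∀ {d : Dir} {z : Option ι × Dir}, X.π (none, d) = z → X.t z = -X.t (none, d) := by
    intro d z h
    rw [← h, hw.tn]
  have main : ∀ x, (el X x1).π ((el X x1).π x) = x ∧ (el X x1).π x ≠ x ∧
      (el X x1).t ((el X x1).π x) = -(el X x1).t x := by
    intro x
    have tdef : ∀ x, (el X x1).t x = X.t (ee x) + dl X x1 x := fun _ => rfl
    rcases ty_cases hw hS with ⟨A, B, R, h⟩ | ⟨R, h⟩ | ⟨B, h⟩ | ⟨A, h⟩
    · obtain ⟨⟨a1, a2⟩, ⟨b1, b2⟩, ⟨r1, r2⟩, ⟨s1, s2⟩⟩ := h.val hw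
      obtain ⟨n1, n2, n3, n4, n5, n6⟩ := h.dist hw
      rcases h.ends hw x with rfl | rfl | rfl | rfl | ⟨y, hy⟩
      · refine ⟨by rw [a1, b1], by rw [a1]; exact n1.symm, ?_⟩
        rw [a1, tdef, tdef, a2, b2, tW h.W, tW h.E]; ring
      · refine ⟨by rw [b1, a1], by rw [b1]; exact n1, ?_⟩
        rw [b1, tdef, tdef, a2, b2, tW h.W, tW h.E]; ring
      · refine ⟨by rw [r1, s1], by rw [r1]; exact n6.symm, ?_⟩
        rw [r1, tdef, tdef, r2, s2, tW h.N, tW h.S]; ring
      · refine ⟨by rw [s1, r1], by rw [s1]; exact n6, ?_⟩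
        rw [s1, tdef, tdef, r2, s2, tW h.N, tW h.S]; ring
      · exact hreg x y hy
    · obtain ⟨⟨r1, r2⟩, ⟨s1, s2⟩⟩ := h.val hw
      have n6 := ne_of_pi hw h.N h.S (by simp)
      rcases h.ends hw x with rfl | rfl | ⟨y, hy⟩
      · refine ⟨by rw [r1, s1], by rw [r1]; exact n6.symm, ?_⟩
        rw [r1, tdef, tdef, r2, s2, tW h.N, tW h.S]; ring
      · refine ⟨by rw [s1, r1], by rw [s1]; exact n6, ?_⟩
        rw [s1, tdef, tdef, r2, s2, tW h.N, tW h.S]; ring
      · exact hreg x y hy
    · obtain ⟨⟨r1, r2⟩, ⟨s1, s2⟩⟩ := h.val hw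
      have n6 := ne_of_pi hw h.E h.S (by simp)
      rcases h.ends hw x with rfl | rfl | ⟨y, hy⟩
      · refine ⟨by rw [r1, s1], by rw [r1]; exact n6.symm, ?_⟩
        rw [r1, tdef, tdef, r2, s2, tW h.E, tW h.S, tW h.N]; ring
      · refine ⟨by rw [s1, r1], by rw [s1]; exact n6, ?_⟩
        rw [s1, tdef, tdef, r2, s2, tW h.E, tW h.S, tW h.N]; ring
      · exact hreg x y hy
    · obtain ⟨⟨r1, r2⟩, ⟨s1, s2⟩⟩ := h.val hw
      have n6 := ne_of_pi hw h.W h.S (by simp)
      rcases h.ends hw x with rfl | rfl | ⟨y, hy⟩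
      · refine ⟨by rw [r1, s1], by rw [r1]; exact n6.symm, ?_⟩
        rw [r1, tdef, tdef, r2, s2, tW h.W, tW h.S, tW h.N]; ring
      · refine ⟨by rw [s1, r1], by rw [s1]; exact n6, ?_⟩
        rw [s1, tdef, tdef, r2, s2, tW h.W, tW h.S, tW h.N]; ring
      · exact hreg x y hy
  exact ⟨fun x => (main x).1, fun x => (main x).2.1, fun x => (main x).2.2⟩

end

end Pool.Agent.H56.W
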