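import Pool.Agent.H56.W.Elim
import Pool.Agent.Q1.M6b.Strand

set_option autoImplicit false
set_option linter.unusedSectionVars false
set_option linter.dupNamespace false
open Finset

/-! # Elimination of one tile of the string: the vertex sums -/

namespace Pool.Agent.H56.W

open Pool.Agent.H81.G1

section general
variable {κ : Type*}

/-- the wire of `z` is neither the root wire nor (if `m`) the mark wire -/
def Ord (X : Net κ) (m : Bool) (z : κ × Dir) : Prop :=
  z ≠ X.x0 ∧ z ≠ X.π X.x0 ∧ (m = true → z ≠ X.y0 ∧ z ≠ X.π X.y0)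

/-- arrows with value `-1` at the root, `ρ` at its partner, outgoing at the mark if `m` -/
def CG (X : Net κ) (ρ : ℤˣ) (m : Bool) (o : κ × Dir → ℤˣ) : Prop :=
  o X.x0 = -1 ∧ o (X.π X.x0) = ρ ∧ (m = true → o X.y0 = 1 ∧ o (X.π X.y0) = 1) ∧
    ∀ z, Ord X m z → o (X.π z) = -o z

open Classical in
/-- the arrow sum with the conditions `CG` -/
noncomputable def VG [Fintype κ] [DecidableEq κ] (X : Net κ) (ρ : ℤˣ) (m : Bool) (a b : κ → ℂ) : ℂ :=
  ∑ o : κ × Dir → ℤˣ, if CG X ρ m o then X.wt a b o else 0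

lemma V_eq_VG [Fintype κ] [DecidableEq κ] (X : Net κ) (a b : κ → ℂ) : X.V a b = VG X (-1) true a b := by
  unfold Net.V VG
  refine sum_congr rfl fun o _ => ?_
  have h : X.Cons o ↔ CG X (-1) true o := by
    unfold Net.Cons CG Ord
    constructor
    · rintro ⟨h1, h2, h3, h4, h5⟩
      exact ⟨h1, h2, fun _ => ⟨h3, h4⟩, fun z hz => h5 z hz.1 hz.2.1 (hz.2.2 rfl).1 (hz.2.2 rfl).2⟩
    · rintro ⟨h1, h2, h3, h5⟩
      exact ⟨h1, h2, (h3 rfl).1, (h3 rfl).2, fun z a1 a2 a3 a4 => h5 z ⟨a1, a2, fun _ => ⟨a3, a4⟩⟩⟩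
  by_cases hc : X.Cons o
  · rw [if_pos hc, if_pos (h.1 hc)]
  · rw [if_neg hc, if_neg (fun hh => hc (h.2 hh))]

lemma V0_eq_VG [Fintype κ] [DecidableEq κ] {X : Net κ} (hinv : ∀ x, X.π (X.π x) = x) (a b : κ → ℂ) :
    V0 X a b = VG X 1 false a b := by
  unfold V0 VG
  refine sum_congr rfl fun o _ => ?_
  have h : Cons0 X o ↔ CG X 1 false o := by
    unfold Cons0 CG Ord
    constructor
    · rintro ⟨h1, h2⟩
      exact ⟨h1, by rw [h2, h1]; simp, fun h => absurd h (by simp), fun z _ => h2 z⟩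
    · rintro ⟨h1, h2, -, h4⟩
      refine ⟨h1, fun x => ?_⟩
      by_cases a1 : x = X.x0
      · rw [a1, h2, h1]; simp
      by_cases a2 : x = X.π X.x0
      · rw [a2, hinv, h2, h1]
      exact h4 x ⟨a1, a2, fun h => absurd h (by simp)⟩
  by_cases hc : Cons0 X o
  · rw [if_pos hc, if_pos (h.1 hc)]
  · rw [if_neg hc, if_neg (fun hh => hc (h.2 hh))]

end general

variable {ι : Type*}

/-- the arrows which go straight through the tile `none` -/
def ext (o : ι × Dir → ℤˣ) (w : ℤˣ) : Option ι × Dir → ℤˣ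
  | (some i, d) => o (i, d)
  | (none, .W) => w
  | (none, .E) => -w
  | (none, .N) => -1
  | (none, .S) => 1

lemma ext_ee (o : ι × Dir → ℤˣ) (w : ℤˣ) (x : ι × Dir) : ext o w (ee x) = o x := rfl

lemma vert_str (a b : ℂ) (w : ℤˣ) : vert a b w (-1) (-w) 1 = if w = 1 then a else b := by
  unfold vert
  rcases Int.units_eq_one_or w with rfl | rfl <;> simp [show (1 : ℤˣ) ≠ -1 by decide,
    show (-1 : ℤˣ) ≠ 1 by decide]

section fin
variable [Fintype ι] [DecidableEq ι] {X : Net (Option ι)} {x1 A B R : ι × Dir} {a b : Option ι → ℂ}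

/-- the exponent -/
def kk (X : Net (Option ι)) (x1 : ι × Dir) (o : ι × Dir → ℤˣ) (w : ℤˣ) : ℤ :=
  -X.t (none, .S) - (if w = 1 then X.t (none, .W) else X.t (none, .E)) +
    ∑ x, (if o x = 1 then dl X x1 x else 0)

/-- the weight of the arrows which go straight through the tile `none` -/
lemma wt_ext (o : ι × Dir → ℤˣ) (w : ℤˣ) : X.wt a b (ext o w) =
    (if w = 1 then a none else b none) * zt ^ kk X x1 o w *
      (el X x1).wt (fun i => a (some i)) (fun i => b (some i)) o := by
  unfold Net.wt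
  rw [Fintype.prod_option, Fintype.prod_prod_type (f := fun x : Option ι × Dir =>
    (if ext o w x = 1 then zt ^ (-X.t x) else (1 : ℂ))), Fintype.prod_option]
  have h1 : vert (a none) (b none) (ext o w (none, .W)) (ext o w (none, .N)) (ext o w (none, .E))
      (ext o w (none, .S)) = if w = 1 then a none else b none := vert_str _ _ _
  have h2 : ∏ d : Dir, (if ext o w (none, d) = 1 then zt ^ (-X.t (none, d)) else (1 : ℂ)) =
      zt ^ (-X.t (none, .S) - (if w = 1 then X.t (none, .W) else X.t (none, .E))) := by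
    have hu : (univ : Finset Dir) = {.W, .E, .N, .S} := by decide
    rw [hu, prod_insert (by decide), prod_insert (by decide), prod_insert (by decide), prod_singleton]
    have e1 : ext o w (none, .W) = w := rfl
    have e2 : ext o w (none, .E) = -w := rfl
    have e3 : ext o w (none, .N) = -1 := rfl
    have e4 : ext o w (none, .S) = 1 := rfl
    rw [e1, e2, e3, e4, sub_eq_add_neg, zpow_add₀ zt_ne]
    rcases Int.units_eq_one_or w with rfl | rfl
    · simp [show (-1 : ℤˣ) ≠ 1 by decide, mul_comm]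
    · simp [show (-1 : ℤˣ) ≠ 1 by decide, mul_comm]
  have h3 : ∏ i : ι, ∏ d : Dir, (if ext o w (some i, d) = 1 then zt ^ (-X.t (some i, d)) else (1 : ℂ)) =
      zt ^ (∑ x, (if o x = 1 then dl X x1 x else 0)) *
        ∏ x : ι × Dir, (if o x = 1 then zt ^ (-(el X x1).t x) else 1) := by
    have e0 := Fintype.prod_prod_type (f := fun x : ι × Dir =>
      (if ext o w (ee x) = 1 then zt ^ (-X.t (ee x)) else (1 : ℂ)))
    refine e0.symm.trans ?_
    rw [← zt_prod, ← prod_mul_distrib]
    refine prod_congr rfl fun x _ => ?_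
    rw [ext_ee]
    split_ifs with h
    · show zt ^ (-X.t (ee x)) = zt ^ dl X x1 x * zt ^ (-(X.t (ee x) + dl X x1 x))
      rw [← zpow_add₀ zt_ne]
      congr 1; ring
    · simp
  rw [h1, h2, h3]
  unfold kk
  rw [zpow_add₀ zt_ne]
  have h4 : ∀ i, vert (a (some i)) (b (some i)) (ext o w (some i, .W)) (ext o w (some i, .N))
      (ext o w (some i, .E)) (ext o w (some i, .S)) =
      vert (a (some i)) (b (some i)) (o (i, .W)) (o (i, .N)) (o (i, .E)) (o (i, .S)) := fun _ => rfl
  simp only [h4]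
  ring

/-- only the arrows which go straight contribute -/
lemma sum_ext (f : (Option ι × Dir → ℤˣ) → ℂ) (hf : ∀ o, f o ≠ 0 → o (none, .N) = -1 ∧
    o (none, .S) = 1 ∧ o (none, .E) = -o (none, .W)) :
    ∑ o, f o = ∑ o' : ι × Dir → ℤˣ, ∑ w : ℤˣ, f (ext o' w) := by
  classical
  rw [← Fintype.sum_prod_type' (f := fun (o' : ι × Dir → ℤˣ) (w : ℤˣ) => f (ext o' w))]
  symm
  refine Finset.sum_of_injOn (fun p : (ι × Dir → ℤˣ) × ℤˣ => ext p.1 p.2) ?_ ?_ ?_ ?_
  · rintro ⟨o, w⟩ - ⟨o', w'⟩ - h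
    have h1 : ∀ x, o x = o' x := fun x => congrFun h (ee x)
    have h2 : w = w' := congrFun h (none, .W)
    exact Prod.ext (funext h1) h2
  · intro _ _; exact mem_coe.2 (mem_univ _)
  · intro o _ ho
    by_contra hne
    obtain ⟨h1, h2, h3⟩ := hf o hne
    apply ho
    refine ⟨(fun x => o (ee x), o (none, .W)), mem_coe.2 (mem_univ _), ?_⟩
    funext z
    obtain ⟨c, d⟩ := z
    cases c with
    | some i => rfl
    | none =>
      cases d
      · rfl
      · exact h1.symm
      · exact h3.symm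
      · exact h2.symm
  · intro _ _; rfl

/-- arrows which enter the over-tile `none` at `N` go straight -/
lemma str_of (ha : a none = zt ^ (4 : ℤ)) (hb : b none = zt ^ (-4 : ℤ)) (o : Option ι × Dir → ℤˣ)
    (hN : o (none, .N) = -1) (hw : X.wt a b o ≠ 0) :
    o (none, .N) = -1 ∧ o (none, .S) = 1 ∧ o (none, .E) = -o (none, .W) := by
  have hv : vert (a none) (b none) (o (none, .W)) (o (none, .N)) (o (none, .E)) (o (none, .S)) ≠ 0 := by
    intro h
    apply hw
    unfold Net.wt
    rw [Fintype.prod_option, h]; simp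
  rw [ha, hb] at hv
  rcases Pool.Agent.Q1.M6b.Strand.vert_over hv with h | h
  · exact ⟨hN, by rw [h.2, hN]; simp, h.1⟩
  · rw [hN] at h
    exact absurd h.1 (by decide)

open Classical in
/-- the arrow at the tile `none` is determined by the others -/
lemma sum_det {P : (Option ι × Dir → ℤˣ) → Prop} {M : (ι × Dir → ℤˣ) → Prop}
    (ha : a none = zt ^ (4 : ℤ)) (hb : b none = zt ^ (-4 : ℤ)) (φ : (ι × Dir → ℤˣ) → ℤˣ) (k0 : ℤ)
    (hP : ∀ o, P o → o (none, .N) = -1) (h : ∀ o w, P (ext o w) ↔ M o ∧ w = φ o)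
    (hk : ∀ o, M o → 4 * ((φ o : ℤˣ) : ℤ) + kk X x1 o (φ o) = k0) :
    (∑ o, if P o then X.wt a b o else 0) =
      zt ^ k0 * ∑ o, if M o then (el X x1).wt (fun i => a (some i)) (fun i => b (some i)) o else 0 := by
  rw [sum_ext (fun o => if P o then X.wt a b o else 0) ?_, mul_sum]
  · refine sum_congr rfl fun o _ => ?_
    by_cases hM : M o
    · rw [sum_eq_single (φ o)]
      · rw [if_pos ((h o _).2 ⟨hM, rfl⟩), if_pos hM, wt_ext (x1 := x1), ← hk o hM, zpow_add₀ zt_ne,
          ha, hb]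
        congr 2
        rcases Int.units_eq_one_or (φ o) with h1 | h1 <;> rw [h1] <;> simp [show (-1 : ℤˣ) ≠ 1 by decide]
      · intro w _ hne
        rw [if_neg (fun hh => hne ((h o w).1 hh).2)]
      · intro hh; exact absurd (mem_univ _) hh
    · rw [if_neg hM, mul_zero]
      refine sum_eq_zero fun w _ => ?_
      rw [if_neg (fun hh => hM ((h o w).1 hh).1)]
  · intro o ho
    by_cases hp : P o
    · simp only [if_pos hp] at ho
      exact str_of ha hb o (hP o hp) ho
    · simp only [if_neg hp] at ho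
      exact absurd rfl ho

open Classical in
/-- a loop through the tile `none`, any weights -/
lemma sum_loop {P : (Option ι × Dir → ℤˣ) → Prop} {M : (ι × Dir → ℤˣ) → Prop} (k1 k2 : ℤ)
    (hP : ∀ o, P o → X.wt a b o ≠ 0 →
      o (none, .N) = -1 ∧ o (none, .S) = 1 ∧ o (none, .E) = -o (none, .W))
    (h : ∀ o w, P (ext o w) ↔ M o)
    (hk : ∀ o, M o → kk X x1 o 1 = k1 ∧ kk X x1 o (-1) = k2) :
    (∑ o, if P o then X.wt a b o else 0) = (a none * zt ^ k1 + b none * zt ^ k2) *
      ∑ o, if M o then (el X x1).wt (fun i => a (some i)) (fun i => b (some i)) o else 0 := by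
  rw [sum_ext (fun o => if P o then X.wt a b o else 0) ?_, mul_sum]
  · refine sum_congr rfl fun o _ => ?_
    have hu : (univ : Finset ℤˣ) = {1, -1} := by decide
    rw [hu, sum_pair (by decide)]
    by_cases hM : M o
    · rw [if_pos ((h o _).2 hM), if_pos ((h o _).2 hM), if_pos hM, wt_ext (x1 := x1),
        wt_ext (x1 := x1), (hk o hM).1, (hk o hM).2, if_pos rfl, if_neg (by decide)]
      ring
    · rw [if_neg hM, if_neg (fun hh => hM ((h o _).1 hh)), if_neg (fun hh => hM ((h o _).1 hh))]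
      ring
  · intro o ho
    by_cases hp : P o
    · simp only [if_pos hp] at ho
      exact hP o hp ho
    · simp only [if_neg hp] at ho
      exact absurd rfl ho

end fin

end Pool.Agent.H56.W
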