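import Pool.Agent.H56.W.Elim2

set_option autoImplicit false
set_option linter.unusedSectionVars false
set_option linter.dupNamespace false
open Finset

/-! # Elimination of one tile of the string: the conditions on the arrows -/

namespace Pool.Agent.H56.W

open Pool.Agent.H81.G1

variable {ι : Type*} {X : Net (Option ι)} {x1 A B R : ι × Dir} {ρ : ℤˣ} {m : Bool}

lemma ee_iff {x y : ι × Dir} : ee x = ee y ↔ x = y := ⟨ee_inj, fun h => by rw [h]⟩

/-- the mark wire does not touch the tile `none` -/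
def MReg (X : Net (Option ι)) (x1 : ι × Dir) : Prop :=
  ee (el X x1).y0 = X.y0 ∧ ee ((el X x1).π (el X x1).y0) = X.π X.y0

lemma mreg {y y' : ι × Dir} (h1 : X.y0 = ee y) (h2 : X.π X.y0 = ee y') : MReg X x1 := by
  have e1 : (el X x1).y0 = y := by
    show (J X x1 2 X.y0).1 = y
    rw [h1, J_some]
  have e2 : (el X x1).π y = y' := (el_reg (by rw [← h1]; exact h2)).1
  exact ⟨by rw [e1, h1], by rw [e1, e2, h2]⟩

lemma ord_ee (hx0 : X.x0 = (none, .N)) (hm : m = true → MReg X x1) {x : ι × Dir} :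
    Ord X m (ee x) ↔ ee x ≠ X.π (none, .N) ∧
      (m = true → x ≠ (el X x1).y0 ∧ x ≠ (el X x1).π (el X x1).y0) := by
  unfold Ord
  rw [hx0]
  constructor
  · rintro ⟨-, h2, h3⟩
    refine ⟨h2, fun h => ?_⟩
    obtain ⟨g1, g2⟩ := h3 h
    obtain ⟨k1, k2⟩ := hm h
    exact ⟨fun hh => g1 (by rw [hh, k1]), fun hh => g2 (by rw [hh, k2])⟩
  · rintro ⟨h2, h3⟩
    refine ⟨ee_ne _ _, h2, fun h => ?_⟩
    obtain ⟨g1, g2⟩ := h3 h
    obtain ⟨k1, k2⟩ := hm h
    exact ⟨fun hh => g1 (ee_inj (hh.trans k1.symm)), fun hh => g2 (ee_inj (hh.trans k2.symm))⟩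

lemma ord_none (hx0 : X.x0 = (none, .N)) (hm : m = true → MReg X x1) {d : Dir} (hd : d ≠ .N)
    (h : X.π (none, .N) ≠ (none, d)) : Ord X m (none, d) := by
  unfold Ord
  rw [hx0]
  refine ⟨fun hh => hd (congrArg Prod.snd hh), fun hh => h hh.symm, fun hmm => ?_⟩
  obtain ⟨k1, k2⟩ := hm hmm
  exact ⟨fun hh => ee_ne _ _ (k1.trans hh.symm), fun hh => ee_ne _ _ (k2.trans hh.symm)⟩

section
variable (hw : Wi X) (hx0 : X.x0 = (none, .N))
include hw hx0

/-- type I, the mark away from the tile -/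
lemma cg_I (h : TyI X x1 A B R) (hm : m = true → MReg X x1) (o : ι × Dir → ℤˣ) (w : ℤˣ) :
    CG X ρ m (ext o w) ↔ CG (el X x1) ρ m o ∧ w = o B := by
  obtain ⟨⟨a1, a2⟩, ⟨b1, b2⟩, ⟨r1, r2⟩, ⟨s1, s2⟩⟩ := h.val hw
  obtain ⟨n1, n2, n3, n4, n5, n6⟩ := h.dist hw
  have hreg : ∀ x y, X.π (ee x) = ee y → (el X x1).π x = y := fun x y hh => (el_reg hh).1
  have oe : ∀ {x}, Ord X m (ee x) ↔ x ≠ R ∧
      (m = true → x ≠ (el X x1).y0 ∧ x ≠ (el X x1).π (el X x1).y0) := by
    intro x
    rw [ord_ee hx0 hm, h.N, Ne, ee_iff]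
  have on : ∀ d, d ≠ Dir.N → Ord X m (none, d) := fun d hd =>
    ord_none hx0 hm hd (by rw [h.N]; exact ee_ne _ _)
  -- the mark is not at the special ends
  have mk : ∀ {P : ι × Dir} {d : Dir}, X.π (ee P) = (none, d) → m = true →
      P ≠ (el X x1).y0 ∧ P ≠ (el X x1).π (el X x1).y0 := by
    intro P d hP hmm
    obtain ⟨k1, k2⟩ := hm hmm
    constructor
    · intro hh
      rw [hh, k1, ← k2] at hP
      exact ee_ne _ _ hP
    · intro hh
      rw [hh, k2, hw.inv, ← k1] at hP
      exact ee_ne _ _ hP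
  constructor
  · rintro ⟨c1, c2, c3, c4⟩
    have hB : w = o B := by
      have := c4 _ (on .E (by simp))
      rw [h.E, ext_ee] at this
      rw [this]
      show w = - -w
      simp
    have hA : o A = -w := by
      have := c4 _ (on .W (by simp))
      rwa [h.W, ext_ee] at this
    have hs : o x1 = -1 := by
      have := c4 _ (on .S (by simp))
      rwa [h.S, ext_ee] at this
    have hR : o R = ρ := by
      rw [hx0, h.N, ext_ee] at c2
      exact c2
    refine ⟨⟨hs, ?_, ?_, ?_⟩, hB⟩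
    · show o ((el X x1).π x1) = ρ
      rw [s1]; exact hR
    · intro hmm
      obtain ⟨k1, k2⟩ := hm hmm
      obtain ⟨g1, g2⟩ := c3 hmm
      rw [← k1, ext_ee] at g1
      rw [← k2, ext_ee] at g2
      exact ⟨g1, g2⟩
    · intro x hx
      obtain ⟨e1, e2, e3⟩ := hx
      have e2' : x ≠ R := by rw [← s1]; exact e2
      rcases h.ends hw x with rfl | rfl | rfl | rfl | ⟨y, hy⟩
      · rw [a1, hA, ← hB]; simp
      · rw [b1, hA, ← hB]
      · exact absurd rfl e2'
      · exact absurd rfl e1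
      · have := c4 _ (oe.2 ⟨e2', e3⟩)
        rw [hy, ext_ee, ext_ee] at this
        rw [hreg x y hy]; exact this
  · rintro ⟨⟨c1, c2, c3, c4⟩, hB⟩
    have c1' : o x1 = -1 := c1
    have hR : o R = ρ := by rw [← s1]; exact c2
    have hA : o A = -w := by
      have := c4 B ⟨n5, by show B ≠ (el X x1).π x1; rw [s1]; exact n4, mk (back hw h.E)⟩
      rw [b1] at this
      rw [this, hB]
    refine ⟨?_, ?_, ?_, ?_⟩
    · rw [hx0]; rfl
    · rw [hx0, h.N, ext_ee]; exact hR
    · intro hmm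
      obtain ⟨k1, k2⟩ := hm hmm
      obtain ⟨g1, g2⟩ := c3 hmm
      rw [← k2, ext_ee, ← k1, ext_ee]
      exact ⟨g1, g2⟩
    · intro z hz
      rcases end_cases z with ⟨x, rfl⟩ | ⟨d, rfl⟩
      · obtain ⟨e2, e3⟩ := oe.1 hz
        rcases h.ends hw x with rfl | rfl | rfl | rfl | ⟨y, hy⟩
        · rw [back hw h.W, ext_ee, hA]
          show w = - -w
          simp
        · rw [back hw h.E, ext_ee, ← hB]; rfl
        · exact absurd rfl e2
        · rw [back hw h.S, ext_ee, c1']; rfl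
        · rw [hy, ext_ee, ext_ee, ← hreg x y hy]
          have x1n : x ≠ x1 := by
            rintro rfl
            rw [back hw h.S] at hy
            exact ee_ne _ _ hy.symm
          exact c4 x ⟨x1n, by show x ≠ (el X x1).π x1; rw [s1]; exact e2, e3⟩
      · cases d
        · rw [h.W, ext_ee, hA]; rfl
        · exact absurd hx0.symm hz.1
        · rw [h.E, ext_ee, ← hB]
          show w = - -w
          simp
        · rw [h.S, ext_ee, c1']; rfl

/-- loop, the mark away from the tile -/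
lemma cg_L (h : TyL X x1 R) (hm : m = true → MReg X x1) (o : ι × Dir → ℤˣ) (w : ℤˣ) :
    CG X ρ m (ext o w) ↔ CG (el X x1) ρ m o := by
  obtain ⟨⟨r1, r2⟩, ⟨s1, s2⟩⟩ := h.val hw
  have n6 := ne_of_pi hw h.N h.S (by simp)
  have hreg : ∀ x y, X.π (ee x) = ee y → (el X x1).π x = y := fun x y hh => (el_reg hh).1
  have oe : ∀ {x}, Ord X m (ee x) ↔ x ≠ R ∧
      (m = true → x ≠ (el X x1).y0 ∧ x ≠ (el X x1).π (el X x1).y0) := by
    intro x
    rw [ord_ee hx0 hm, h.N, Ne, ee_iff]
  have on : ∀ d, d ≠ Dir.N → Ord X m (none, d) := fun d hd =>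
    ord_none hx0 hm hd (by rw [h.N]; exact ee_ne _ _)
  constructor
  · rintro ⟨c1, c2, c3, c4⟩
    have hs : o x1 = -1 := by
      have := c4 _ (on .S (by simp))
      rwa [h.S, ext_ee] at this
    have hR : o R = ρ := by
      rw [hx0, h.N, ext_ee] at c2
      exact c2
    refine ⟨hs, ?_, ?_, ?_⟩
    · show o ((el X x1).π x1) = ρ
      rw [s1]; exact hR
    · intro hmm
      obtain ⟨k1, k2⟩ := hm hmm
      obtain ⟨g1, g2⟩ := c3 hmm
      rw [← k1, ext_ee] at g1
      rw [← k2, ext_ee] at g2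
      exact ⟨g1, g2⟩
    · intro x hx
      obtain ⟨e1, e2, e3⟩ := hx
      have e2' : x ≠ R := by rw [← s1]; exact e2
      rcases h.ends hw x with rfl | rfl | ⟨y, hy⟩
      · exact absurd rfl e2'
      · exact absurd rfl e1
      · have := c4 _ (oe.2 ⟨e2', e3⟩)
        rw [hy, ext_ee, ext_ee] at this
        rw [hreg x y hy]; exact this
  · rintro ⟨c1, c2, c3, c4⟩
    have c1' : o x1 = -1 := c1
    have hR : o R = ρ := by rw [← s1]; exact c2
    refine ⟨?_, ?_, ?_, ?_⟩
    · rw [hx0]; rfl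
    · rw [hx0, h.N, ext_ee]; exact hR
    · intro hmm
      obtain ⟨k1, k2⟩ := hm hmm
      obtain ⟨g1, g2⟩ := c3 hmm
      rw [← k2, ext_ee, ← k1, ext_ee]
      exact ⟨g1, g2⟩
    · intro z hz
      rcases end_cases z with ⟨x, rfl⟩ | ⟨d, rfl⟩
      · obtain ⟨e2, e3⟩ := oe.1 hz
        rcases h.ends hw x with rfl | rfl | ⟨y, hy⟩
        · exact absurd rfl e2
        · rw [back hw h.S, ext_ee, c1']; rfl
        · rw [hy, ext_ee, ext_ee, ← hreg x y hy]
          have x1n : x ≠ x1 := by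
            rintro rfl
            rw [back hw h.S] at hy
            exact ee_ne _ _ hy.symm
          exact c4 x ⟨x1n, by show x ≠ (el X x1).π x1; rw [s1]; exact e2, e3⟩
      · cases d
        · rw [h.W]; rfl
        · exact absurd hx0.symm hz.1
        · rw [back hw h.W]
          show w = - -w
          simp
        · rw [h.S, ext_ee, c1']; rfl

/-- the root wire is `N–W`, the mark away from the tile -/
lemma cg_W (h : TyW X x1 B) (hm : m = true → MReg X x1) (o : ι × Dir → ℤˣ) (w : ℤˣ) :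
    CG X ρ m (ext o w) ↔ CG (el X x1) ρ m o ∧ w = ρ := by
  obtain ⟨⟨r1, r2⟩, ⟨s1, s2⟩⟩ := h.val hw
  have n6 := ne_of_pi hw h.E h.S (by simp)
  have hreg : ∀ x y, X.π (ee x) = ee y → (el X x1).π x = y := fun x y hh => (el_reg hh).1
  have oe : ∀ {x}, Ord X m (ee x) ↔
      (m = true → x ≠ (el X x1).y0 ∧ x ≠ (el X x1).π (el X x1).y0) := by
    intro x
    rw [ord_ee hx0 hm, h.N]
    exact ⟨fun hh => hh.2, fun hh => ⟨ee_ne _ _, hh⟩⟩
  have on : ∀ d, d ≠ Dir.N → d ≠ Dir.W → Ord X m (none, d) := fun d hd hd' =>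
    ord_none hx0 hm hd (by rw [h.N]; intro hh; exact hd' (congrArg Prod.snd hh).symm)
  have hWN := back hw h.N
  have mk : ∀ {P : ι × Dir} {d : Dir}, X.π (ee P) = (none, d) → m = true →
      P ≠ (el X x1).y0 ∧ P ≠ (el X x1).π (el X x1).y0 := by
    intro P d hP hmm
    obtain ⟨k1, k2⟩ := hm hmm
    constructor
    · intro hh
      rw [hh, k1, ← k2] at hP
      exact ee_ne _ _ hP
    · intro hh
      rw [hh, k2, hw.inv, ← k1] at hP
      exact ee_ne _ _ hP
  constructor
  · rintro ⟨c1, c2, c3, c4⟩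
    have hwr : w = ρ := by rw [hx0, h.N] at c2; exact c2
    have hB : o B = w := by
      have := c4 _ (on .E (by simp) (by simp))
      rw [h.E, ext_ee] at this
      rw [this]
      show - -w = w
      simp
    have hs : o x1 = -1 := by
      have := c4 _ (on .S (by simp) (by simp))
      rwa [h.S, ext_ee] at this
    refine ⟨⟨hs, ?_, ?_, ?_⟩, hwr⟩
    · show o ((el X x1).π x1) = ρ
      rw [s1, hB, hwr]
    · intro hmm
      obtain ⟨k1, k2⟩ := hm hmm
      obtain ⟨g1, g2⟩ := c3 hmm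
      rw [← k1, ext_ee] at g1
      rw [← k2, ext_ee] at g2
      exact ⟨g1, g2⟩
    · intro x hx
      obtain ⟨e1, e2, e3⟩ := hx
      have e2' : x ≠ B := by rw [← s1]; exact e2
      rcases h.ends hw x with rfl | rfl | ⟨y, hy⟩
      · exact absurd rfl e2'
      · exact absurd rfl e1
      · have := c4 _ (oe.2 e3)
        rw [hy, ext_ee, ext_ee] at this
        rw [hreg x y hy]; exact this
  · rintro ⟨⟨c1, c2, c3, c4⟩, hwr⟩
    have c1' : o x1 = -1 := c1
    have hB : o B = w := by rw [hwr, ← s1]; exact c2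
    refine ⟨?_, ?_, ?_, ?_⟩
    · rw [hx0]; rfl
    · rw [hx0, h.N, ← hwr]; rfl
    · intro hmm
      obtain ⟨k1, k2⟩ := hm hmm
      obtain ⟨g1, g2⟩ := c3 hmm
      rw [← k2, ext_ee, ← k1, ext_ee]
      exact ⟨g1, g2⟩
    · intro z hz
      rcases end_cases z with ⟨x, rfl⟩ | ⟨d, rfl⟩
      · have e3 := oe.1 hz
        rcases h.ends hw x with rfl | rfl | ⟨y, hy⟩
        · rw [back hw h.E, ext_ee, hB]; rfl
        · rw [back hw h.S, ext_ee, c1']; rfl
        · rw [hy, ext_ee, ext_ee, ← hreg x y hy]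
          have x1n : x ≠ x1 := by
            rintro rfl
            rw [back hw h.S] at hy
            exact ee_ne _ _ hy.symm
          have xBn : x ≠ B := by
            rintro rfl
            rw [back hw h.E] at hy
            exact ee_ne _ _ hy.symm
          exact c4 x ⟨x1n, by show x ≠ (el X x1).π x1; rw [s1]; exact xBn, e3⟩
      · cases d
        · exact absurd (by rw [hx0, h.N]) hz.2.1
        · exact absurd hx0.symm hz.1
        · rw [h.E, ext_ee, hB]
          show w = - -w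
          simp
        · rw [h.S, ext_ee, c1']; rfl

/-- the root wire is `N–E`, the mark away from the tile -/
lemma cg_E (h : TyE X x1 A) (hm : m = true → MReg X x1) (o : ι × Dir → ℤˣ) (w : ℤˣ) :
    CG X ρ m (ext o w) ↔ CG (el X x1) ρ m o ∧ w = -ρ := by
  obtain ⟨⟨r1, r2⟩, ⟨s1, s2⟩⟩ := h.val hw
  have n6 := ne_of_pi hw h.W h.S (by simp)
  have hreg : ∀ x y, X.π (ee x) = ee y → (el X x1).π x = y := fun x y hh => (el_reg hh).1
  have oe : ∀ {x}, Ord X m (ee x) ↔
      (m = true → x ≠ (el X x1).y0 ∧ x ≠ (el X x1).π (el X x1).y0) := by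
    intro x
    rw [ord_ee hx0 hm, h.N]
    exact ⟨fun hh => hh.2, fun hh => ⟨ee_ne _ _, hh⟩⟩
  have on : ∀ d, d ≠ Dir.N → d ≠ Dir.E → Ord X m (none, d) := fun d hd hd' =>
    ord_none hx0 hm hd (by rw [h.N]; intro hh; exact hd' (congrArg Prod.snd hh).symm)
  constructor
  · rintro ⟨c1, c2, c3, c4⟩
    have hwr : w = -ρ := by
      rw [hx0, h.N] at c2
      have c2' : -w = ρ := c2
      rw [← c2']; simp
    have hA : o A = -w := by
      have := c4 _ (on .W (by simp) (by simp))
      rwa [h.W, ext_ee] at this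
    have hs : o x1 = -1 := by
      have := c4 _ (on .S (by simp) (by simp))
      rwa [h.S, ext_ee] at this
    refine ⟨⟨hs, ?_, ?_, ?_⟩, hwr⟩
    · show o ((el X x1).π x1) = ρ
      rw [s1, hA, hwr]; simp
    · intro hmm
      obtain ⟨k1, k2⟩ := hm hmm
      obtain ⟨g1, g2⟩ := c3 hmm
      rw [← k1, ext_ee] at g1
      rw [← k2, ext_ee] at g2
      exact ⟨g1, g2⟩
    · intro x hx
      obtain ⟨e1, e2, e3⟩ := hx
      have e2' : x ≠ A := by rw [← s1]; exact e2
      rcases h.ends hw x with rfl | rfl | ⟨y, hy⟩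
      · exact absurd rfl e2'
      · exact absurd rfl e1
      · have := c4 _ (oe.2 e3)
        rw [hy, ext_ee, ext_ee] at this
        rw [hreg x y hy]; exact this
  · rintro ⟨⟨c1, c2, c3, c4⟩, hwr⟩
    have c1' : o x1 = -1 := c1
    have hA : o A = -w := by
      rw [hwr]
      have : o ((el X x1).π x1) = ρ := c2
      rw [s1] at this
      rw [this]; simp
    refine ⟨?_, ?_, ?_, ?_⟩
    · rw [hx0]; rfl
    · rw [hx0, h.N]
      show -w = ρ
      rw [hwr]; simp
    · intro hmm
      obtain ⟨k1, k2⟩ := hm hmm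
      obtain ⟨g1, g2⟩ := c3 hmm
      rw [← k2, ext_ee, ← k1, ext_ee]
      exact ⟨g1, g2⟩
    · intro z hz
      rcases end_cases z with ⟨x, rfl⟩ | ⟨d, rfl⟩
      · have e3 := oe.1 hz
        rcases h.ends hw x with rfl | rfl | ⟨y, hy⟩
        · rw [back hw h.W, ext_ee, hA]
          show w = - -w
          simp
        · rw [back hw h.S, ext_ee, c1']; rfl
        · rw [hy, ext_ee, ext_ee, ← hreg x y hy]
          have x1n : x ≠ x1 := by
            rintro rfl
            rw [back hw h.S] at hy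
            exact ee_ne _ _ hy.symm
          have xBn : x ≠ A := by
            rintro rfl
            rw [back hw h.W] at hy
            exact ee_ne _ _ hy.symm
          exact c4 x ⟨x1n, by show x ≠ (el X x1).π x1; rw [s1]; exact xBn, e3⟩
      · cases d
        · rw [h.W, ext_ee, hA]; rfl
        · exact absurd hx0.symm hz.1
        · exact absurd (by rw [hx0, h.N]) hz.2.1
        · rw [h.S, ext_ee, c1']; rfl

end

end Pool.Agent.H56.W
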