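import Pool.Agent.H56.W.Elim3

set_option autoImplicit false
set_option linter.unusedSectionVars false
set_option linter.dupNamespace false
open Finset

/-! # Elimination of one tile of the string: the mark at the tile, exponents -/

namespace Pool.Agent.H56.W

open Pool.Agent.H81.G1

/-- the conditions `CG` with the mark wire `{P, Q}` -/
def CGm {κ : Type*} (X : Net κ) (ρ : ℤˣ) (P Q : κ × Dir) (o : κ × Dir → ℤˣ) : Prop :=
  o X.x0 = -1 ∧ o (X.π X.x0) = ρ ∧ (o P = 1 ∧ o Q = 1) ∧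
    ∀ z, z ≠ X.x0 → z ≠ X.π X.x0 → z ≠ P → z ≠ Q → o (X.π z) = -o z

lemma cg_cgm {κ : Type*} {X : Net κ} {ρ : ℤˣ} {P Q : κ × Dir} {o : κ × Dir → ℤˣ}
    (h : (X.y0 = P ∧ X.π X.y0 = Q) ∨ (X.y0 = Q ∧ X.π X.y0 = P)) :
    CG X ρ true o ↔ CGm X ρ P Q o := by
  unfold CG CGm Ord
  rcases h with ⟨h1, h2⟩ | ⟨h1, h2⟩
  · rw [h2, h1]
    constructor
    · rintro ⟨c1, c2, c3, c4⟩
      exact ⟨c1, c2, c3 rfl, fun z a1 a2 a3 a4 => c4 z ⟨a1, a2, fun _ => ⟨a3, a4⟩⟩⟩
    · rintro ⟨c1, c2, c3, c4⟩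
      exact ⟨c1, c2, fun _ => c3, fun z hz => c4 z hz.1 hz.2.1 (hz.2.2 rfl).1 (hz.2.2 rfl).2⟩
  · rw [h2, h1]
    constructor
    · rintro ⟨c1, c2, c3, c4⟩
      exact ⟨c1, c2, (c3 rfl).symm, fun z a1 a2 a3 a4 => c4 z ⟨a1, a2, fun _ => ⟨a4, a3⟩⟩⟩
    · rintro ⟨c1, c2, c3, c4⟩
      exact ⟨c1, c2, fun _ => c3.symm, fun z hz => c4 z hz.1 hz.2.1 (hz.2.2 rfl).2 (hz.2.2 rfl).1⟩

variable {ι : Type*} {X : Net (Option ι)} {x1 A B R : ι × Dir} {ρ : ℤˣ} {m : Bool}

section
variable (hw : Wi X) (hx0 : X.x0 = (none, .N))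
include hw hx0

lemma cgm_IW (h : TyI X x1 A B R) (o : ι × Dir → ℤˣ) (w : ℤˣ) :
    CGm X ρ (none, .W) (ee A) (ext o w) ↔ CGm (el X x1) ρ A B o ∧ w = 1 := by
  obtain ⟨⟨a1, a2⟩, ⟨b1, b2⟩, ⟨r1, r2⟩, ⟨s1, s2⟩⟩ := h.val hw
  obtain ⟨n1, n2, n3, n4, n5, n6⟩ := h.dist hw
  have hreg : ∀ x y, X.π (ee x) = ee y → (el X x1).π x = y := fun x y hh => (el_reg hh).1
  constructor
  · rintro ⟨c1, c2, ⟨c3, c3'⟩, c4⟩
    rw [hx0, h.N] at c2 c4
    have hw1 : w = 1 := c3
    have hA : o A = 1 := c3'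
    have hB : o B = w := by
      have := c4 (none, .E) (by simp) (ee_ne _ _).symm (by simp) (ee_ne _ _).symm
      rw [h.E, ext_ee] at this
      rw [this]
      show - -w = w
      simp
    have hs : o x1 = -1 := by
      have := c4 (none, .S) (by simp) (ee_ne _ _).symm (by simp) (ee_ne _ _).symm
      rwa [h.S, ext_ee] at this
    refine ⟨⟨hs, ?_, ⟨hA, by rw [hB, hw1]⟩, ?_⟩, hw1⟩
    · show o ((el X x1).π x1) = ρ
      rw [s1]; exact c2
    · intro x e1 e2 e3 e4
      have e2' : x ≠ R := by rw [← s1]; exact e2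
      rcases h.ends hw x with rfl | rfl | rfl | rfl | ⟨y, hy⟩
      · exact absurd rfl e3
      · exact absurd rfl e4
      · exact absurd rfl e2'
      · exact absurd rfl e1
      · have := c4 (ee x) (ee_ne _ _) (fun hh => e2' (ee_inj hh)) (ee_ne _ _)
          (fun hh => e3 (ee_inj hh))
        rw [hy, ext_ee, ext_ee] at this
        rw [hreg x y hy]; exact this
  · rintro ⟨⟨c1, c2, ⟨c3, c3'⟩, c4⟩, hw1⟩
    have c1' : o x1 = -1 := c1
    have hR : o R = ρ := by rw [← s1]; exact c2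
    refine ⟨?_, ?_, ⟨hw1, c3⟩, ?_⟩
    · rw [hx0]; rfl
    · rw [hx0, h.N, ext_ee]; exact hR
    · rw [hx0, h.N]
      intro z z1 z2 z3 z4
      rcases end_cases z with ⟨x, rfl⟩ | ⟨d, rfl⟩
      · rcases h.ends hw x with rfl | rfl | rfl | rfl | ⟨y, hy⟩
        · exact absurd rfl z4
        · rw [back hw h.E, ext_ee, c3', ← hw1]; rfl
        · exact absurd rfl z2
        · rw [back hw h.S, ext_ee, c1']; rfl
        · rw [hy, ext_ee, ext_ee, ← hreg x y hy]
          have nn : ∀ {P : ι × Dir} {d : Dir}, X.π (ee P) = (none, d) → x ≠ P := by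
            rintro P d hP rfl
            rw [hP] at hy
            exact ee_ne _ _ hy.symm
          exact c4 x (nn (back hw h.S)) (by
            show x ≠ (el X x1).π x1
            rw [s1]; exact nn (back hw h.N)) (nn (back hw h.W)) (nn (back hw h.E))
      · cases d
        · exact absurd rfl z3
        · exact absurd rfl z1
        · rw [h.E, ext_ee, c3', ← hw1]
          show w = - -w
          simp
        · rw [h.S, ext_ee, c1']; rfl

lemma cgm_IE (h : TyI X x1 A B R) (o : ι × Dir → ℤˣ) (w : ℤˣ) :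
    CGm X ρ (none, .E) (ee B) (ext o w) ↔ CGm (el X x1) ρ A B o ∧ w = -1 := by
  obtain ⟨⟨a1, a2⟩, ⟨b1, b2⟩, ⟨r1, r2⟩, ⟨s1, s2⟩⟩ := h.val hw
  obtain ⟨n1, n2, n3, n4, n5, n6⟩ := h.dist hw
  have hreg : ∀ x y, X.π (ee x) = ee y → (el X x1).π x = y := fun x y hh => (el_reg hh).1
  constructor
  · rintro ⟨c1, c2, ⟨c3, c3'⟩, c4⟩
    rw [hx0, h.N] at c2 c4
    have hw1 : w = -1 := by
      have c3'' : -w = 1 := c3
      rw [← c3'']; simp
    have hB : o B = 1 := c3'
    have hA : o A = -w := by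
      have := c4 (none, .W) (by simp) (ee_ne _ _).symm (by simp) (ee_ne _ _).symm
      rwa [h.W, ext_ee] at this
    have hs : o x1 = -1 := by
      have := c4 (none, .S) (by simp) (ee_ne _ _).symm (by simp) (ee_ne _ _).symm
      rwa [h.S, ext_ee] at this
    refine ⟨⟨hs, ?_, ⟨by rw [hA, hw1]; simp, hB⟩, ?_⟩, hw1⟩
    · show o ((el X x1).π x1) = ρ
      rw [s1]; exact c2
    · intro x e1 e2 e3 e4
      have e2' : x ≠ R := by rw [← s1]; exact e2
      rcases h.ends hw x with rfl | rfl | rfl | rfl | ⟨y, hy⟩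
      · exact absurd rfl e3
      · exact absurd rfl e4
      · exact absurd rfl e2'
      · exact absurd rfl e1
      · have := c4 (ee x) (ee_ne _ _) (fun hh => e2' (ee_inj hh)) (ee_ne _ _)
          (fun hh => e4 (ee_inj hh))
        rw [hy, ext_ee, ext_ee] at this
        rw [hreg x y hy]; exact this
  · rintro ⟨⟨c1, c2, ⟨c3, c3'⟩, c4⟩, hw1⟩
    have c1' : o x1 = -1 := c1
    have hR : o R = ρ := by rw [← s1]; exact c2
    refine ⟨?_, ?_, ⟨?_, c3'⟩, ?_⟩
    · rw [hx0]; rfl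
    · rw [hx0, h.N, ext_ee]; exact hR
    · show -w = 1
      rw [hw1]; simp
    · rw [hx0, h.N]
      intro z z1 z2 z3 z4
      rcases end_cases z with ⟨x, rfl⟩ | ⟨d, rfl⟩
      · rcases h.ends hw x with rfl | rfl | rfl | rfl | ⟨y, hy⟩
        · rw [back hw h.W, ext_ee, c3]
          show w = -1
          exact hw1
        · exact absurd rfl z4
        · exact absurd rfl z2
        · rw [back hw h.S, ext_ee, c1']; rfl
        · rw [hy, ext_ee, ext_ee, ← hreg x y hy]
          have nn : ∀ {P : ι × Dir} {d : Dir}, X.π (ee P) = (none, d) → x ≠ P := by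
            rintro P d hP rfl
            rw [hP] at hy
            exact ee_ne _ _ hy.symm
          exact c4 x (nn (back hw h.S)) (by
            show x ≠ (el X x1).π x1
            rw [s1]; exact nn (back hw h.N)) (nn (back hw h.W)) (nn (back hw h.E))
      · cases d
        · rw [h.W, ext_ee, c3]
          show 1 = -w
          rw [hw1]; simp
        · exact absurd rfl z1
        · exact absurd rfl z3
        · rw [h.S, ext_ee, c1']; rfl

omit hw hx0 in
lemma cgm_L (o : ι × Dir → ℤˣ) (w : ℤˣ) : ¬ CGm X ρ (none, .W) (none, .E) (ext o w) := by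
  rintro ⟨-, -, ⟨c1, c2⟩, -⟩
  have h1 : w = 1 := c1
  have h2 : -w = 1 := c2
  rw [h1] at h2
  exact absurd h2 (by decide)

lemma cgm_W (h : TyW X x1 B) (o : ι × Dir → ℤˣ) (w : ℤˣ) :
    CGm X (-1) (none, .E) (ee B) (ext o w) ↔ CG (el X x1) 1 false o ∧ w = -1 := by
  obtain ⟨⟨r1, r2⟩, ⟨s1, s2⟩⟩ := h.val hw
  have hreg : ∀ x y, X.π (ee x) = ee y → (el X x1).π x = y := fun x y hh => (el_reg hh).1
  constructor
  · rintro ⟨c1, c2, ⟨c3, c3'⟩, c4⟩
    rw [hx0, h.N] at c2 c4
    have hw1 : w = -1 := c2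
    have hB : o B = 1 := c3'
    have hs : o x1 = -1 := by
      have := c4 (none, .S) (by simp) (by simp) (by simp) (ee_ne _ _).symm
      rwa [h.S, ext_ee] at this
    refine ⟨⟨hs, ?_, fun hh => absurd hh (by simp), ?_⟩, hw1⟩
    · show o ((el X x1).π x1) = 1
      rw [s1]; exact hB
    · rintro x ⟨e1, e2, -⟩
      have e2' : x ≠ B := by rw [← s1]; exact e2
      rcases h.ends hw x with rfl | rfl | ⟨y, hy⟩
      · exact absurd rfl e2'
      · exact absurd rfl e1
      · have := c4 (ee x) (ee_ne _ _) (ee_ne _ _) (ee_ne _ _) (fun hh => e2' (ee_inj hh))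
        rw [hy, ext_ee, ext_ee] at this
        rw [hreg x y hy]; exact this
  · rintro ⟨⟨c1, c2, -, c4⟩, hw1⟩
    have c1' : o x1 = -1 := c1
    have hB : o B = 1 := by rw [← s1]; exact c2
    refine ⟨?_, ?_, ⟨?_, hB⟩, ?_⟩
    · rw [hx0]; rfl
    · rw [hx0, h.N]; exact hw1
    · show -w = 1
      rw [hw1]; simp
    · rw [hx0, h.N]
      intro z z1 z2 z3 z4
      rcases end_cases z with ⟨x, rfl⟩ | ⟨d, rfl⟩
      · rcases h.ends hw x with rfl | rfl | ⟨y, hy⟩
        · exact absurd rfl z4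
        · rw [back hw h.S, ext_ee, c1']; rfl
        · rw [hy, ext_ee, ext_ee, ← hreg x y hy]
          have nn : ∀ {P : ι × Dir} {d : Dir}, X.π (ee P) = (none, d) → x ≠ P := by
            rintro P d hP rfl
            rw [hP] at hy
            exact ee_ne _ _ hy.symm
          exact c4 x ⟨nn (back hw h.S), by
            show x ≠ (el X x1).π x1
            rw [s1]; exact nn (back hw h.E), fun hh => absurd hh (by simp)⟩
      · cases d
        · exact absurd rfl z2
        · exact absurd rfl z1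
        · exact absurd rfl z3
        · rw [h.S, ext_ee, c1']; rfl

lemma cgm_E (h : TyE X x1 A) (o : ι × Dir → ℤˣ) (w : ℤˣ) :
    CGm X (-1) (none, .W) (ee A) (ext o w) ↔ CG (el X x1) 1 false o ∧ w = 1 := by
  obtain ⟨⟨r1, r2⟩, ⟨s1, s2⟩⟩ := h.val hw
  have hreg : ∀ x y, X.π (ee x) = ee y → (el X x1).π x = y := fun x y hh => (el_reg hh).1
  constructor
  · rintro ⟨c1, c2, ⟨c3, c3'⟩, c4⟩
    rw [hx0, h.N] at c2 c4
    have hw1 : w = 1 := c3
    have hB : o A = 1 := c3'
    have hs : o x1 = -1 := by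
      have := c4 (none, .S) (by simp) (by simp) (by simp) (ee_ne _ _).symm
      rwa [h.S, ext_ee] at this
    refine ⟨⟨hs, ?_, fun hh => absurd hh (by simp), ?_⟩, hw1⟩
    · show o ((el X x1).π x1) = 1
      rw [s1]; exact hB
    · rintro x ⟨e1, e2, -⟩
      have e2' : x ≠ A := by rw [← s1]; exact e2
      rcases h.ends hw x with rfl | rfl | ⟨y, hy⟩
      · exact absurd rfl e2'
      · exact absurd rfl e1
      · have := c4 (ee x) (ee_ne _ _) (ee_ne _ _) (ee_ne _ _) (fun hh => e2' (ee_inj hh))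
        rw [hy, ext_ee, ext_ee] at this
        rw [hreg x y hy]; exact this
  · rintro ⟨⟨c1, c2, -, c4⟩, hw1⟩
    have c1' : o x1 = -1 := c1
    have hB : o A = 1 := by rw [← s1]; exact c2
    refine ⟨?_, ?_, ⟨hw1, hB⟩, ?_⟩
    · rw [hx0]; rfl
    · rw [hx0, h.N]
      show -w = -1
      rw [hw1]
    · rw [hx0, h.N]
      intro z z1 z2 z3 z4
      rcases end_cases z with ⟨x, rfl⟩ | ⟨d, rfl⟩
      · rcases h.ends hw x with rfl | rfl | ⟨y, hy⟩
        · exact absurd rfl z4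
        · rw [back hw h.S, ext_ee, c1']; rfl
        · rw [hy, ext_ee, ext_ee, ← hreg x y hy]
          have nn : ∀ {P : ι × Dir} {d : Dir}, X.π (ee P) = (none, d) → x ≠ P := by
            rintro P d hP rfl
            rw [hP] at hy
            exact ee_ne _ _ hy.symm
          exact c4 x ⟨nn (back hw h.S), by
            show x ≠ (el X x1).π x1
            rw [s1]; exact nn (back hw h.W), fun hh => absurd hh (by simp)⟩
      · cases d
        · exact absurd rfl z3
        · exact absurd rfl z1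
        · exact absurd rfl z2
        · rw [h.S, ext_ee, c1']; rfl

end

/-! ### The exponents -/

section
variable [Fintype ι] [DecidableEq ι] (hw : Wi X)
include hw

lemma sum_dl (S : Finset (ι × Dir)) (h : ∀ x, x ∉ S → dl X x1 x = 0) (o : ι × Dir → ℤˣ) :
    ∑ x, (if o x = 1 then dl X x1 x else 0) = ∑ x ∈ S, (if o x = 1 then dl X x1 x else 0) :=
  (Finset.sum_subset (subset_univ S) (fun x _ hx => by rw [h x hx]; simp)).symm

lemma sum_I (h : TyI X x1 A B R) (o : ι × Dir → ℤˣ) (hs : o x1 = -1) :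
    ∑ x, (if o x = 1 then dl X x1 x else 0) =
      (if o A = 1 then 4 + X.t (none, .E) else 0) + (if o B = 1 then -4 + X.t (none, .W) else 0) +
        (if o R = 1 then X.t (none, .S) else 0) := by
  obtain ⟨⟨a1, a2⟩, ⟨b1, b2⟩, ⟨r1, r2⟩, ⟨s1, s2⟩⟩ := h.val hw
  obtain ⟨n1, n2, n3, n4, n5, n6⟩ := h.dist hw
  rw [sum_dl hw {A, B, R, x1}]
  · rw [sum_insert (by simp [n1, n2, n3]), sum_insert (by simp [n4, n5]), sum_insert (by simp [n6]),
      sum_singleton, a2, b2, r2, hs, if_neg (by decide : ¬ (-1 : ℤˣ) = 1)]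
    simp only [zero_add, add_zero]
    ring
  · intro x hx
    simp only [mem_insert, mem_singleton, not_or] at hx
    rcases h.ends hw x with h1 | h1 | h1 | h1 | ⟨y, hy⟩
    · exact absurd h1 hx.1
    · exact absurd h1 hx.2.1
    · exact absurd h1 hx.2.2.1
    · exact absurd h1 hx.2.2.2
    · exact (el_reg hy).2

lemma sum_L (h : TyL X x1 R) (o : ι × Dir → ℤˣ) (hs : o x1 = -1) :
    ∑ x, (if o x = 1 then dl X x1 x else 0) = (if o R = 1 then X.t (none, .S) else 0) := by
  obtain ⟨⟨r1, r2⟩, ⟨s1, s2⟩⟩ := h.val hw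
  have n6 := ne_of_pi hw h.N h.S (by simp)
  rw [sum_dl hw {R, x1}]
  · rw [sum_insert (by simp [n6]), sum_singleton, r2, hs, if_neg (by decide : ¬ (-1 : ℤˣ) = 1)]
    simp only [zero_add, add_zero]
  · intro x hx
    simp only [mem_insert, mem_singleton, not_or] at hx
    rcases h.ends hw x with h1 | h1 | ⟨y, hy⟩
    · exact absurd h1 hx.1
    · exact absurd h1 hx.2
    · exact (el_reg hy).2

lemma sum_W (h : TyW X x1 B) (o : ι × Dir → ℤˣ) (hs : o x1 = -1) :
    ∑ x, (if o x = 1 then dl X x1 x else 0) =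
      (if o B = 1 then -4 + X.t (none, .W) + X.t (none, .S) else 0) := by
  obtain ⟨⟨r1, r2⟩, ⟨s1, s2⟩⟩ := h.val hw
  have n6 := ne_of_pi hw h.E h.S (by simp)
  rw [sum_dl hw {B, x1}]
  · rw [sum_insert (by simp [n6]), sum_singleton, r2, hs, if_neg (by decide : ¬ (-1 : ℤˣ) = 1)]
    simp only [zero_add, add_zero]
  · intro x hx
    simp only [mem_insert, mem_singleton, not_or] at hx
    rcases h.ends hw x with h1 | h1 | ⟨y, hy⟩
    · exact absurd h1 hx.1
    · exact absurd h1 hx.2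
    · exact (el_reg hy).2

lemma sum_E (h : TyE X x1 A) (o : ι × Dir → ℤˣ) (hs : o x1 = -1) :
    ∑ x, (if o x = 1 then dl X x1 x else 0) =
      (if o A = 1 then 4 + X.t (none, .E) + X.t (none, .S) else 0) := by
  obtain ⟨⟨r1, r2⟩, ⟨s1, s2⟩⟩ := h.val hw
  have n6 := ne_of_pi hw h.W h.S (by simp)
  rw [sum_dl hw {A, x1}]
  · rw [sum_insert (by simp [n6]), sum_singleton, r2, hs, if_neg (by decide : ¬ (-1 : ℤˣ) = 1)]
    simp only [zero_add, add_zero]
  · intro x hx
    simp only [mem_insert, mem_singleton, not_or] at hx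
    rcases h.ends hw x with h1 | h1 | ⟨y, hy⟩
    · exact absurd h1 hx.1
    · exact absurd h1 hx.2
    · exact (el_reg hy).2

end

end Pool.Agent.H56.W
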