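import Pool.Agent.H56.W.Elim4

set_option autoImplicit false
set_option linter.unusedSectionVars false
set_option linter.dupNamespace false
open Finset

/-! # Elimination of one tile of the string: the step -/

namespace Pool.Agent.H56.W

open Pool.Agent.H81.G1

variable {ι : Type*} [Fintype ι] [DecidableEq ι] {X : Net (Option ι)} {x1 A B R : ι × Dir} {ρ : ℤˣ}
  {m : Bool} {a b : Option ι → ℂ}

/-- restricted weights -/
def rs (a : Option ι → ℂ) (i : ι) : ℂ := a (some i)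

/-- the over-tile -/
def Ov (a b : Option ι → ℂ) : Prop := a none = zt ^ (4 : ℤ) ∧ b none = zt ^ (-4 : ℤ)

/-- weights on the new tile -/
def wn (α : ℂ) (a : ι → ℂ) : Option ι → ℂ
  | none => α
  | some i => a i

omit [Fintype ι] [DecidableEq ι] in
lemma rs_wn (α : ℂ) (a : ι → ℂ) : rs (wn α a) = a := rfl

lemma zt_n (k : ℤ) : ‖zt ^ k‖ = 1 := by rw [norm_zpow, zt_norm, one_zpow]

lemma zt_ov : zt ^ (4 : ℤ) + zt ^ (-4 : ℤ) = 1 := by
  have := zt_pm (-4) (Or.inr rfl)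
  simpa using this

section
variable (hw : Wi X) (hx0 : X.x0 = (none, .N))
include hw hx0

lemma cg_N {o : Option ι × Dir → ℤˣ} (h : CG X ρ m o) : o (none, .N) = -1 := by
  have := h.1
  rwa [hx0] at this

lemma VG_I (h : TyI X x1 A B R) (hm : m = true → MReg X x1) (hab : Ov a b) :
    VG X ρ m a b = zt ^ (-X.t (none, .S) + if ρ = 1 then X.t (none, .S) else 0) *
      VG (el X x1) ρ m (rs a) (rs b) := by
  classical
  obtain ⟨⟨a1, a2⟩, ⟨b1, b2⟩, ⟨r1, r2⟩, ⟨s1, s2⟩⟩ := h.val hw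
  refine sum_det (x1 := x1) hab.1 hab.2 (fun o => o B) _ (fun o ho => cg_N hw hx0 ho)
    (fun o w => cg_I hw hx0 h hm o w) ?_
  intro o hM
  have h1 := (cg_I (ρ := ρ) hw hx0 h hm o (o B)).2 ⟨hM, rfl⟩
  have hA : o A = -o B := by
    have := h1.2.2.2 _ (ord_none (d := .W) hx0 hm (by simp) (by rw [h.N]; exact ee_ne _ _))
    rwa [h.W, ext_ee] at this
  have hR : o R = ρ := by
    have : o ((el X x1).π x1) = ρ := hM.2.1
    rwa [s1] at this
  unfold kk
  rw [sum_I hw h o hM.1, hA, hR]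
  rcases Int.units_eq_one_or (o B) with h2 | h2
  · rw [h2]; simp only [if_true, show ¬ (-1 : ℤˣ) = 1 by decide, if_false, Units.val_one]
    ring
  · rw [h2]; simp only [if_true, show ¬ (-1 : ℤˣ) = 1 by decide, if_false, Units.val_neg,
      Units.val_one, neg_neg]
    ring

lemma VG_L (h : TyL X x1 R) (hm : m = true → MReg X x1) (hab : Ov a b ∨ (ρ = 1 ∧ m = false)) :
    VG X ρ m a b = (a none * zt ^ (-X.t (none, .S) - X.t (none, .W) +
        if ρ = 1 then X.t (none, .S) else 0) +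
      b none * zt ^ (-X.t (none, .S) - X.t (none, .E) + if ρ = 1 then X.t (none, .S) else 0)) *
      VG (el X x1) ρ m (rs a) (rs b) := by
  classical
  obtain ⟨⟨r1, r2⟩, ⟨s1, s2⟩⟩ := h.val hw
  refine sum_loop (x1 := x1) _ _ ?_ (fun o w => cg_L hw hx0 h hm o w) ?_
  · intro o ho hwt
    rcases hab with hab | ⟨rfl, rfl⟩
    · exact str_of hab.1 hab.2 o (cg_N hw hx0 ho) hwt
    · have hN := cg_N hw hx0 ho
      have hE : o (none, .E) = -o (none, .W) := by
        have := ho.2.2.2 (none, .W) (ord_none hx0 hm (by simp) (by rw [h.N]; exact ee_ne _ _))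
        rwa [h.W] at this
      have hv : vert (a none) (b none) (o (none, .W)) (o (none, .N)) (o (none, .E)) (o (none, .S)) ≠ 0 := by
        intro hh
        apply hwt
        unfold Net.wt
        rw [Fintype.prod_option, hh]; simp
      refine ⟨hN, ?_, hE⟩
      rw [hN, hE] at hv
      rcases Int.units_eq_one_or (o (none, .S)) with h1 | h1
      · exact h1
      · exfalso
        apply hv
        rw [h1]
        unfold vert
        rcases Int.units_eq_one_or (o (none, .W)) with h2 | h2 <;> rw [h2] <;>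
          simp [show ¬ (-1 : ℤˣ) = 1 by decide]
  · intro o hM
    have hR : o R = ρ := by
      have : o ((el X x1).π x1) = ρ := hM.2.1
      rwa [s1] at this
    unfold kk
    rw [sum_L hw h o hM.1, hR, if_pos rfl, if_neg (by decide : ¬ (-1 : ℤˣ) = 1)]
    exact ⟨rfl, rfl⟩

lemma VG_W (h : TyW X x1 B) (hm : m = true → MReg X x1) :
    ∃ k : ℤ, ∀ a b : Option ι → ℂ, Ov a b → VG X ρ m a b = zt ^ k * VG (el X x1) ρ m (rs a) (rs b) := by
  classical
  obtain ⟨⟨r1, r2⟩, ⟨s1, s2⟩⟩ := h.val hw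
  refine ⟨4 * (ρ : ℤ) - X.t (none, .S) - (if ρ = 1 then X.t (none, .W) else X.t (none, .E)) +
    (if ρ = 1 then -4 + X.t (none, .W) + X.t (none, .S) else 0), fun a b hab => ?_⟩
  refine sum_det (x1 := x1) hab.1 hab.2 (fun _ => ρ) _ (fun o ho => cg_N hw hx0 ho)
    (fun o w => cg_W hw hx0 h hm o w) ?_
  intro o hM
  have hB : o B = ρ := by
    have : o ((el X x1).π x1) = ρ := hM.2.1
    rwa [s1] at this
  unfold kk
  rw [sum_W hw h o hM.1, hB]
  ring

lemma VG_E (h : TyE X x1 A) (hm : m = true → MReg X x1) :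
    ∃ k : ℤ, ∀ a b : Option ι → ℂ, Ov a b → VG X ρ m a b = zt ^ k * VG (el X x1) ρ m (rs a) (rs b) := by
  classical
  obtain ⟨⟨r1, r2⟩, ⟨s1, s2⟩⟩ := h.val hw
  refine ⟨4 * ((-ρ : ℤˣ) : ℤ) - X.t (none, .S) - (if -ρ = 1 then X.t (none, .W) else X.t (none, .E)) +
    (if ρ = 1 then 4 + X.t (none, .E) + X.t (none, .S) else 0), fun a b hab => ?_⟩
  refine sum_det (x1 := x1) hab.1 hab.2 (fun _ => -ρ) _ (fun o ho => cg_N hw hx0 ho)
    (fun o w => cg_E hw hx0 h hm o w) ?_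
  intro o hM
  have hB : o A = ρ := by
    have : o ((el X x1).π x1) = ρ := hM.2.1
    rwa [s1] at this
  unfold kk
  rw [sum_E hw h o hM.1, hB]
  ring

/-- the mark wire at the end `W` -/
lemma VG_IW (h : TyI X x1 A B R) (hy : (X.y0 = (none, .W) ∧ X.π X.y0 = ee A) ∨
    (X.y0 = ee A ∧ X.π X.y0 = (none, .W))) :
    ∃ k : ℤ, ∀ a b : Option ι → ℂ, Ov a b →
      VG X ρ true a b = zt ^ k * VG (el X x1) ρ true (rs a) (rs b) := by
  classical
  obtain ⟨⟨a1, a2⟩, ⟨b1, b2⟩, ⟨r1, r2⟩, ⟨s1, s2⟩⟩ := h.val hw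
  have hy' : ((el X x1).y0 = A ∧ (el X x1).π (el X x1).y0 = B) ∨
      ((el X x1).y0 = B ∧ (el X x1).π (el X x1).y0 = A) := by
    rcases hy with ⟨h1, -⟩ | ⟨h1, -⟩
    · have e : (el X x1).y0 = B := by
        show (J X x1 2 X.y0).1 = B
        rw [h1, J_none, show op .W = Dir.E from rfl, h.E, J_some]
      exact Or.inr ⟨e, by rw [e, b1]⟩
    · have e : (el X x1).y0 = A := by
        show (J X x1 2 X.y0).1 = A
        rw [h1, J_some]
      exact Or.inl ⟨e, by rw [e, a1]⟩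
  refine ⟨4 - X.t (none, .S) - X.t (none, .W) + (4 + X.t (none, .E)) + (-4 + X.t (none, .W)) +
    (if ρ = 1 then X.t (none, .S) else 0), fun a b hab => ?_⟩
  refine sum_det (x1 := x1) hab.1 hab.2 (fun _ => 1) _ (fun o ho => cg_N hw hx0 ho)
    (fun o w => by rw [cg_cgm hy, cg_cgm hy', cgm_IW hw hx0 h o w]) ?_
  intro o hM
  have hM' := (cg_cgm hy').1 hM
  have hR : o R = ρ := by
    have : o ((el X x1).π x1) = ρ := hM.2.1
    rwa [s1] at this
  unfold kk
  rw [sum_I hw h o hM.1, hM'.2.2.1.1, hM'.2.2.1.2, hR, if_pos rfl, if_pos rfl, if_pos rfl]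
  push_cast
  ring

/-- the mark wire at the end `E` -/
lemma VG_IE (h : TyI X x1 A B R) (hy : (X.y0 = (none, .E) ∧ X.π X.y0 = ee B) ∨
    (X.y0 = ee B ∧ X.π X.y0 = (none, .E))) :
    ∃ k : ℤ, ∀ a b : Option ι → ℂ, Ov a b →
      VG X ρ true a b = zt ^ k * VG (el X x1) ρ true (rs a) (rs b) := by
  classical
  obtain ⟨⟨a1, a2⟩, ⟨b1, b2⟩, ⟨r1, r2⟩, ⟨s1, s2⟩⟩ := h.val hw
  have hy' : ((el X x1).y0 = A ∧ (el X x1).π (el X x1).y0 = B) ∨
      ((el X x1).y0 = B ∧ (el X x1).π (el X x1).y0 = A) := by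
    rcases hy with ⟨h1, -⟩ | ⟨h1, -⟩
    · have e : (el X x1).y0 = A := by
        show (J X x1 2 X.y0).1 = A
        rw [h1, J_none, show op .E = Dir.W from rfl, h.W, J_some]
      exact Or.inl ⟨e, by rw [e, a1]⟩
    · have e : (el X x1).y0 = B := by
        show (J X x1 2 X.y0).1 = B
        rw [h1, J_some]
      exact Or.inr ⟨e, by rw [e, b1]⟩
  refine ⟨-4 - X.t (none, .S) - X.t (none, .E) + (4 + X.t (none, .E)) + (-4 + X.t (none, .W)) +
    (if ρ = 1 then X.t (none, .S) else 0), fun a b hab => ?_⟩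
  refine sum_det (x1 := x1) hab.1 hab.2 (fun _ => -1) _ (fun o ho => cg_N hw hx0 ho)
    (fun o w => by rw [cg_cgm hy, cg_cgm hy', cgm_IE hw hx0 h o w]) ?_
  intro o hM
  have hM' := (cg_cgm hy').1 hM
  have hR : o R = ρ := by
    have : o ((el X x1).π x1) = ρ := hM.2.1
    rwa [s1] at this
  unfold kk
  rw [sum_I hw h o hM.1, hM'.2.2.1.1, hM'.2.2.1.2, hR, if_neg (by decide), if_pos rfl, if_pos rfl]
  push_cast
  ring

/-- the root strand and the mark strand meet -/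
lemma VG_WM (h : TyW X x1 B) (hy : (X.y0 = (none, .E) ∧ X.π X.y0 = ee B) ∨
    (X.y0 = ee B ∧ X.π X.y0 = (none, .E))) :
    ∃ k : ℤ, ∀ a b : Option ι → ℂ, Ov a b →
      VG X (-1) true a b = zt ^ k * VG (el X x1) 1 false (rs a) (rs b) := by
  classical
  obtain ⟨⟨r1, r2⟩, ⟨s1, s2⟩⟩ := h.val hw
  refine ⟨-4 - X.t (none, .S) - X.t (none, .E) + (-4 + X.t (none, .W) + X.t (none, .S)),
    fun a b hab => ?_⟩
  refine sum_det (x1 := x1) hab.1 hab.2 (fun _ => -1) _ (fun o ho => cg_N hw hx0 ho)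
    (fun o w => by rw [cg_cgm hy, cgm_W hw hx0 h o w]) ?_
  intro o hM
  have hB : o B = 1 := by
    have : o ((el X x1).π x1) = 1 := hM.2.1
    rwa [s1] at this
  unfold kk
  rw [sum_W hw h o hM.1, hB, if_neg (by decide), if_pos rfl]
  push_cast
  ring

lemma VG_EM (h : TyE X x1 A) (hy : (X.y0 = (none, .W) ∧ X.π X.y0 = ee A) ∨
    (X.y0 = ee A ∧ X.π X.y0 = (none, .W))) :
    ∃ k : ℤ, ∀ a b : Option ι → ℂ, Ov a b →
      VG X (-1) true a b = zt ^ k * VG (el X x1) 1 false (rs a) (rs b) := by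
  classical
  obtain ⟨⟨r1, r2⟩, ⟨s1, s2⟩⟩ := h.val hw
  refine ⟨4 - X.t (none, .S) - X.t (none, .W) + (4 + X.t (none, .E) + X.t (none, .S)),
    fun a b hab => ?_⟩
  refine sum_det (x1 := x1) hab.1 hab.2 (fun _ => 1) _ (fun o ho => cg_N hw hx0 ho)
    (fun o w => by rw [cg_cgm hy, cgm_E hw hx0 h o w]) ?_
  intro o hM
  have hB : o A = 1 := by
    have : o ((el X x1).π x1) = 1 := hM.2.1
    rwa [s1] at this
  unfold kk
  rw [sum_E hw h o hM.1, hB, if_pos rfl, if_pos rfl]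
  push_cast
  ring

/-! ### Flatness -/

/-- turning of a loop through the string -/
lemma flat_loop (h : TyL X x1 R) (hfl : Flat X) :
    Flat (el X x1) ∧ zt ^ (-X.t (none, .S) - X.t (none, .W)) = zt ^ (-X.t (none, .S) - X.t (none, .E)) := by
  obtain ⟨c, hc, hV⟩ := hfl
  have hm : false = true → MReg X x1 := fun hh => absurd hh (by simp)
  have key : ∀ (α β : ℂ) (a b : ι → ℂ), c * ((α + β) * ∏ i, (a i + b i)) =
      (α * zt ^ (-X.t (none, .S) - X.t (none, .W) + X.t (none, .S)) +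
        β * zt ^ (-X.t (none, .S) - X.t (none, .E) + X.t (none, .S))) * V0 (el X x1) a b := by
    intro α β a b
    have h1 := hV (wn α a) (wn β b)
    rw [V0_eq_VG hw.inv, VG_L (ρ := 1) (m := false) hw hx0 h hm (Or.inr ⟨rfl, rfl⟩),
      Fintype.prod_option] at h1
    simp only [if_true, rs_wn] at h1
    rw [V0_eq_VG (el_wi hw h.S).inv]
    exact h1.symm
  have hz : ∀ k : ℤ, zt ^ k ≠ 0 := fun k => zpow_ne_zero _ zt_ne
  have e1 : ∀ a b : ι → ℂ, V0 (el X x1) a b =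
      c * zt ^ (-(-X.t (none, .S) - X.t (none, .W) + X.t (none, .S))) * ∏ i, (a i + b i) := by
    intro a b
    have h1 := key 1 0 a b
    rw [zero_mul, add_zero, add_zero, one_mul, one_mul] at h1
    rw [zpow_neg]
    field_simp
    rw [eq_div_iff (hz _), mul_comm]
    exact h1.symm
  refine ⟨⟨_, ?_, e1⟩, ?_⟩
  · rw [norm_mul, hc, zt_n, one_mul]
  · have h1 := key 1 0 (fun _ => 1) (fun _ => 0)
    have h2 := key 0 1 (fun _ => 1) (fun _ => 0)
    have hV1 : V0 (el X x1) (fun _ => 1) (fun _ => 0) ≠ 0 := by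
      rw [e1]
      have hc0 : c ≠ 0 := by
        intro hh; rw [hh, norm_zero] at hc; exact absurd hc (by norm_num)
      simp [hc0, hz]
    have h3 := h1.symm.trans (by simpa using h2)
    simp only [one_mul, zero_mul, add_zero] at h3
    have h4 := mul_right_cancel₀ hV1 h3
    have e : ∀ k : ℤ, zt ^ (k + X.t (none, .S)) = zt ^ k * zt ^ X.t (none, .S) := fun k =>
      zpow_add₀ zt_ne _ _
    rw [e, e] at h4
    exact mul_right_cancel₀ (hz _) h4

lemma flat_of (hS : X.π (none, .S) = ee x1) (k : ℤ) (hfl : Flat X)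
    (h : ∀ a b : Option ι → ℂ, Ov a b → VG X 1 false a b = zt ^ k * VG (el X x1) 1 false (rs a) (rs b)) :
    Flat (el X x1) := by
  obtain ⟨c, hc, hV⟩ := hfl
  refine ⟨c * zt ^ (-k), by rw [norm_mul, hc, zt_n, one_mul], fun a b => ?_⟩
  have h1 := hV (wn (zt ^ (4 : ℤ)) a) (wn (zt ^ (-4 : ℤ)) b)
  rw [V0_eq_VG hw.inv, h _ _ ⟨rfl, rfl⟩, Fintype.prod_option] at h1
  simp only [rs_wn] at h1
  have e : wn (zt ^ (4 : ℤ)) a none + wn (zt ^ (-4 : ℤ)) b none = 1 := zt_ov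
  rw [e, one_mul] at h1
  rw [V0_eq_VG (el_wi hw hS).inv, zpow_neg]
  have hz : zt ^ k ≠ 0 := zpow_ne_zero _ zt_ne
  field_simp
  rw [mul_comm] at h1
  exact h1

/-- **the network without the tile is flat** -/
theorem flat_step (hS : X.π (none, .S) = ee x1) (hfl : Flat X) : Flat (el X x1) := by
  have hm : false = true → MReg X x1 := fun hh => absurd hh (by simp)
  rcases ty_cases hw hS with ⟨A, B, R, h⟩ | ⟨R, h⟩ | ⟨B, h⟩ | ⟨A, h⟩
  · exact flat_of hw hx0 hS _ hfl fun a b hab => VG_I hw hx0 h hm hab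
  · exact (flat_loop hw hx0 h hfl).1
  · obtain ⟨k, hk⟩ := VG_W (ρ := 1) (m := false) hw hx0 h hm
    exact flat_of hw hx0 hS k hfl hk
  · obtain ⟨k, hk⟩ := VG_E (ρ := 1) (m := false) hw hx0 h hm
    exact flat_of hw hx0 hS k hfl hk

end

/-- the possible results of an elimination -/
def Res (X : Net (Option ι)) (x1 : ι × Dir) : Prop :=
  (∀ a b : Option ι → ℂ, Ov a b → X.V a b = 0) ∨
  (∃ c : ℂ, ‖c‖ = 1 ∧ ∀ a b : Option ι → ℂ, Ov a b → X.V a b = c * V0 (el X x1) (rs a) (rs b)) ∨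
  ((el X x1).y0 ≠ x1 ∧ (el X x1).y0 ≠ (el X x1).π x1 ∧ ∃ c : ℂ, ‖c‖ = 1 ∧
    ∀ a b : Option ι → ℂ, Ov a b → X.V a b = c * (el X x1).V (rs a) (rs b))

/-- **elimination of one tile of the string** -/
theorem V_step (hw : Wi X) (hx0 : X.x0 = (none, .N)) (hS : X.π (none, .S) = ee x1) (hfl : Flat X)
    (y1 : X.y0 ≠ X.x0) (y2 : X.y0 ≠ X.π X.x0) (y3 : X.y0 ≠ (none, .S)) (y4 : X.y0 ≠ ee x1) :
    Res X x1 := by
  rw [hx0] at y1 y2
  have wi1 := el_wi hw hS
  -- the regular mark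
  have reg : ∀ {y y' : ι × Dir}, X.y0 = ee y → X.π (ee y) = ee y' → MReg X x1 ∧ (el X x1).y0 = y := by
    intro y y' h1 h2
    refine ⟨mreg h1 (by rw [h1]; exact h2), ?_⟩
    show (J X x1 2 X.y0).1 = y
    rw [h1, J_some]
  rcases ty_cases hw hS with ⟨A, B, R, h⟩ | ⟨R, h⟩ | ⟨B, h⟩ | ⟨A, h⟩
  · obtain ⟨⟨a1, a2⟩, ⟨b1, b2⟩, ⟨r1, r2⟩, ⟨s1, s2⟩⟩ := h.val hw
    obtain ⟨n1, n2, n3, n4, n5, n6⟩ := h.dist hw
    rw [h.N] at y2
    have eA : X.y0 = ee A → (el X x1).y0 = A := fun hh => by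
      show (J X x1 2 X.y0).1 = A; rw [hh, J_some]
    have eB : X.y0 = ee B → (el X x1).y0 = B := fun hh => by
      show (J X x1 2 X.y0).1 = B; rw [hh, J_some]
    have eW : X.y0 = (none, .W) → (el X x1).y0 = B := fun hh => by
      show (J X x1 2 X.y0).1 = B
      rw [hh, J_none, show op .W = Dir.E from rfl, h.E, J_some]
    have eE : X.y0 = (none, .E) → (el X x1).y0 = A := fun hh => by
      show (J X x1 2 X.y0).1 = A
      rw [hh, J_none, show op .E = Dir.W from rfl, h.W, J_some]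
    have caseW : ((X.y0 = (none, .W) ∧ X.π X.y0 = ee A) ∨ (X.y0 = ee A ∧ X.π X.y0 = (none, .W))) →
        Res X x1 := by
      intro hy
      obtain ⟨k, hk⟩ := VG_IW (ρ := -1) hw hx0 h hy
      refine Or.inr (Or.inr ⟨?_, ?_, zt ^ k, zt_n k, fun a b hab => by
        rw [V_eq_VG, V_eq_VG, hk a b hab]⟩)
      · rcases hy with ⟨hy, -⟩ | ⟨hy, -⟩
        · rw [eW hy]; exact n5
        · rw [eA hy]; exact n3
      · rw [s1]
        rcases hy with ⟨hy, -⟩ | ⟨hy, -⟩
        · rw [eW hy]; exact n4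
        · rw [eA hy]; exact n2
    have caseE : ((X.y0 = (none, .E) ∧ X.π X.y0 = ee B) ∨ (X.y0 = ee B ∧ X.π X.y0 = (none, .E))) →
        Res X x1 := by
      intro hy
      obtain ⟨k, hk⟩ := VG_IE (ρ := -1) hw hx0 h hy
      refine Or.inr (Or.inr ⟨?_, ?_, zt ^ k, zt_n k, fun a b hab => by
        rw [V_eq_VG, V_eq_VG, hk a b hab]⟩)
      · rcases hy with ⟨hy, -⟩ | ⟨hy, -⟩
        · rw [eE hy]; exact n3
        · rw [eB hy]; exact n5
      · rw [s1]
        rcases hy with ⟨hy, -⟩ | ⟨hy, -⟩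
        · rw [eE hy]; exact n2
        · rw [eB hy]; exact n4
    rcases end_cases X.y0 with ⟨y, hy⟩ | ⟨d, hd⟩
    · rcases h.ends hw y with rfl | rfl | rfl | rfl | ⟨y', hy'⟩
      · exact caseW (Or.inr ⟨hy, by rw [hy]; exact back hw h.W⟩)
      · exact caseE (Or.inr ⟨hy, by rw [hy]; exact back hw h.E⟩)
      · exact absurd hy y2
      · exact absurd hy y4
      · obtain ⟨hm, e⟩ := reg hy hy'
        refine Or.inr (Or.inr ⟨?_, ?_, _, zt_n _, fun a b hab => by
          rw [V_eq_VG, V_eq_VG, VG_I (ρ := -1) hw hx0 h (fun _ => hm) hab]⟩)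
        · rw [e]; rintro rfl; exact y4 hy
        · rw [s1, e]; rintro rfl; exact y2 hy
    · cases d
      · exact caseW (Or.inl ⟨hd, by rw [hd]; exact h.W⟩)
      · exact absurd hd y1
      · exact caseE (Or.inl ⟨hd, by rw [hd]; exact h.E⟩)
      · exact absurd hd y3
  · obtain ⟨⟨r1, r2⟩, ⟨s1, s2⟩⟩ := h.val hw
    rw [h.N] at y2
    have caseM : ((X.y0 = (none, .W) ∧ X.π X.y0 = (none, .E)) ∨
        (X.y0 = (none, .E) ∧ X.π X.y0 = (none, .W))) → Res X x1 := by
      intro hy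
      left
      intro a b hab
      classical
      rw [V_eq_VG]
      unfold VG
      rw [sum_ext (fun o => if CG X (-1) true o then X.wt a b o else 0)]
      · refine sum_eq_zero fun o _ => sum_eq_zero fun w _ => ?_
        rw [if_neg]
        rw [cg_cgm hy]
        exact cgm_L o w
      · intro o ho
        by_cases hp : CG X (-1) true o
        · simp only [if_pos hp] at ho
          exact str_of hab.1 hab.2 o (cg_N hw hx0 hp) ho
        · simp only [if_neg hp] at ho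
          exact absurd rfl ho
    rcases end_cases X.y0 with ⟨y, hy⟩ | ⟨d, hd⟩
    · rcases h.ends hw y with rfl | rfl | ⟨y', hy'⟩
      · exact absurd hy y2
      · exact absurd hy y4
      · obtain ⟨hm, e⟩ := reg hy hy'
        obtain ⟨-, hz⟩ := flat_loop hw hx0 h hfl
        refine Or.inr (Or.inr ⟨?_, ?_, zt ^ (-X.t (none, .S) - X.t (none, .W)), zt_n _,
          fun a b hab => ?_⟩)
        · rw [e]; rintro rfl; exact y4 hy
        · rw [s1, e]; rintro rfl; exact y2 hy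
        · rw [V_eq_VG, V_eq_VG, VG_L (ρ := -1) hw hx0 h (fun _ => hm) (Or.inl hab)]
          rw [if_neg (by decide), add_zero, add_zero, ← hz, hab.1, hab.2, ← add_mul, zt_ov, one_mul]
    · cases d
      · exact caseM (Or.inl ⟨hd, by rw [hd]; exact h.W⟩)
      · exact absurd hd y1
      · exact caseM (Or.inr ⟨hd, by rw [hd]; exact back hw h.W⟩)
      · exact absurd hd y3
  · obtain ⟨⟨r1, r2⟩, ⟨s1, s2⟩⟩ := h.val hw
    rw [h.N] at y2
    have caseM : ((X.y0 = (none, .E) ∧ X.π X.y0 = ee B) ∨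
        (X.y0 = ee B ∧ X.π X.y0 = (none, .E))) → Res X x1 := by
      intro hy
      obtain ⟨k, hk⟩ := VG_WM hw hx0 h hy
      exact Or.inr (Or.inl ⟨zt ^ k, zt_n k, fun a b hab => by
        rw [V_eq_VG, V0_eq_VG wi1.inv, hk a b hab]⟩)
    rcases end_cases X.y0 with ⟨y, hy⟩ | ⟨d, hd⟩
    · rcases h.ends hw y with rfl | rfl | ⟨y', hy'⟩
      · exact caseM (Or.inr ⟨hy, by rw [hy]; exact back hw h.E⟩)
      · exact absurd hy y4
      · obtain ⟨hm, e⟩ := reg hy hy'
        obtain ⟨k, hk⟩ := VG_W (ρ := -1) (m := true) hw hx0 h (fun _ => hm)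
        refine Or.inr (Or.inr ⟨?_, ?_, zt ^ k, zt_n k, fun a b hab => by
          rw [V_eq_VG, V_eq_VG, hk a b hab]⟩)
        · rw [e]; rintro rfl; exact y4 hy
        · rw [s1, e]; rintro rfl
          rw [back hw h.E] at hy'
          exact ee_ne _ _ hy'.symm
    · cases d
      · exact absurd hd y2
      · exact absurd hd y1
      · exact caseM (Or.inl ⟨hd, by rw [hd]; exact h.E⟩)
      · exact absurd hd y3
  · obtain ⟨⟨r1, r2⟩, ⟨s1, s2⟩⟩ := h.val hw
    rw [h.N] at y2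
    have caseM : ((X.y0 = (none, .W) ∧ X.π X.y0 = ee A) ∨
        (X.y0 = ee A ∧ X.π X.y0 = (none, .W))) → Res X x1 := by
      intro hy
      obtain ⟨k, hk⟩ := VG_EM hw hx0 h hy
      exact Or.inr (Or.inl ⟨zt ^ k, zt_n k, fun a b hab => by
        rw [V_eq_VG, V0_eq_VG wi1.inv, hk a b hab]⟩)
    rcases end_cases X.y0 with ⟨y, hy⟩ | ⟨d, hd⟩
    · rcases h.ends hw y with rfl | rfl | ⟨y', hy'⟩
      · exact caseM (Or.inr ⟨hy, by rw [hy]; exact back hw h.W⟩)
      · exact absurd hy y4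
      · obtain ⟨hm, e⟩ := reg hy hy'
        obtain ⟨k, hk⟩ := VG_E (ρ := -1) (m := true) hw hx0 h (fun _ => hm)
        refine Or.inr (Or.inr ⟨?_, ?_, zt ^ k, zt_n k, fun a b hab => by
          rw [V_eq_VG, V_eq_VG, hk a b hab]⟩)
        · rw [e]; rintro rfl; exact y4 hy
        · rw [s1, e]; rintro rfl
          rw [back hw h.W] at hy'
          exact ee_ne _ _ hy'.symm
    · cases d
      · exact caseM (Or.inl ⟨hd, by rw [hd]; exact h.W⟩)
      · exact absurd hd y1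
      · exact absurd hd y2
      · exact absurd hd y3

end Pool.Agent.H56.W
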