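import Pool.Agent.H81.G1.Loops

set_option autoImplicit false
open Finset

/-! # Arrow sums without mark

`V0 X a b`: sum over the arrows which are consistent on all wires and enter at the root. For a network all
whose root loops have the same turning it is `c * ∏ (a i + b i)` for all weights (`flat_of_root`). -/

namespace Pool.Agent.H56.W

open Pool.Agent.H81.G1

section
variable {C : Type*} [Fintype C] [DecidableEq C]

open Classical in
/-- **Sum over the orientations** with a root (orientation `u`) and without mark -/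
theorem orient_sum0 (f : Equiv.Perm C) (d : C → ℤ) (c0 : C) (u : ℤˣ)
    (hT : ∀ c, ¬ f.SameCycle c0 c → dsum f d c (Function.minimalPeriod f c) = 4 ∨
      dsum f d c (Function.minimalPeriod f c) = -4) :
    (∑ σ : C → ℤˣ, if (σ c0 = u ∧ ∀ c, σ (f c) = σ c) then ∏ c, zt ^ (-(σ c : ℤ) * d c) else 0) =
      zt ^ (-(u : ℤ) * dsum f d c0 (Function.minimalPeriod f c0)) := by
  have step1 : (∑ σ : C → ℤˣ, if (σ c0 = u ∧ ∀ c, σ (f c) = σ c) then
      ∏ c, zt ^ (-(σ c : ℤ) * d c) else 0) =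
      ∑ ε : C → ℤˣ, if (∀ c, ε (f c) = ε c) then
        ∏ c, (if c = c0 ∧ ε c ≠ u then 0 else zt ^ (-((ε c : ℤˣ) : ℤ) * d c)) else 0 := by
    refine sum_congr rfl fun σ _ => ?_
    by_cases h : ∀ c, σ (f c) = σ c
    · rw [if_pos h]
      by_cases h0 : σ c0 = u
      · rw [if_pos ⟨h0, h⟩]
        refine prod_congr rfl fun c _ => ?_
        rw [if_neg]
        rintro ⟨rfl, h1⟩
        exact h1 h0
      · rw [if_neg (fun hh => h0 hh.1)]
        symm
        apply prod_eq_zero (mem_univ c0)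
        rw [if_pos ⟨rfl, h0⟩]
    · rw [if_neg h, if_neg (fun hh => h hh.2)]
  rw [step1, sum_inv f (fun c v => if c = c0 ∧ v ≠ u then 0 else zt ^ (-(v : ℤ) * d c))]
  have hs : ∀ x c, c ∈ univ.filter (fun c => cy f c = cy f x) ↔ f.SameCycle x c := by
    intro x c
    rw [mem_filter, cy_eq]
    exact ⟨fun h => h.2.symm, fun h => ⟨mem_univ _, h.symm⟩⟩
  have hu : (univ : Finset ℤˣ) = {1, -1} := by decide
  rw [prod_eq_single (cy f c0)]
  · rw [sum_eq_single u]
    · rw [prod_cycle f c0 _ (hs c0)]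
      have e1 : ∀ i ∈ range (Function.minimalPeriod f c0),
          (if f^[i] c0 = c0 ∧ u ≠ u then (0 : ℂ) else
            zt ^ (-((u : ℤˣ) : ℤ) * d (f^[i] c0))) = zt ^ (-(u : ℤ) * d (f^[i] c0)) := by
        intro i _
        rw [if_neg (fun h => h.2 rfl)]
      rw [prod_congr rfl e1, zt_prod]
      congr 1
      unfold dsum
      rw [mul_sum]
    · intro v _ hv
      apply prod_eq_zero ((hs c0 c0).2 (Equiv.Perm.SameCycle.refl f c0))
      rw [if_pos ⟨rfl, hv⟩]
    · intro h; exact absurd (mem_univ _) h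
  · intro q _ hq
    obtain ⟨x, rfl⟩ : ∃ x, cy f x = q := ⟨q.out, cy_out f q⟩
    have hx : ¬ f.SameCycle c0 x := fun h => hq ((cy_eq f _ _).2 h.symm)
    have e : ∀ v : ℤˣ, ∏ c ∈ univ.filter (fun c => cy f c = cy f x),
        (if c = c0 ∧ v ≠ u then (0 : ℂ) else zt ^ (-(v : ℤ) * d c)) =
        zt ^ (-(v : ℤ) * dsum f d x (Function.minimalPeriod f x)) := by
      intro v
      have e1 : ∀ c ∈ univ.filter (fun c => cy f c = cy f x),
          (if c = c0 ∧ v ≠ u then (0 : ℂ) else zt ^ (-(v : ℤ) * d c)) = zt ^ (-(v : ℤ) * d c) := by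
        intro c hcx
        have h2 := (hs x c).1 hcx
        have h3 : ¬ f.SameCycle c0 c := fun h => hx (h.trans h2.symm)
        rw [if_neg (fun h : c = c0 ∧ v ≠ u => h3 (h.1 ▸ Equiv.Perm.SameCycle.refl f c0))]
      rw [prod_congr rfl e1, prod_cycle f x _ (hs x), zt_prod]
      congr 1
      unfold dsum
      rw [mul_sum]
    rw [hu, sum_pair (by decide), e, e]
    have := zt_pm _ (hT x hx)
    simpa using this
  · intro h; exact absurd (mem_univ _) h

end

variable {ι : Type*} [Fintype ι] [DecidableEq ι]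

/-- arrows which are consistent on all the wires, `-u` at the root -/
def Consu (X : Net ι) (u : ℤˣ) (o : ι × Dir → ℤˣ) : Prop := o X.x0 = -u ∧ ∀ x, o (X.π x) = -o x

instance (X : Net ι) (u : ℤˣ) (o : ι × Dir → ℤˣ) : Decidable (Consu X u o) := by
  unfold Consu; infer_instance

/-- arrows which are consistent on all the wires and enter at the root -/
def Cons0 (X : Net ι) (o : ι × Dir → ℤˣ) : Prop := o X.x0 = -1 ∧ ∀ x, o (X.π x) = -o x

instance (X : Net ι) (o : ι × Dir → ℤˣ) : Decidable (Cons0 X o) := by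
  unfold Cons0; infer_instance

/-- the arrow sum without mark -/
noncomputable def V0 (X : Net ι) (a b : ι → ℂ) : ℂ :=
  ∑ o : ι × Dir → ℤˣ, if Cons0 X o then X.wt a b o else 0

/-- the arrow sum without mark, orientation `u` of the root loop -/
noncomputable def Vu (X : Net ι) (u : ℤˣ) (a b : ι → ℂ) : ℂ :=
  ∑ o : ι × Dir → ℤˣ, if Consu X u o then X.wt a b o else 0

/-- the same network with the two ends of the root wire exchanged -/
def sw (X : Net ι) : Net ι where
  π := X.π
  t := X.t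
  x0 := X.π X.x0
  y0 := X.y0

lemma V0_eq_Vu (X : Net ι) (a b : ι → ℂ) : V0 X a b = Vu X 1 a b := rfl

lemma V0_sw (X : Net ι) (a b : ι → ℂ) : V0 (sw X) a b = Vu X (-1) a b := by
  unfold V0 Vu
  refine sum_congr rfl fun o _ => ?_
  have h : Cons0 (sw X) o ↔ Consu X (-1) o := by
    unfold Cons0 Consu sw
    constructor
    · rintro ⟨h1, h2⟩
      refine ⟨?_, h2⟩
      have h3 := h2 X.x0
      have h4 : o (X.π X.x0) = -1 := h1
      rw [h4] at h3
      rw [← neg_neg (o X.x0), ← h3]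
    · rintro ⟨h1, h2⟩
      refine ⟨?_, h2⟩
      show o (X.π X.x0) = -1
      rw [h2, h1]; simp
  simp only [h]
  rfl

variable {X : Net ι} {p : ι → Bool}

omit [DecidableEq ι] in
/-- the wires of consistent arrows -/
lemma wires_eq0 (hX : X.Good p) (o : ι × Dir → ℤˣ) (ho : ∀ x, o (X.π x) = -o x) :
    ∏ x : In p, zt ^ (-((o (X.π x) : ℤˣ) : ℤ) * X.t (X.π x)) = ww X o := by
  unfold ww
  rw [prod_out hX]
  refine prod_congr rfl fun x _ => ?_
  rw [ho, hX.t_neg]
  rcases Int.units_eq_one_or (o x) with h | h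
  · rw [h]; simp
  · rw [h]; simp

/-- **one state as a sum over arrows** -/
theorem state_eq0 (hX : X.Good p) (u : ℤˣ) (s : ι → Bool) (hT : X.Loops p s) :
    (∑ o : ι × Dir → ℤˣ, if Consu X u o ∧ tc s o then
          ww X o * ∏ i, tw (s i) (fun d => o (i, d)) else 0) =
      zt ^ (-(u : ℤ) * X.KT s X.x0 (X.ln s X.x0)) := by
  classical
  set c0 : In p := ⟨X.x0, hX.x0_in⟩ with hc0
  have hos := orient_sum0 (stepP hX s) (fun c => X.dt s c) c0 u (by
    intro c hc
    rw [ln_eq, dsum_eq]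
    apply hT c c.2
    intro k hk
    apply hc
    have : (stepP hX s)^[k] c0 = c := Subtype.ext (by rw [coe_iter]; exact hk)
    rw [← this]
    exact ⟨(k : ℤ), by rw [zpow_natCast, ← Equiv.Perm.iterate_eq_pow]⟩)
  rw [ln_eq, dsum_eq] at hos
  have e0 : X.KT s (c0 : ι × Dir) (X.ln s (c0 : ι × Dir)) = X.KT s X.x0 (X.ln s X.x0) := rfl
  rw [e0] at hos
  rw [← hos, ← Finset.sum_filter, ← Finset.sum_filter]
  symm
  have hin : ∀ x, ¬ inc p x = true → inc p (X.π x) = true := by
    intro x h; rw [hX.ty]; simpa using h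
  set F : (In p → ℤˣ) → ι × Dir → ℤˣ := fun σ x => if h : inc p x = true then -σ ⟨x, h⟩ else
      σ ⟨X.π x, hin x h⟩ with hF
  have hfw : ∀ σ : In p → ℤˣ, (σ c0 = u ∧ ∀ c, σ (stepP hX s c) = σ c) →
      Consu X u (F σ) ∧ tc s (F σ) := by
    intro σ hσ
    obtain ⟨hs0, hsr⟩ := hσ
    refine ⟨⟨?_, ?_⟩, ?_⟩
    · show (if h : inc p X.x0 = true then -σ ⟨X.x0, h⟩ else
        σ ⟨X.π X.x0, hin X.x0 h⟩) = -u
      rw [dif_pos hX.x0_in]
      show -σ c0 = -u
      rw [hs0]
    · intro x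
      show (if h : inc p (X.π x) = true then -σ ⟨X.π x, h⟩ else
        σ ⟨X.π (X.π x), hin (X.π x) h⟩) =
        -(if h : inc p x = true then -σ ⟨x, h⟩ else σ ⟨X.π x, hin x h⟩)
      by_cases hx : inc p x = true
      · rw [dif_neg (by rw [hX.ty, hx]; simp), dif_pos hx]
        simp only [hX.inv, neg_neg]
      · rw [dif_pos (hin x hx), dif_neg hx]
    · intro x
      show (if h : inc p (par s x) = true then -σ ⟨par s x, h⟩ else
        σ ⟨X.π (par s x), hin (par s x) h⟩) =
        -(if h : inc p x = true then -σ ⟨x, h⟩ else σ ⟨X.π x, hin x h⟩)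
      have key : ∀ y : In p, σ ⟨X.π (par s y.1), inc_step hX s y.2⟩ = σ y := fun y => hsr y
      by_cases hx : inc p x = true
      · rw [dif_neg (by rw [inc_par, hx]; simp), dif_pos hx, neg_neg]
        exact key ⟨x, hx⟩
      · have hx' : inc p (par s x) = true := by rw [inc_par]; simpa using hx
        rw [dif_pos hx', dif_neg hx]
        have := key ⟨par s x, hx'⟩
        simp only [par_par] at this
        rw [← this]
  refine Finset.sum_bij' (i := fun σ _ => F σ) (j := fun o _ c => -o c.1) ?_ ?_ ?_ ?_ ?_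
  · intro σ hσ
    rw [mem_filter] at hσ
    rw [mem_filter]
    exact ⟨mem_univ _, hfw σ hσ.2⟩
  · intro o ho
    rw [mem_filter] at ho
    obtain ⟨_, ⟨h0, hr⟩, ht⟩ := ho
    rw [mem_filter]
    refine ⟨mem_univ _, ?_, ?_⟩
    · show -o X.x0 = u
      rw [h0]; simp
    · intro c
      show -o (X.step s c.1) = -o c.1
      rw [step_eq, hr, ht c.1]
      simp
  · intro σ _
    funext c
    show -(if h : inc p c.1 = true then -σ ⟨c.1, h⟩ else σ ⟨X.π c.1, hin c.1 h⟩) = σ c
    rw [dif_pos c.2, neg_neg]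
  · intro o ho
    rw [mem_filter] at ho
    obtain ⟨_, ⟨h0, hr⟩, ht⟩ := ho
    funext x
    show (if h : inc p x = true then -(-o x) else -o (X.π x)) = o x
    by_cases hx : inc p x = true
    · rw [dif_pos hx, neg_neg]
    · rw [dif_neg hx, hr, neg_neg]
  · intro σ hσ
    rw [mem_filter] at hσ
    obtain ⟨hc, ht⟩ := hfw σ hσ.2
    have hσF : ∀ c : In p, σ c = F σ (par s c.1) := by
      intro c
      rw [ht c.1]
      show σ c = -(if h : inc p c.1 = true then -σ ⟨c.1, h⟩ else σ ⟨X.π c.1, hin c.1 h⟩)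
      rw [dif_pos c.2, neg_neg]
    have e1 : ∀ c : In p, zt ^ (-((σ c : ℤˣ) : ℤ) * X.dt s c) =
        zt ^ (-((F σ (par s c.1) : ℤˣ) : ℤ) * c.1.2.tn (s c.1.1)) *
          zt ^ (-((F σ (X.π (stepP hX s c)) : ℤˣ) : ℤ) * X.t (X.π (stepP hX s c))) := by
      intro c
      have e2 : X.π (stepP hX s c) = par s c.1 := by
        rw [coe_stepP, step_eq, hX.inv]
      rw [e2, ← zpow_add₀ zt_ne, hσF c]
      congr 1
      unfold Net.dt par
      ring
    rw [Finset.prod_congr rfl fun c _ => e1 c, Finset.prod_mul_distrib, tiles_eq p s (F σ) ht,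
      Equiv.prod_comp (stepP hX s) (fun x : In p =>
        zt ^ (-((F σ (X.π x) : ℤˣ) : ℤ) * X.t (X.π x))), wires_eq0 hX (F σ) hc.2]
    ring

/-- all the arrow sums without mark factorise -/
def Flat (X : Net ι) : Prop :=
  ∃ c : ℂ, ‖c‖ = 1 ∧ ∀ a b : ι → ℂ, V0 X a b = c * ∏ i, (a i + b i)

theorem Vu_eq (hX : X.Good p) (u : ℤˣ) (a b : ι → ℂ) (T0 : ℤ) (hT : ∀ s, X.Loops p s)
    (h0 : ∀ s, X.KT s X.x0 (X.ln s X.x0) = T0) :
    Vu X u a b = zt ^ (-(u : ℤ) * T0) * ∏ i, (a i + b i) := by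
  classical
  have hprod : ∏ i, (a i + b i) = ∑ s : ι → Bool, ∏ i, (if s i then b i else a i) := by
    have h2 := Finset.prod_univ_sum (fun _ : ι => (univ : Finset Bool))
      (fun i c => (if c then b i else a i))
    rw [Fintype.piFinset_univ] at h2
    rw [← h2]
    refine prod_congr rfl fun i _ => ?_
    rw [Fintype.sum_bool]
    simp [add_comm]
  rw [hprod, mul_sum]
  unfold Vu
  have e1 : ∀ s : ι → Bool, zt ^ (-(u : ℤ) * T0) * (∏ i, if s i then b i else a i) =
      ∑ o : ι × Dir → ℤˣ,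
        if Consu X u o then ww X o * ∏ i, ((if s i then b i else a i) *
          (if ∀ d, o (i, d.mate (s i)) = -o (i, d) then tw (s i) (fun d => o (i, d)) else 0))
        else 0 := by
    intro s
    have h := state_eq0 hX u s (hT s)
    rw [h0 s] at h
    rw [← h, sum_mul]
    refine Finset.sum_congr rfl fun o _ => ?_
    by_cases hc : Consu X u o
    · by_cases ht : tc s o
      · rw [if_pos ⟨hc, ht⟩, if_pos hc, Finset.prod_mul_distrib]
        have : ∀ i ∈ (univ : Finset ι), (if ∀ d, o (i, d.mate (s i)) = -o (i, d) then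
            tw (s i) (fun d => o (i, d)) else 0) = tw (s i) (fun d => o (i, d)) := by
          intro i _
          rw [if_pos]
          intro d
          exact ht (i, d)
        rw [Finset.prod_congr rfl this]
        ring
      · rw [if_neg (fun h => ht h.2), if_pos hc, zero_mul]
        obtain ⟨⟨i, d⟩, hx⟩ := not_forall.1 ht
        symm
        apply mul_eq_zero_of_right
        apply Finset.prod_eq_zero (mem_univ i)
        have hn : ¬ ∀ d, o (i, d.mate (s i)) = -o (i, d) := fun h => hx (h d)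
        rw [if_neg hn, mul_zero]
    · rw [if_neg (fun h => hc h.1), if_neg hc, zero_mul]
  rw [Finset.sum_congr rfl fun s _ => e1 s, Finset.sum_comm]
  refine Finset.sum_congr rfl fun o _ => ?_
  by_cases hc : Consu X u o
  swap
  · simp [hc]
  simp only [if_pos hc]
  rw [← Finset.mul_sum]
  unfold Net.wt
  rw [mul_comm]
  congr 1
  have h2 := Finset.prod_univ_sum (fun _ : ι => (univ : Finset Bool))
    (fun i c => ((if c then b i else a i) *
      (if ∀ d, o (i, d.mate c) = -o (i, d) then tw c (fun d => o (i, d)) else 0)))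
  rw [Fintype.piFinset_univ] at h2
  rw [← h2]
  refine Finset.prod_congr rfl fun i _ => ?_
  rw [Fintype.sum_bool]
  unfold vert
  rw [add_comm]
  have hα : (∀ d, o (i, d.mate false) = -o (i, d)) ↔
      (o (i, .N) = -o (i, .W) ∧ o (i, .S) = -o (i, .E)) := by
    constructor
    · intro h; exact ⟨h .W, h .E⟩
    · rintro ⟨h1, h2⟩ d
      cases d
      · exact h1
      · show o (i, .W) = -o (i, .N); rw [h1, neg_neg]
      · exact h2
      · show o (i, .E) = -o (i, .S); rw [h2, neg_neg]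
  have hβ : (∀ d, o (i, d.mate true) = -o (i, d)) ↔
      (o (i, .S) = -o (i, .W) ∧ o (i, .N) = -o (i, .E)) := by
    constructor
    · intro h; exact ⟨h .W, h .E⟩
    · rintro ⟨h1, h2⟩ d
      cases d
      · exact h1
      · show o (i, .E) = -o (i, .N); rw [h2, neg_neg]
      · exact h2
      · show o (i, .W) = -o (i, .S); rw [h1, neg_neg]
  rw [if_congr hα rfl rfl, if_congr hβ rfl rfl]
  simp only [Bool.false_eq_true, if_false, if_true, mul_ite, mul_zero, tw]

/-- **The arrow sums without mark of a connected network all whose root loops have the same turning.** -/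
theorem flat_of_root (hX : X.Good p) (hc : X.Connected) (T0 : ℤ)
    (h0 : ∀ s, X.KT s X.x0 (X.ln s X.x0) = T0) : Flat X ∧ Flat (sw X) := by
  have hL := loops_of_root hX hc T0 h0
  have hn : ∀ k : ℤ, ‖zt ^ k‖ = 1 := fun k => by rw [norm_zpow, zt_norm, one_zpow]
  exact ⟨⟨zt ^ (-((1 : ℤˣ) : ℤ) * T0), hn _, fun a b => by rw [V0_eq_Vu, Vu_eq hX 1 a b T0 hL h0]⟩,
    ⟨zt ^ (-((-1 : ℤˣ) : ℤ) * T0), hn _, fun a b => by rw [V0_sw, Vu_eq hX (-1) a b T0 hL h0]⟩⟩

omit [DecidableEq ι] in
lemma cons_sw (hinv : ∀ x, X.π (X.π x) = x) (o : ι × Dir → ℤˣ) : (sw X).Cons o ↔ X.Cons o := by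
  unfold Net.Cons sw
  simp only [hinv]
  constructor
  · rintro ⟨h1, h2, h3, h4, h5⟩
    exact ⟨h2, h1, h3, h4, fun x a1 a2 a3 a4 => h5 x a2 a1 a3 a4⟩
  · rintro ⟨h1, h2, h3, h4, h5⟩
    exact ⟨h2, h1, h3, h4, fun x a1 a2 a3 a4 => h5 x a2 a1 a3 a4⟩

lemma V_sw (hinv : ∀ x, X.π (X.π x) = x) (a b : ι → ℂ) : (sw X).V a b = X.V a b := by
  unfold Net.V
  refine sum_congr rfl fun o _ => ?_
  simp only [cons_sw hinv]
  rfl

end Pool.Agent.H56.W
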