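import Pool.Agent.H56.W.SP
import Pool.Agent.H81.G1.RM
import Pool.Agent.H81.W.VbZ

set_option autoImplicit false
set_option linter.unusedSectionVars false
set_option linter.dupNamespace false
open Finset

/-! # Closed strands of a row whose root is an end of the row

`RMZ`: the wires of the row network `X`, root at the end `N` of the column `c0`; the arcs above the row
may pass over `c0` and count `±4` then. All closed strands without special column have factor `1`. -/

namespace Pool.Agent.H56.W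

open Pool.Agent.H81.G1
open Pool.Agent.Q1.M6b.Strand Pool.Agent.Q1.M6b.ExN Pool.Agent.Q1.M6b.PB Pool.Agent.Q1.M6b.Meander

variable {N : ℕ}

/-- the angle of the columns -/
def th (c0 c : Fin N) : ℤ := if c0 < c then 4 else 0

/-- a partial matching without crossings; the points inside an arc are matched inside the arc, `c0` is
not matched but may lie inside arcs -/
structure PMZ (c0 : Fin N) (V : Fin N → Option (Fin N)) : Prop where
  z : V c0 = none
  sy : ∀ c c', V c = some c' → V c' = some c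
  ne : ∀ c c', V c = some c' → c ≠ c'
  ns : ∀ x x' y, V x = some x' → x < y → y < x' → y ≠ c0 → ∃ y', V y = some y' ∧ x < y' ∧ y' < x'

/-- the wires of a row with the root at the end `N` of `c0` -/
structure RMZ (X : Net (Fin N)) (c0 : Fin N) (U D : Fin N → Option (Fin N)) : Prop where
  inv : ∀ x, X.π (X.π x) = x
  ne : ∀ x, X.π x ≠ x
  tn : ∀ x, X.t (X.π x) = -X.t x
  row : X.IsRow
  x0 : X.x0 = (c0, .N)
  y1 : X.y0 ≠ X.x0
  y0 : Gt U D X.y0
  pU : PMZ c0 U
  pD : PM D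
  up : ∀ c c', U c = some c' → X.π (c, .N) = (c', .N) ∧
    X.t (c, .N) = -2 * dir c c' + th c0 c' - th c0 c
  dn : ∀ c c', D c = some c' → X.π (c, .S) = (c', .S) ∧ X.t (c, .S) = 2 * dir c c'

namespace PMZ

variable {c0 : Fin N} {V : Fin N → Option (Fin N)}

lemma nc (h : PMZ c0 V) {x x' y y' : Fin N} (hx : V x = some x') (hy : V y = some y') (h1 : x < y)
    (h2 : y < x') : x < y' ∧ y' < x' := by
  have h0 : y ≠ c0 := by
    rintro rfl
    rw [h.z] at hy
    exact absurd hy (by simp)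
  obtain ⟨z, hz, h3⟩ := h.ns x x' y hx h1 h2 h0
  rw [hy] at hz
  rw [Option.some.inj hz]; exact h3

/-- a gate is outside all arcs -/
lemma gate (h : PMZ c0 V) {K : Finset (Fin N)} (hK : ∀ c ∈ K, V c ≠ none) {c : Fin N}
    (hc : V c = none) (hc0 : c ≠ c0) : Pres K (fU V) 0 c := by
  intro z hz _ hzc
  refine ⟨Nat.zero_le _, ?_⟩
  obtain ⟨z', hz'⟩ := Option.ne_none_iff_exists'.1 (hK z hz)
  rw [fU_eq hz']
  by_contra hcon
  have h1 : z' ≠ c := by
    rintro rfl
    have := h.sy z z' hz'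
    rw [hc] at this
    exact absurd this (by simp)
  obtain ⟨y', hy', -⟩ := h.ns z z' c hz' (Fin.lt_def.2 hzc)
    (Fin.lt_def.2 (lt_of_le_of_ne (not_lt.1 hcon) (fun e => h1 (Fin.ext e.symm)))) hc0
  rw [hc] at hy'
  exact absurd hy' (by simp)

/-- the points of `K` inside an arc outside `K` -/
lemma arc (h : PMZ c0 V) {K : Finset (Fin N)} (hK : ∀ c ∈ K, V c ≠ none) {c c' : Fin N}
    (hc : V c = some c') (hcK : c ∉ K) (hcK' : c' ∉ K) :
    ((c : ℕ) ≤ c' ∧ Pres K (fU V) c c') ∨ ((c' : ℕ) ≤ c ∧ Pres K (fU V) c' c) := by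
  have gen : ∀ x x' : Fin N, V x = some x' → x ∉ K → x < x' → Pres K (fU V) x x' := by
    intro x x' hx hxK hlt z hz h1 h2
    obtain ⟨z', hz'⟩ := Option.ne_none_iff_exists'.1 (hK z hz)
    rw [fU_eq hz']
    have hzx : x < z := Fin.lt_def.2 (lt_of_le_of_ne h1 (fun e => hxK (by
      have : x = z := Fin.ext e
      rw [this]; exact hz)))
    have := h.nc hx hz' hzx (Fin.lt_def.2 h2)
    exact ⟨(Fin.lt_def.1 this.1).le, Fin.lt_def.1 this.2⟩
  rcases lt_trichotomy c c' with h1 | h1 | h1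
  · exact Or.inl ⟨h1.le, gen c c' hc hcK h1⟩
  · exact absurd h1 (h.ne _ _ hc)
  · exact Or.inr ⟨h1.le, gen c' c (h.sy _ _ hc) hcK' h1⟩

end PMZ

/-- the number of points of `C` in an interval which is preserved by a matching is even -/
lemma even_pres {C : Finset (Fin N)} {f : Fin N → Fin N} {p q : ℕ} (hm : Match C f)
    (hp : Pres C f p q) : Even (C.filter (fun z : Fin N => p ≤ (z : ℕ) ∧ (z : ℕ) < q)).card := by
  have h := even_of_inv (S := C.filter (fun z : Fin N => p ≤ (z : ℕ) ∧ (z : ℕ) < q)) (f := f)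
    (fun x hx => by
      have hx' := mem_filter.1 hx
      exact mem_filter.2 ⟨hm.mem x hx'.1, hp x hx'.1 hx'.2.1 hx'.2.2⟩)
    (fun x hx => hm.inv x (mem_filter.1 hx).1) (fun x hx => hm.ne x (mem_filter.1 hx).1)
  by_contra hodd
  rw [Nat.not_even_iff_odd] at hodd
  rw [hodd.neg_one_pow] at h
  exact absurd h (by norm_num)

/-- number of points of `C` to the left -/
def lf (C : Finset (Fin N)) (p : ℕ) : ℕ := (C.filter (fun z : Fin N => (z : ℕ) < p)).card

lemma lf_split {C : Finset (Fin N)} {p q : ℕ} (hpq : p ≤ q) :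
    lf C q = lf C p + (C.filter (fun z : Fin N => p ≤ (z : ℕ) ∧ (z : ℕ) < q)).card := by
  unfold lf
  rw [← card_union_of_disjoint]
  · congr 1
    ext z
    simp only [mem_filter, mem_union]
    constructor
    · rintro ⟨h1, h2⟩
      by_cases h3 : (z : ℕ) < p
      · exact Or.inl ⟨h1, h3⟩
      · exact Or.inr ⟨h1, not_lt.1 h3, h2⟩
    · rintro (⟨h1, h2⟩ | ⟨h1, h2, h3⟩)
      · exact ⟨h1, lt_of_lt_of_le h2 hpq⟩
      · exact ⟨h1, h3⟩
  · rw [disjoint_left]
    intro z h1 h2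
    have := (mem_filter.1 h1).2
    have := (mem_filter.1 h2).2.1
    omega

lemma lf_zero {C : Finset (Fin N)} : lf C 0 = 0 := by
  unfold lf; simp

lemma lf_even {C : Finset (Fin N)} {f : Fin N → Fin N} {p q : ℕ} (hm : Match C f)
    (hp : Pres C f p q) (hpq : p ≤ q) : (Odd (lf C q) ↔ Odd (lf C p)) := by
  rw [lf_split hpq]
  have := even_pres hm hp
  rw [Nat.odd_add]
  exact ⟨fun h => h.2 this, fun h => ⟨fun _ => this, fun _ => h⟩⟩

variable {X : Net (Fin N)} {c0 : Fin N} {U D : Fin N → Option (Fin N)}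

namespace RMZ

lemma pi_W (h : RMZ X c0 U D) {c : Fin N} (hc : (c : ℕ) ≠ 0) :
    X.π (c, .W) = (⟨c - 1, by have := c.2; omega⟩, .E) := by
  have h1 := h.row ⟨c - 1, by have := c.2; omega⟩ c (by simp; omega)
  rw [← h1, h.inv]

lemma pi_E (h : RMZ X c0 U D) {c : Fin N} (hc : (c : ℕ) + 1 ≠ N) :
    X.π (c, .E) = (⟨c + 1, by have := c.2; omega⟩, .W) :=
  h.row c ⟨c + 1, by have := c.2; omega⟩ rfl

/-- the wires join gates to gates -/
lemma gt_pi (h : RMZ X c0 U D) (x : Fin N × Dir) : Gt U D (X.π x) ↔ Gt U D x := by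
  have key : ∀ x, ¬ Gt U D x → ¬ Gt U D (X.π x) := by
    rintro ⟨c, d⟩ hx
    cases d
    · have hc : (c : ℕ) ≠ 0 := hx
      rw [h.pi_W hc]
      show ¬ ((c : ℕ) - 1 + 1 = N)
      have := c.2
      omega
    · cases hU : U c with
      | none => exact absurd hU hx
      | some c' =>
        rw [(h.up c c' hU).1]
        show ¬ U c' = none
        rw [h.pU.sy c c' hU]; simp
    · have hc : (c : ℕ) + 1 ≠ N := hx
      rw [h.pi_E hc]
      show ¬ ((c : ℕ) + 1 = 0)
      omega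
    · cases hD : D c with
      | none => exact absurd hD hx
      | some c' =>
        rw [(h.dn c c' hD).1]
        show ¬ D c' = none
        rw [h.pD.sy c c' hD]; simp
  constructor
  · intro h1
    by_contra h2
    exact key x h2 h1
  · intro h1
    by_contra h2
    have := key _ h2
    rw [h.inv] at this
    exact this h1

lemma gt_x0 (h : RMZ X c0 U D) : Gt U D X.x0 := by
  rw [h.x0]; exact h.pU.z

/-- positions at gates other than the root are outside all arcs of `K` -/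
lemma gate_pr (h : RMZ X c0 U D) {K : Finset (Fin N)} (hU : ∀ c ∈ K, U c ≠ none)
    (hD : ∀ c ∈ K, D c ≠ none) {x : Fin N × Dir} (hx : Gt U D x) (hx0 : x ≠ X.x0) :
    Pr K (fU U) (fU D) 0 (pos x) := by
  obtain ⟨c, d⟩ := x
  cases d
  · have : (c : ℕ) = 0 := hx
    left
    intro z _ _ hz
    change (z : ℕ) < c at hz
    omega
  · left
    refine h.pU.gate hU hx ?_
    rintro rfl
    exact hx0 h.x0.symm
  · have hc : (c : ℕ) + 1 = N := hx
    left
    intro z _ _ _
    refine ⟨Nat.zero_le _, ?_⟩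
    change (fU U z : ℕ) < c + 1
    rw [hc]; exact (fU U z).2
  · right
    exact h.pD.gate hD hx

section strand

variable {C : Finset (Fin N)}

lemma upC (h : RMZ X c0 U D) (hU : ∀ c ∈ C, U c ≠ none) {c : Fin N} (hc : c ∈ C) :
    X.π (c, .N) = (fU U c, .N) ∧ X.t (c, .N) = -2 * dir c (fU U c) + th c0 (fU U c) - th c0 c := by
  obtain ⟨c', hc'⟩ := Option.ne_none_iff_exists'.1 (hU c hc)
  rw [fU_eq hc']; exact h.up c c' hc'

lemma dnC (h : RMZ X c0 U D) (hD : ∀ c ∈ C, D c ≠ none) {c : Fin N} (hc : c ∈ C) :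
    X.π (c, .S) = (fU D c, .S) ∧ X.t (c, .S) = 2 * dir c (fU D c) := by
  obtain ⟨c', hc'⟩ := Option.ne_none_iff_exists'.1 (hD c hc)
  rw [fU_eq hc']; exact h.dn c c' hc'

lemma memU (h : RMZ X c0 U D) (hU : ∀ c ∈ C, U c ≠ none) (hC : Str X C) {c : Fin N} (hc : c ∈ C) :
    fU U c ∈ C := by
  have := hC.mem (c, .N) (by rw [mem_VE]; exact ⟨hc, Or.inl rfl⟩)
  rw [(h.upC hU hc).1, mem_VE] at this
  exact this.1

lemma memD (h : RMZ X c0 U D) (hD : ∀ c ∈ C, D c ≠ none) (hC : Str X C) {c : Fin N} (hc : c ∈ C) :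
    fU D c ∈ C := by
  have := hC.mem (c, .S) (by rw [mem_VE]; exact ⟨hc, Or.inr rfl⟩)
  rw [(h.dnC hD hc).1, mem_VE] at this
  exact this.1

lemma matchU (h : RMZ X c0 U D) (hU : ∀ c ∈ C, U c ≠ none) (hC : Str X C) : Match C (fU U) where
  mem x hx := h.memU hU hC hx
  inv x hx := by
    have := h.inv (x, .N)
    rw [(h.upC hU hx).1, (h.upC hU (h.memU hU hC hx)).1] at this
    exact congrArg Prod.fst this
  ne x hx hh := by
    apply h.ne (x, .N)
    rw [(h.upC hU hx).1, hh]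
  nc x hx y hy h1 h2 := by
    obtain ⟨x', hx'⟩ := Option.ne_none_iff_exists'.1 (hU x hx)
    obtain ⟨y', hy'⟩ := Option.ne_none_iff_exists'.1 (hU y hy)
    rw [fU_eq hx'] at h2
    rw [fU_eq hx', fU_eq hy']
    exact h.pU.nc hx' hy' h1 h2

lemma matchD (h : RMZ X c0 U D) (hD : ∀ c ∈ C, D c ≠ none) (hC : Str X C) : Match C (fU D) where
  mem x hx := h.memD hD hC hx
  inv x hx := by
    have := h.inv (x, .S)
    rw [(h.dnC hD hx).1, (h.dnC hD (h.memD hD hC hx)).1] at this
    exact congrArg Prod.fst this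
  ne x hx hh := by
    apply h.ne (x, .S)
    rw [(h.dnC hD hx).1, hh]
  nc x hx y hy h1 h2 := by
    obtain ⟨x', hx'⟩ := Option.ne_none_iff_exists'.1 (hD x hx)
    obtain ⟨y', hy'⟩ := Option.ne_none_iff_exists'.1 (hD y hy)
    rw [fU_eq hx'] at h2
    rw [fU_eq hx', fU_eq hy']
    exact h.pD.nc hx' hy' h1 h2

/-- **the number of columns of a union of closed strands to the left of the root is even** -/
theorem even_root (h : RMZ X c0 U D) (hU : ∀ c ∈ C, U c ≠ none) (hD : ∀ c ∈ C, D c ≠ none)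
    (hC : Str X C) : ¬ Odd (lf C c0) := by
  classical
  intro hodd
  have mU := h.matchU hU hC
  have mD := h.matchD hD hC
  set P : Finset (Fin N × Dir) := univ.filter (fun x => x ∉ VE C ∧ (x.2 = .N ∨ x.2 = .S) ∧
    Odd (lf C x.1)) with hP
  have mP : ∀ x, x ∈ P ↔ x ∉ VE C ∧ (x.2 = .N ∨ x.2 = .S) ∧ Odd (lf C x.1) := by
    intro x; simp [hP]
  have nC : ∀ c d, (d = Dir.N ∨ d = Dir.S) → ((c, d) ∉ VE C ↔ c ∉ C) := by
    intro c d hd
    rw [mem_VE]; tauto
  have e1 : (-1 : ℤ) ^ P.card = 1 := by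
    refine even_of_inv (f := fun x : Fin N × Dir => (x.1, op x.2)) ?_ ?_ ?_
    · rintro ⟨c, d⟩ hx
      rw [mP] at hx ⊢
      obtain ⟨h1, h2, h3⟩ := hx
      have h1' := (nC c d h2).1 h1
      have h2' : op d = .N ∨ op d = .S := by
        rcases h2 with h2 | h2 <;> change d = _ at h2 <;> subst h2
        · exact Or.inr rfl
        · exact Or.inl rfl
      exact ⟨(nC c _ h2').2 h1', h2', h3⟩
    · rintro ⟨c, d⟩ _
      cases d <;> rfl
    · rintro ⟨c, d⟩ _ hh
      have hd : op d = d := congrArg Prod.snd hh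
      cases d <;> exact absurd hd (by decide)
  have hx0 : X.x0 ∈ P := by
    rw [mP, h.x0]
    refine ⟨?_, Or.inl rfl, hodd⟩
    rw [← h.x0]; exact hC.x0
  -- a gate other than the root is not in `P`
  have gate : ∀ x ∈ P, x ≠ X.x0 → ¬ Gt U D x := by
    intro x hx hne hg
    have hodd' := ((mP x).1 hx).2.2
    have hd := ((mP x).1 hx).2.1
    have hp : pos x = (x.1 : ℕ) := by
      obtain ⟨c, d⟩ := x
      rcases hd with hd | hd <;> change d = _ at hd <;> subst hd <;> rfl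
    have hpr := h.gate_pr hU hD hg hne
    rw [hp] at hpr
    have h0 : ¬ Odd (lf C 0) := by rw [lf_zero]; decide
    rcases hpr with h1 | h1
    · exact h0 ((lf_even mU h1 (Nat.zero_le _)).1 hodd')
    · exact h0 ((lf_even mD h1 (Nat.zero_le _)).1 hodd')
  have e2 : (-1 : ℤ) ^ (P.erase X.x0).card = 1 := by
    refine even_of_inv (f := X.π) ?_ (fun x _ => h.inv x) (fun x _ => h.ne x)
    intro x hx
    obtain ⟨hx1, hx2⟩ := mem_erase.1 hx
    have hng := gate x hx2 hx1
    have hng' : ¬ Gt U D (X.π x) := fun hh => hng ((h.gt_pi x).1 hh)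
    refine mem_erase.2 ⟨fun hh => hng' (hh ▸ h.gt_x0), ?_⟩
    rw [mP] at hx2 ⊢
    obtain ⟨h1, h2, h3⟩ := hx2
    have h1' : X.π x ∉ VE C := by rwa [hC.mem_iff h.inv]
    refine ⟨h1', ?_⟩
    obtain ⟨c, d⟩ := x
    change d = _ ∨ d = _ at h2
    change Odd (lf C c) at h3
    rcases h2 with rfl | rfl
    · obtain ⟨c', hc'⟩ := Option.ne_none_iff_exists'.1 (show U c ≠ none from hng)
      have e := (h.up c c' hc').1
      rw [e] at h1' ⊢
      refine ⟨Or.inl rfl, ?_⟩
      have q1 := (nC c _ (Or.inl rfl)).1 h1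
      have q2 := (nC c' _ (Or.inl rfl)).1 h1'
      show Odd (lf C c')
      rcases h.pU.arc hU hc' q1 q2 with h4 | h4
      · exact (lf_even mU h4.2 h4.1).2 h3
      · exact (lf_even mU h4.2 h4.1).1 h3
    · obtain ⟨c', hc'⟩ := Option.ne_none_iff_exists'.1 (show D c ≠ none from hng)
      have e := (h.dn c c' hc').1
      rw [e] at h1' ⊢
      refine ⟨Or.inr rfl, ?_⟩
      have q1 := (nC c _ (Or.inr rfl)).1 h1
      have q2 := (nC c' _ (Or.inr rfl)).1 h1'
      show Odd (lf C c')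
      rcases h.pD.arc hD hc' q1 q2 with h4 | h4
      · exact (lf_even mD h4.2 h4.1).2 h3
      · exact (lf_even mD h4.2 h4.1).1 h3
  have hcard := card_erase_add_one hx0
  rw [← hcard, pow_succ, e2] at e1
  exact absurd e1 (by norm_num)

/-- the alternating orientation -/
lemma ori (h : RMZ X c0 U D) (hU : ∀ c ∈ C, U c ≠ none) (hD : ∀ c ∈ C, D c ≠ none)
    (hC : Str X C) : Ori X C (alt C) where
  wire := by
    rintro ⟨c, d⟩ hx
    rw [mem_VE] at hx
    rcases hx with ⟨hc, rfl | rfl⟩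
    · rw [(h.upC hU hc).1]
      show eps C (fU U c) = -eps C c
      apply Units.ext
      push_cast
      rw [eps_sg, eps_sg, (h.matchU hU hC).sg hc]
    · rw [(h.dnC hD hc).1]
      show -eps C (fU D c) = -(-eps C c)
      apply Units.ext
      push_cast
      rw [eps_sg, eps_sg, (h.matchD hD hC).sg hc]
  vert := by
    intro i _
    rfl

variable {n : Fin N × Dir → ℤˣ}

lemma oriU (h : RMZ X c0 U D) (hU : ∀ c ∈ C, U c ≠ none) (hO : Ori X C n) :
    ∀ x ∈ C, ((n (fU U x, .N) : ℤˣ) : ℤ) = -((n (x, .N) : ℤˣ) : ℤ) := by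
  intro x hx
  have := hO.wire (x, .N) (by rw [mem_VE]; exact ⟨hx, Or.inl rfl⟩)
  rw [(h.upC hU hx).1] at this
  rw [this]; push_cast; rfl

lemma oriD (h : RMZ X c0 U D) (hD : ∀ c ∈ C, D c ≠ none) (hC : Str X C) (hO : Ori X C n) :
    ∀ x ∈ C, ((n (fU D x, .N) : ℤˣ) : ℤ) = -((n (x, .N) : ℤˣ) : ℤ) := by
  intro x hx
  have := hO.wire (x, .S) (by rw [mem_VE]; exact ⟨hx, Or.inr rfl⟩)
  rw [(h.dnC hD hx).1] at this
  rw [hO.vert x hx, hO.vert (fU D x) (h.memD hD hC hx)] at this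
  rw [neg_injective this]; push_cast; rfl

lemma ori_or (n : Fin N × Dir → ℤˣ) (c : Fin N) :
    ((n (c, .N) : ℤˣ) : ℤ) = 1 ∨ ((n (c, .N) : ℤˣ) : ℤ) = -1 := by
  rcases Int.units_eq_one_or (n (c, .N)) with h1 | h1
  · left; simp [h1]
  · right; simp [h1]

/-- the sum over an interval which is preserved -/
lemma wn_pres {f : Fin N → Fin N} (hm : Match C f)
    (hν : ∀ x ∈ C, ((n (f x, .N) : ℤˣ) : ℤ) = -((n (x, .N) : ℤˣ) : ℤ)) {p q : ℕ} (hpq : p ≤ q)
    (hp : Pres C f p q) : side C (fun c => (n (c, .N) : ℤ)) (fun z : Fin N => (z : ℕ) < q)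
      = side C (fun c => (n (c, .N) : ℤ)) (fun z : Fin N => (z : ℕ) < p) := by
  rw [side_range hpq, pres_sum hm hν hp]; ring

lemma pr_side (h : RMZ X c0 U D) (hU : ∀ c ∈ C, U c ≠ none) (hD : ∀ c ∈ C, D c ≠ none)
    (hC : Str X C) (hO : Ori X C n) {p q : ℕ} (hpq : p ≤ q) (hp : Pr C (fU U) (fU D) p q) :
    side C (fun c => (n (c, .N) : ℤ)) (fun z : Fin N => (z : ℕ) < q)
      = side C (fun c => (n (c, .N) : ℤ)) (fun z : Fin N => (z : ℕ) < p) := by
  rcases hp with hp | hp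
  · exact wn_pres (h.matchU hU hC) (h.oriU hU hO) hpq hp
  · exact wn_pres (h.matchD hD hC) (h.oriD hD hC hO) hpq hp

/-- turning and winding of a closed strand of a meander -/
lemma meander (h : RMZ X c0 U D) (hU : ∀ c ∈ C, U c ≠ none) (hD : ∀ c ∈ C, D c ≠ none)
    (hC : Single X C) (hO : Ori X C n) : ∃ k : ℤ, (k = 1 ∨ k = -1) ∧
      turn (fU U) (fU D) (fun c => (n (c, .N) : ℤ)) C = 4 * k ∧
      ∀ p : ℕ, side C (fun c => (n (c, .N) : ℤ)) (fun z : Fin N => (z : ℕ) < p) =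
        if Odd (lf C p) then k else 0 := by
  have hcl : Closed (fU U) (fU D) C :=
    { mU := h.matchU hU hC.str
      mD := h.matchD hD hC.str
      ne := hC.ne
      single := by
        intro S hS hSn hst
        apply hC.single S hS hSn
        have hsub : ∀ x, x ∈ VE S → x ∈ VE C := fun x hx => VE_mono hS hx
        refine ⟨?_, fun hh => hC.str.x0 (hsub _ hh), fun hh => hC.str.y0 (hsub _ hh)⟩
        rintro ⟨c, d⟩ hx
        rw [mem_VE] at hx
        rcases hx with ⟨hc, rfl | rfl⟩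
        · rw [(h.upC hU (hS hc)).1, mem_VE]; exact ⟨(hst c hc).1, Or.inl rfl⟩
        · rw [(h.dnC hD (hS hc)).1, mem_VE]; exact ⟨(hst c hc).2, Or.inr rfl⟩ }
  obtain ⟨k, hk, h1, h2⟩ := Pool.Agent.Q1.M6b.Meander.closed hcl (n := fun c => ((n (c, .N) : ℤˣ) : ℤ))
    (fun c _ => ori_or n c) (h.oriU hU hO) (h.oriD hD hC.str hO)
  refine ⟨k, hk, h1, fun p => ?_⟩
  exact h2 (fun z : Fin N => (z : ℕ) < p) (fun a b hab ha => lt_trans (Fin.lt_def.1 hab) ha)

lemma wn_root (h : RMZ X c0 U D) (hU : ∀ c ∈ C, U c ≠ none) (hD : ∀ c ∈ C, D c ≠ none)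
    (hC : Single X C) (hO : Ori X C n) : wn C n X.x0 = 0 := by
  obtain ⟨k, -, -, h3⟩ := h.meander hU hD hC hO
  unfold wn
  rw [h.x0]
  show side C _ (fun z : Fin N => (z : ℕ) < c0) = 0
  rw [h3 c0, if_neg (h.even_root hU hD hC.str)]

lemma wn_gate (h : RMZ X c0 U D) (hU : ∀ c ∈ C, U c ≠ none) (hD : ∀ c ∈ C, D c ≠ none)
    (hC : Single X C) (hO : Ori X C n) {x : Fin N × Dir} (hx : Gt U D x) : wn C n x = 0 := by
  by_cases hx0 : x = X.x0
  · rw [hx0]; exact h.wn_root hU hD hC hO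
  · unfold wn
    rw [h.pr_side hU hD hC.str hO (Nat.zero_le _) (h.gate_pr hU hD hx hx0), side_zero]

/-- the winding numbers -/
theorem wind (h : RMZ X c0 U D) (hU : ∀ c ∈ C, U c ≠ none) (hD : ∀ c ∈ C, D c ≠ none)
    (hC : Single X C) (hO : Ori X C n) : Wind X C n (wn C n) := by
  refine ⟨?_, ?_, ?_, h.wn_root hU hD hC hO⟩
  · intro i hi d
    unfold wn
    have key : side C (fun c => (n (c, .N) : ℤ)) (fun z : Fin N => (z : ℕ) < i + 1)
        = side C (fun c => (n (c, .N) : ℤ)) (fun z : Fin N => (z : ℕ) < i) := by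
      rw [side_range (Nat.le_succ _)]
      have : C.filter (fun z : Fin N => (i : ℕ) ≤ (z : ℕ) ∧ (z : ℕ) < i + 1) = ∅ := by
        ext z
        simp only [mem_filter, notMem_empty, iff_false, not_and]
        intro hz h1 h2
        have : z = i := Fin.ext (by omega)
        exact hi (this ▸ hz)
      rw [this]; simp
    cases d
    · rfl
    · rfl
    · exact key
    · rfl
  · intro i hi
    unfold wn
    show side C (fun c => (n (c, .N) : ℤ)) (fun z : Fin N => (z : ℕ) < i + 1)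
        = side C (fun c => (n (c, .N) : ℤ)) (fun z : Fin N => (z : ℕ) < i) - (n (i, .N) : ℤ)
    rw [side_range (Nat.le_succ _)]
    have : C.filter (fun z : Fin N => (i : ℕ) ≤ (z : ℕ) ∧ (z : ℕ) < i + 1) = {i} := by
      ext z
      simp only [mem_filter, mem_singleton]
      constructor
      · rintro ⟨hz, h1, h2⟩
        exact Fin.ext (by omega)
      · rintro rfl
        exact ⟨hi, le_rfl, Nat.lt_succ_self _⟩
    rw [this]; simp
  · intro x hx
    by_cases hg : Gt U D x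
    · rw [h.wn_gate hU hD hC hO hg, h.wn_gate hU hD hC hO ((h.gt_pi x).2 hg)]
    have hx' : X.π x ∉ VE C := by rwa [hC.str.mem_iff h.inv]
    obtain ⟨c, d⟩ := x
    cases d
    · have hc : (c : ℕ) ≠ 0 := hg
      rw [h.pi_W hc]
      unfold wn
      have e : (c : ℕ) - 1 + 1 = c := by omega
      show side C _ (fun z : Fin N => (z : ℕ) < (c : ℕ) - 1 + 1) = _
      rw [e]; rfl
    · obtain ⟨c', hc'⟩ := Option.ne_none_iff_exists'.1 (show U c ≠ none from hg)
      have e := (h.up c c' hc').1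
      rw [e] at hx' ⊢
      have q1 : c ∉ C := fun hh => hx (by rw [mem_VE]; exact ⟨hh, Or.inl rfl⟩)
      have q2 : c' ∉ C := fun hh => hx' (by rw [mem_VE]; exact ⟨hh, Or.inl rfl⟩)
      unfold wn
      show side C _ (fun z : Fin N => (z : ℕ) < c') = side C _ (fun z : Fin N => (z : ℕ) < c)
      rcases h.pU.arc hU hc' q1 q2 with h4 | h4
      · exact h.pr_side hU hD hC.str hO h4.1 (Or.inl h4.2)
      · exact (h.pr_side hU hD hC.str hO h4.1 (Or.inl h4.2)).symm
    · have hc : (c : ℕ) + 1 ≠ N := hg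
      rw [h.pi_E hc]
      rfl
    · obtain ⟨c', hc'⟩ := Option.ne_none_iff_exists'.1 (show D c ≠ none from hg)
      have e := (h.dn c c' hc').1
      rw [e] at hx' ⊢
      have q1 : c ∉ C := fun hh => hx (by rw [mem_VE]; exact ⟨hh, Or.inr rfl⟩)
      have q2 : c' ∉ C := fun hh => hx' (by rw [mem_VE]; exact ⟨hh, Or.inr rfl⟩)
      unfold wn
      show side C _ (fun z : Fin N => (z : ℕ) < c') = side C _ (fun z : Fin N => (z : ℕ) < c)
      rcases h.pD.arc hD hc' q1 q2 with h4 | h4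
      · exact h.pr_side hU hD hC.str hO h4.1 (Or.inr h4.2)
      · exact (h.pr_side hU hD hC.str hO h4.1 (Or.inr h4.2)).symm

/-- the angles cancel along a closed strand -/
lemma th_zero (h : RMZ X c0 U D) (hU : ∀ c ∈ C, U c ≠ none) (hD : ∀ c ∈ C, D c ≠ none)
    (hC : Single X C) (hO : Ori X C n) : ∑ c ∈ C, (n (c, .N) : ℤ) * th c0 c = 0 := by
  obtain ⟨k, -, -, h3⟩ := h.meander hU hD hC hO
  have hc0 : c0 ∉ C := fun hh => hU c0 hh h.pU.z
  have mU := h.matchU hU hC.str
  have e1 : ∑ c ∈ C.filter (fun z : Fin N => (z : ℕ) < c0), (n (c, .N) : ℤ) = 0 := by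
    have := h3 c0
    rw [if_neg (h.even_root hU hD hC.str)] at this
    unfold side at this
    linarith
  have e2 : ∑ c ∈ C, (n (c, .N) : ℤ) = 0 := by
    have := pres_sum (ν := fun c => (n (c, .N) : ℤ)) (p := 0) (q := N) mU (h.oriU hU hO)
      (fun z _ _ _ => ⟨Nat.zero_le _, (fU U z).2⟩)
    have e : C.filter (fun z : Fin N => 0 ≤ (z : ℕ) ∧ (z : ℕ) < N) = C := by
      rw [filter_eq_self]
      exact fun z _ => ⟨Nat.zero_le _, z.2⟩
    rwa [e] at this
  have e3 : ∑ c ∈ C, (n (c, .N) : ℤ) * th c0 c =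
      4 * (∑ c ∈ C, (n (c, .N) : ℤ) - ∑ c ∈ C.filter (fun z : Fin N => (z : ℕ) < c0),
        (n (c, .N) : ℤ)) := by
    rw [sum_filter, ← sum_sub_distrib, mul_sum]
    refine sum_congr rfl fun c hc => ?_
    unfold th
    have hne : c ≠ c0 := fun hh => hc0 (hh ▸ hc)
    rcases lt_or_gt_of_ne hne with h4 | h4
    · rw [if_neg (not_lt.2 h4.le), if_pos (Fin.lt_def.1 h4)]; ring
    · rw [if_pos h4, if_neg (not_lt.2 (Fin.lt_def.1 h4).le)]; ring
  rw [e3, e1, e2]; norm_num

/-- **the turning of a closed strand** -/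
theorem turning (h : RMZ X c0 U D) (hU : ∀ c ∈ C, U c ≠ none) (hD : ∀ c ∈ C, D c ≠ none)
    (hC : Single X C) (hO : Ori X C n) :
    tot X C n = turn (fU U) (fU D) (fun c => (n (c, .N) : ℤ)) C := by
  have mU := h.matchU hU hC.str
  have mD := h.matchD hD hC.str
  set ν : Fin N → ℤ := fun c => (n (c, .N) : ℤ) with hν
  have ν1 : ∀ c ∈ C, ν c = 1 ∨ ν c = -1 := fun c _ => ori_or n c
  have νU : ∀ c ∈ C, ν (fU U c) = -ν c := h.oriU hU hO
  have νD : ∀ c ∈ C, ν (fU D c) = -ν c := h.oriD hD hC.str hO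
  have e1 : tot X C n = ∑ c ∈ C, ((if ν c = 1 then -2 * dir c (fU U c) + th c0 (fU U c) - th c0 c
      else 0) + (if ν c = -1 then 2 * dir c (fU D c) else 0)) := by
    unfold Pool.Agent.Q1.M6b.Strand.tot VE
    rw [sum_product]
    apply sum_congr rfl
    intro c hc
    rw [sum_pair (by decide), (h.upC hU hc).2, (h.dnC hD hc).2, hO.vert c hc]
    rcases Int.units_eq_one_or (n (c, .N)) with h1 | h1
    · have : ν c = 1 := by simp [hν, h1]
      rw [this, h1]; norm_num
    · have : ν c = -1 := by simp [hν, h1]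
      rw [this, h1]; norm_num
  have a1 := sum_half mU ν1 νU (th c0) 1 (Or.inl rfl)
  have a3 := sum_half mU ν1 νU (fun c => dir c (fU U c)) 1 (Or.inl rfl)
  have a4 := sum_half mD ν1 νD (fun c => dir c (fU D c)) (-1) (Or.inr rfl)
  have dirs : ∀ x y : Fin N, x ≠ y → dir x y = -dir y x := by
    intro x y hxy
    rcases lt_or_gt_of_ne hxy with h1 | h1
    · rw [dir_lt h1, dir_gt h1]; norm_num
    · rw [dir_lt h1, dir_gt h1]
  have a3' : ∑ c ∈ C, (if ν c = 1 then dir c (fU U c) else 0)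
      = -∑ c ∈ C, (if ν c = -1 then dir c (fU U c) else 0) := by
    rw [← a3, ← sum_neg_distrib]
    apply sum_congr rfl
    intro c hc
    split_ifs
    · rw [mU.inv c hc, dirs _ _ (mU.ne c hc)]; ring
    · ring
  have e : (- -1 : ℤ) = 1 := by norm_num
  have a4' : ∑ c ∈ C, (if ν c = -1 then dir c (fU D c) else 0)
      = -∑ c ∈ C, (if ν c = 1 then dir c (fU D c) else 0) := by
    rw [e] at a4
    rw [← a4, ← sum_neg_distrib]
    apply sum_congr rfl
    intro c hc
    split_ifs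
    · rw [mD.inv c hc, dirs _ _ (mD.ne c hc)]; ring
    · ring
  have e2 : turn (fU U) (fU D) ν C = -(∑ c ∈ C, (if ν c = 1 then dir c (fU U c) else 0)
      - ∑ c ∈ C, (if ν c = -1 then dir c (fU U c) else 0)
      + ∑ c ∈ C, (if ν c = 1 then dir c (fU D c) else 0)
      - ∑ c ∈ C, (if ν c = -1 then dir c (fU D c) else 0)) := by
    unfold turn
    rw [← sum_sub_distrib, ← sum_add_distrib, ← sum_sub_distrib, ← sum_neg_distrib]
    apply sum_congr rfl
    intro c hc
    rcases ν1 c hc with h1 | h1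
    · rw [h1]; norm_num
    · rw [h1]; norm_num; ring
  have e3 : tot X C n = -2 * (∑ c ∈ C, (if ν c = 1 then dir c (fU U c) else 0))
      + 2 * (∑ c ∈ C, (if ν c = -1 then dir c (fU D c) else 0))
      + (∑ c ∈ C, (if ν c = 1 then th c0 (fU U c) else 0) -
        ∑ c ∈ C, (if ν c = 1 then th c0 c else 0)) := by
    rw [e1, mul_sum, mul_sum, ← sum_sub_distrib, ← sum_add_distrib, ← sum_add_distrib]
    apply sum_congr rfl
    intro c hc
    rcases ν1 c hc with h1 | h1
    · rw [h1]; norm_num; ring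
    · rw [h1]; norm_num
  have e5 : ∑ c ∈ C, (if ν c = -1 then th c0 c else 0) - ∑ c ∈ C, (if ν c = 1 then th c0 c else 0)
      = 0 := by
    have h5 := h.th_zero hU hD hC hO
    rw [← sum_sub_distrib]
    have : ∑ c ∈ C, ((if ν c = -1 then th c0 c else 0) - (if ν c = 1 then th c0 c else 0)) =
        -∑ c ∈ C, (n (c, .N) : ℤ) * th c0 c := by
      rw [← sum_neg_distrib]
      refine sum_congr rfl fun c hc => ?_
      change _ = -(ν c * th c0 c)
      rcases ν1 c hc with h1 | h1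
      · rw [h1]; norm_num
      · rw [h1]; norm_num
    rw [this, h5, neg_zero]
  rw [e3, e2, a1]
  linarith

lemma fac1 (h : RMZ X c0 U D) (hU : ∀ c ∈ C, U c ≠ none) (hD : ∀ c ∈ C, D c ≠ none)
    (hC : Single X C) (hO : Ori X C n) : fac X C n (wn C n) = 1 := by
  obtain ⟨k, hk, h1, h2⟩ := h.meander hU hD hC hO
  apply fac_one _ (h.wn_gate hU hD hC hO h.y0)
  rw [h.turning hU hD hC hO, h1]
  rcases hk with rfl | rfl
  · left; norm_num
  · right; norm_num

end strand

/-- **closed strands of a row**: factor `1` -/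
theorem sum (h : RMZ X c0 U D) {K : Finset (Fin N)} (hU : ∀ c ∈ K, U c ≠ none)
    (hD : ∀ c ∈ K, D c ≠ none) (hK : Str X K) {a b : Fin N → ℂ}
    (hov : ∀ i ∈ K, a i = zt ^ (4 : ℤ) ∧ b i = zt ^ (-4 : ℤ)) {F : (Fin N × Dir → ℤˣ) → ℂ}
    (hF : Indep K F) :
    (∑ o : Fin N × Dir → ℤˣ, if X.Cons o then F o * X.wt a b o else 0) =
      VR X a b (alt K) F K := by
  classical
  have hn := h.ori hU hD hK
  have hsub : ∀ C ∈ orbs X K, (∀ c ∈ C, U c ≠ none) ∧ (∀ c ∈ C, D c ≠ none) := fun C hC =>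
    ⟨fun c hc => hU c ((mem_orbs.1 hC).1 hc), fun c hc => hD c ((mem_orbs.1 hC).1 hc)⟩
  rw [strands h.inv h.ne h.tn hK hn hov (fun C => wn C (alt K))
    (fun C hC => h.wind (hsub C hC).1 (hsub C hC).2 (mem_orbs.1 hC).2
      (hn.mono (mem_orbs.1 hC).1)) hF]
  rw [prod_congr rfl (fun C hC => h.fac1 (hsub C hC).1 (hsub C hC).2 (mem_orbs.1 hC).2
    (hn.mono (mem_orbs.1 hC).1)), prod_const_one, one_mul]

/-- the sum over the arrows which agree with `o₀` outside the closed strands -/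
theorem class_sum (h : RMZ X c0 U D) {K : Finset (Fin N)} (hU : ∀ c ∈ K, U c ≠ none)
    (hD : ∀ c ∈ K, D c ≠ none) (hK : Str X K) {a b : Fin N → ℂ}
    (hov : ∀ i ∈ K, a i = zt ^ (4 : ℤ) ∧ b i = zt ^ (-4 : ℤ)) (o₀ : Fin N × Dir → ℤˣ)
    [DecidablePred fun o : Fin N × Dir → ℤˣ => X.Cons o ∧ ∀ x, x ∉ VE K → o x = o₀ x] :
    ‖∑ o : Fin N × Dir → ℤˣ, if X.Cons o ∧ ∀ x, x ∉ VE K → o x = o₀ x then X.wt a b o else 0‖ ≤
      ‖wtR X a b K o₀‖ := by
  classical
  have hF : Indep K (fun o : Fin N × Dir → ℤˣ => if ∀ x, x ∉ VE K → o x = o₀ x then (1 : ℂ) else 0) := by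
    intro o o' hoo
    have : (∀ x, x ∉ VE K → o x = o₀ x) ↔ (∀ x, x ∉ VE K → o' x = o₀ x) := by
      constructor
      · intro hh x hx; rw [← hoo x hx, hh x hx]
      · intro hh x hx; rw [hoo x hx, hh x hx]
    simp only [this]
  have e := h.sum hU hD hK hov hF
  have e1 : (∑ o : Fin N × Dir → ℤˣ, if X.Cons o ∧ ∀ x, x ∉ VE K → o x = o₀ x then X.wt a b o else 0)
      = ∑ o : Fin N × Dir → ℤˣ, if X.Cons o then
        (if ∀ x, x ∉ VE K → o x = o₀ x then (1 : ℂ) else 0) * X.wt a b o else 0 := by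
    apply sum_congr rfl
    intro o _
    by_cases h1 : X.Cons o
    · by_cases h2 : ∀ x, x ∉ VE K → o x = o₀ x
      · rw [if_pos ⟨h1, h2⟩, if_pos h1, if_pos h2, one_mul]
      · rw [if_neg (fun hh => h2 hh.2), if_pos h1, if_neg h2, zero_mul]
    · rw [if_neg (fun hh => h1 hh.1), if_neg h1]
  rw [e1, e]
  -- at most one term
  set o₁ : Fin N × Dir → ℤˣ := fun x => if x ∈ VE K then alt K x else o₀ x with ho₁
  unfold VR
  rw [Finset.sum_eq_single o₁]
  · unfold term
    split_ifs with hc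
    · rw [norm_mul]
      have : wtR X a b K o₁ = wtR X a b K o₀ := by
        apply wtR_congr
        intro x hx
        rw [ho₁]; simp only [if_neg hx]
      rw [this]
      apply mul_le_of_le_one_left (norm_nonneg _)
      beta_reduce
      split_ifs <;> simp
    · rw [norm_zero]; exact norm_nonneg _
  · intro o _ hne'
    unfold term
    split_ifs with hc
    · have : ¬ ∀ x, x ∉ VE K → o x = o₀ x := by
        intro hh
        apply hne'
        funext x
        rw [ho₁]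
        by_cases hx : x ∈ VE K
        · simp only [if_pos hx]; exact hc.2 x hx
        · simp only [if_neg hx]; exact hh x hx
      beta_reduce
      rw [if_neg this, zero_mul]
    · rfl
  · intro hh; exact absurd (mem_univ _) hh

/-- **Pointwise bound of the vertex sum of a row whose root is an end of the row.** -/
theorem bound (h : RMZ X c0 U D) {sp : Finset (Fin N)} {a b : Fin N → ℂ}
    {LN LS : Finset (Fin N × Fin N)} {m : ℕ} {Ex : Fin m → Finset (Fin N)}
    (hU : ∀ c, U c = none → c ∈ sp) (hD : ∀ c, D c = none → c ∈ sp)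
    (hR : RowData2 X sp a b LN LS Ex)
    (hcp : ∀ c ∈ sp, (a c = 1 ∧ b c = -1) ∨ (a c = zt ^ (4 : ℤ) ∧ b c = zt ^ (-4 : ℤ))) :
    ‖X.V a b‖ ≤ 2 ^ (5 * sp.card + m) * ∏ k, (1 + ((Ex k).card : ℝ)) := by
  classical
  have hK : Str X (Kn X sp) := Kn_str hR.anc
  have hU' : ∀ c ∈ Kn X sp, U c ≠ none := fun c hc hn => Kn_sp hc (hU c hn)
  have hD' : ∀ c ∈ Kn X sp, D c ≠ none := fun c hc hn => Kn_sp hc (hD c hn)
  exact Pool.Agent.H81.W.V_bound_one h.inv h.ne h.tn hR (h.ori hU' hD' hK)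
    (fun o₀ => h.class_sum hU' hD' hK (fun i hi => hR.ov i (Kn_sp hi)) o₀) hcp

end RMZ

end Pool.Agent.H56.W
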