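import Pool.Agent.H56.W.Elim5

set_option autoImplicit false
set_option linter.unusedSectionVars false
set_option linter.dupNamespace false
open Finset

/-! # Elimination of the string -/

namespace Pool.Agent.H56.W

open Pool.Agent.H81.G1

/-! ### Straight paths and the elimination of one tile -/

section
variable {ι : Type*} {X : Net (Option ι)} {x1 : ι × Dir}

/-- ends which are joined to the tile `none` -/
def Tn (X : Net (Option ι)) (z : ι × Dir) : Prop := ∃ d, X.π (ee z) = (none, d)

variable (hw : Wi X) (hx0 : X.x0 = (none, .N)) (hS : X.π (none, .S) = ee x1)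
include hw hx0 hS

lemma tn_pi {z : ι × Dir} (h : Tn X z) : Tn X ((el X x1).π z) := by
  rcases end_cases (X.π (ee ((el X x1).π z))) with ⟨u, hu⟩ | ⟨d, hd⟩
  · exfalso
    have h1 := (el_reg (x1 := x1) hu).1
    rw [(el_wi hw hS).inv] at h1
    obtain ⟨d, hd⟩ := h
    have h2 := back hw hu
    rw [← h1, hd] at h2
    exact ee_ne _ _ h2.symm
  · exact ⟨d, hd⟩

lemma tn_J (d : Dir) : Tn X (J X x1 2 (none, d)).1 := by
  have t1 : Tn X x1 := ⟨_, back hw hS⟩
  rw [J_none]
  rcases end_cases (X.π (none, op d)) with ⟨u, hu⟩ | ⟨d', hd'⟩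
  · rw [hu, J_some]
    exact ⟨_, back hw hu⟩
  · rw [hd', J_none]
    rcases end_cases (X.π (none, op d')) with ⟨u, hu⟩ | ⟨d'', hd''⟩
    · rw [hu, J_some]
      exact ⟨_, back hw hu⟩
    · rw [hd'']
      exact t1

/-- ordinary wires which do not touch the tile -/
lemma spc_A {x y : ι × Dir} (h : X.π (ee x) = ee y) (hs : ¬ Spc X (ee x)) : ¬ Spc (el X x1) x := by
  have hnt : ¬ Tn X x := by
    rintro ⟨d, hd⟩
    rw [h] at hd
    exact ee_ne _ _ hd
  have t1 : Tn X x1 := ⟨_, back hw hS⟩
  rintro (h1 | h1 | h1 | h1)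
  · exact hnt (h1 ▸ t1)
  · apply hnt
    rw [h1]
    exact tn_pi hw hx0 hS t1
  · rcases end_cases X.y0 with ⟨z, hz⟩ | ⟨d, hd⟩
    · have e : (el X x1).y0 = z := by
        show (J X x1 2 X.y0).1 = z
        rw [hz, J_some]
      apply hs
      rw [h1, e, ← hz]
      exact Or.inr (Or.inr (Or.inl rfl))
    · apply hnt
      rw [h1]
      show Tn X (J X x1 2 X.y0).1
      rw [hd]
      exact tn_J hw hx0 hS d
  · rcases end_cases X.y0 with ⟨z, hz⟩ | ⟨d, hd⟩
    · have e : (el X x1).y0 = z := by
        show (J X x1 2 X.y0).1 = z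
        rw [hz, J_some]
      rcases end_cases (X.π (ee z)) with ⟨u, hu⟩ | ⟨d, hd⟩
      · have e2 : (el X x1).π z = u := (el_reg hu).1
        apply hs
        rw [h1, e, e2, ← hu, ← hz]
        exact Or.inr (Or.inr (Or.inr rfl))
      · apply hnt
        rw [h1, e]
        exact tn_pi hw hx0 hS ⟨d, hd⟩
    · apply hnt
      rw [h1]
      apply tn_pi hw hx0 hS
      show Tn X (J X x1 2 X.y0).1
      rw [hd]
      exact tn_J hw hx0 hS d

lemma op_inj {d d' : Dir} (h : op d = op d') : d = d' := by
  cases d <;> cases d' <;> first | rfl | (exact absurd h (by decide))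

lemma op_op (d : Dir) : op (op d) = d := by cases d <;> rfl

/-- ordinary wires which pass the tile straight -/
lemma spc_B {x y : ι × Dir} {d : Dir} (hd : d = .W ∨ d = .E) (h : X.π (ee x) = (none, op d))
    (h2 : X.π (none, d) = ee y) (hs : ¬ Spc X (ee x)) (hs2 : ¬ Spc X (none, d)) :
    ¬ Spc (el X x1) x := by
  have e1 : (el X x1).π x = y := (el_one (d := op d) h (by rw [op_op hw hx0 hS]; exact h2)).1
  have hx1 : x ≠ x1 := by
    rintro rfl
    rw [back hw hS] at h
    rcases hd with rfl | rfl
    · have h' : Dir.S = op Dir.W := congrArg Prod.snd h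
      exact absurd h' (by decide)
    · have h' : Dir.S = op Dir.E := congrArg Prod.snd h
      exact absurd h' (by decide)
  have hy1 : y ≠ x1 := by
    rintro rfl
    have := pi_inj hw (h2.trans hS.symm)
    rcases hd with rfl | rfl
    · have h' : Dir.W = Dir.S := congrArg Prod.snd this
      exact absurd h' (by decide)
    · have h' : Dir.E = Dir.S := congrArg Prod.snd this
      exact absurd h' (by decide)
  have inv1 := (el_wi hw hS).inv
  have key : ∀ z, (el X x1).y0 = z → z = x ∨ z = y → False := by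
    intro z hz hzz
    have hz' : (J X x1 2 X.y0).1 = z := hz
    rcases end_cases X.y0 with ⟨u, hu⟩ | ⟨d', hd'⟩
    · rw [hu, J_some] at hz'
      have hz'' : u = z := hz'
      rcases hzz with hh | hh
      · apply hs
        rw [← hh, ← hz'', ← hu]
        exact Or.inr (Or.inr (Or.inl rfl))
      · apply hs2
        have : X.π X.y0 = (none, d) := by rw [hu, hz'', hh]; exact back hw h2
        rw [← this]
        exact Or.inr (Or.inr (Or.inr rfl))
    · rw [hd', J_none] at hz'
      rcases end_cases (X.π (none, op d')) with ⟨u, hu⟩ | ⟨d'', hd''⟩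
      · rw [hu, J_some] at hz'
        have hz'' : u = z := hz'
        rcases hzz with hh | hh
        · rw [hz'', hh] at hu
          have h3 := (back hw hu).symm.trans h
          have h4 : d' = d := op_inj hw hx0 hS (congrArg Prod.snd h3)
          apply hs2
          rw [← h4, ← hd']
          exact Or.inr (Or.inr (Or.inl rfl))
        · rw [hz'', hh] at hu
          have h3 := pi_inj hw (hu.trans h2.symm)
          have h4 : op d' = d := congrArg Prod.snd h3
          apply hs
          have : X.π X.y0 = ee x := by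
            rw [hd', ← op_op hw hx0 hS d', h4]; exact back hw h
          rw [← this]
          exact Or.inr (Or.inr (Or.inr rfl))
      · rw [hd'', J_none] at hz'
        rcases end_cases (X.π (none, op d'')) with ⟨u, hu⟩ | ⟨d3, hd3⟩
        · rw [hu, J_some] at hz'
          have hz'' : u = z := hz'
          rcases hzz with hh | hh
          · rw [hz'', hh] at hu
            have h3 := (back hw hu).symm.trans h
            have h4 : d'' = d := op_inj hw hx0 hS (congrArg Prod.snd h3)
            rw [h4] at hd''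
            have h5 := back hw hd''
            rw [h2] at h5
            exact ee_ne _ _ h5
          · rw [hz'', hh] at hu
            have h3 := pi_inj hw (hu.trans h2.symm)
            have h4 : op d'' = d := congrArg Prod.snd h3
            have h5 : d'' = op d := by rw [← h4, op_op hw hx0 hS]
            rw [h5] at hd''
            have h6 := pi_inj hw (hd''.trans h.symm)
            exact ee_ne _ _ h6.symm
        · rw [hd3] at hz'
          have hz'' : x1 = z := hz'
          rcases hzz with hh | hh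
          · exact hx1 (hz''.trans hh).symm
          · exact hy1 (hz''.trans hh).symm
  rintro (h3 | h3 | h3 | h3)
  · exact hx1 h3
  · apply hy1
    rw [← e1, h3, inv1]; rfl
  · exact key _ rfl (Or.inl h3.symm)
  · apply key _ rfl (Or.inr _)
    rw [← e1, h3, inv1]

variable {Q : Option ι → Prop}

/-- **straight paths after the elimination of one tile** -/
theorem sp_step (hQ : Q none) {z w : Option ι × Dir} {t : ℤ} (h : SP X Q z w t) :
    ∃ y, w = ee y ∧ (∀ x, z = ee x → SP (el X x1) (fun i => Q (some i)) x y t) ∧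
      (∀ d, (d = .W ∨ d = .E) → z = (none, d) → ∀ x, X.π (ee x) = (none, op d) → ¬ Spc X (ee x) →
        SP (el X x1) (fun i => Q (some i)) x y (X.t (ee x) + cr (op d) + t)) := by
  have tdef : ∀ x, (el X x1).t x = X.t (ee x) + dl X x1 x := fun _ => rfl
  induction h with
  | @base z h1 h2 =>
    rcases end_cases (X.π z) with ⟨y, hy⟩ | ⟨d, hd⟩
    · refine ⟨y, hy, ?_, ?_⟩
      · rintro x rfl
        have e := el_reg (x1 := x1) hy
        have e2 : X.t (ee x) = (el X x1).t x := by rw [tdef, e.2, add_zero]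
        have e3 : y = (el X x1).π x := e.1.symm
        rw [e2, e3]
        refine SP.base ?_ (spc_A hw hx0 hS hy h2)
        rw [e.1]
        rw [hy] at h1
        exact h1
      · rintro d hd rfl x hx hsx
        have e := el_one (x1 := x1) (d := op d) hx (by rw [op_op hw hx0 hS]; exact hy)
        rw [op_op hw hx0 hS] at e
        have e2 : X.t (ee x) + cr (op d) + X.t (none, d) = (el X x1).t x := by rw [tdef, e.2]; ring
        have e3 : y = (el X x1).π x := e.1.symm
        rw [e2, e3]
        refine SP.base ?_ (spc_B hw hx0 hS hd hx hy hsx h2)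
        rw [e.1]
        rw [hy] at h1
        exact h1
    · exfalso
      apply h1
      rw [hd]; exact hQ
  | @west z w q t h1 h2 h3 h4 ih =>
    obtain ⟨y, hy, ih1, ih2⟩ := ih
    refine ⟨y, hy, ?_, ?_⟩
    · rintro x rfl
      cases q with
      | none =>
        have := ih2 .E (Or.inr rfl) rfl x h1 h3
        exact this
      | some i =>
        have e := el_reg (x1 := x1) (y := (i, .W)) h1
        have e2 : X.t (ee x) = (el X x1).t x := by rw [tdef, e.2, add_zero]
        rw [e2]
        exact SP.west e.1 h2 (spc_A hw hx0 hS (y := (i, .W)) h1 h3) (ih1 (i, .E) rfl)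
    · rintro d hd rfl x hx hsx
      cases q with
      | none =>
        exfalso
        rcases hd with rfl | rfl
        · exact hw.ne _ h1
        · have h5 := back hw h1
          have h6 := back hw hx
          have h7 : op Dir.E = Dir.W := rfl
          rw [h7, h5] at h6
          exact ee_ne _ _ h6.symm
      | some i =>
        have e := el_one (x1 := x1) (d := op d) (y := (i, .W)) hx (by rw [op_op hw hx0 hS]; exact h1)
        rw [op_op hw hx0 hS] at e
        have e2 : X.t (ee x) + cr (op d) + (X.t (none, d) + 4 + t) = (el X x1).t x + 4 + t := by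
          rw [tdef, e.2]; ring
        rw [e2]
        exact SP.west e.1 h2 (spc_B hw hx0 hS hd hx (y := (i, .W)) h1 hsx h3) (ih1 (i, .E) rfl)
  | @east z w q t h1 h2 h3 h4 ih =>
    obtain ⟨y, hy, ih1, ih2⟩ := ih
    refine ⟨y, hy, ?_, ?_⟩
    · rintro x rfl
      cases q with
      | none =>
        have := ih2 .W (Or.inl rfl) rfl x h1 h3
        have e : X.t (ee x) + cr (op .W) + t = X.t (ee x) - 4 + t := rfl
        rw [e] at this
        exact this
      | some i =>
        have e := el_reg (x1 := x1) (y := (i, .E)) h1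
        have e2 : X.t (ee x) = (el X x1).t x := by rw [tdef, e.2, add_zero]
        rw [e2]
        exact SP.east e.1 h2 (spc_A hw hx0 hS (y := (i, .E)) h1 h3) (ih1 (i, .W) rfl)
    · rintro d hd rfl x hx hsx
      cases q with
      | none =>
        exfalso
        rcases hd with rfl | rfl
        · have h5 := back hw h1
          have h6 := back hw hx
          have h7 : op Dir.W = Dir.E := rfl
          rw [h7, h5] at h6
          exact ee_ne _ _ h6.symm
        · exact hw.ne _ h1
      | some i =>
        have e := el_one (x1 := x1) (d := op d) (y := (i, .E)) hx (by rw [op_op hw hx0 hS]; exact h1)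
        rw [op_op hw hx0 hS] at e
        have e2 : X.t (ee x) + cr (op d) + (X.t (none, d) - 4 + t) = (el X x1).t x - 4 + t := by
          rw [tdef, e.2]; ring
        rw [e2]
        exact SP.east e.1 h2 (spc_B hw hx0 hS hd hx (y := (i, .E)) h1 hsx h3) (ih1 (i, .W) rfl)

end

/-! ### Change of the names of the tiles -/

section
variable {κ κ' : Type*}

/-- the bijection of the ends -/
def eE (e : κ ≃ κ') : κ × Dir ≃ κ' × Dir := e.prodCongr (Equiv.refl Dir)

lemma eE_apply (e : κ ≃ κ') (k : κ) (d : Dir) : eE e (k, d) = (e k, d) := rfl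

/-- the network with new names of the tiles -/
def mp (e : κ ≃ κ') (X : Net κ) : Net κ' where
  π z := eE e (X.π ((eE e).symm z))
  t z := X.t ((eE e).symm z)
  x0 := eE e X.x0
  y0 := eE e X.y0

variable {X : Net κ} (e : κ ≃ κ')

lemma mp_pi (z : κ × Dir) : (mp e X).π (eE e z) = eE e (X.π z) := by
  show eE e (X.π ((eE e).symm (eE e z))) = _
  rw [Equiv.symm_apply_apply]

lemma mp_t (z : κ × Dir) : (mp e X).t (eE e z) = X.t z := by
  show X.t ((eE e).symm (eE e z)) = _
  rw [Equiv.symm_apply_apply]

lemma mp_wi (hw : Wi X) : Wi (mp e X) := by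
  refine ⟨?_, ?_, ?_⟩
  · intro z
    obtain ⟨z, rfl⟩ := (eE e).surjective z
    rw [mp_pi, mp_pi, hw.inv]
  · intro z
    obtain ⟨z, rfl⟩ := (eE e).surjective z
    rw [mp_pi]
    exact fun h => hw.ne z ((eE e).injective h)
  · intro z
    obtain ⟨z, rfl⟩ := (eE e).surjective z
    rw [mp_pi, mp_t, mp_t, hw.tn]

lemma mp_spc (z : κ × Dir) : Spc (mp e X) (eE e z) ↔ Spc X z := by
  unfold Spc
  have h1 : (mp e X).x0 = eE e X.x0 := rfl
  have h2 : (mp e X).y0 = eE e X.y0 := rfl
  rw [h1, h2, mp_pi, mp_pi]
  simp only [(eE e).injective.eq_iff]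

lemma mp_sp {Q : κ → Prop} {Q' : κ' → Prop} (hQ : ∀ k, Q' (e k) ↔ Q k) {z w : κ × Dir} {t : ℤ}
    (h : SP X Q z w t) : SP (mp e X) Q' (eE e z) (eE e w) t := by
  induction h with
  | @base z h1 h2 =>
    rw [← mp_pi, ← mp_t e]
    refine SP.base ?_ (fun hh => h2 ((mp_spc e z).1 hh))
    rw [mp_pi]
    exact fun hh => h1 ((hQ _).1 hh)
  | @west z w q t h1 h2 h3 _ ih =>
    rw [← mp_t e z]
    exact SP.west (by rw [mp_pi, h1]; rfl) ((hQ _).2 h2) (fun hh => h3 ((mp_spc e z).1 hh)) ih
  | @east z w q t h1 h2 h3 _ ih =>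
    rw [← mp_t e z]
    exact SP.east (by rw [mp_pi, h1]; rfl) ((hQ _).2 h2) (fun hh => h3 ((mp_spc e z).1 hh)) ih

variable [Fintype κ] [Fintype κ'] [DecidableEq κ] [DecidableEq κ']

lemma mp_wt (a b : κ' → ℂ) (o : κ' × Dir → ℤˣ) :
    (mp e X).wt a b o = X.wt (a ∘ e) (b ∘ e) (o ∘ eE e) := by
  unfold Net.wt
  congr 1
  · exact (Equiv.prod_comp e (fun k => vert (a k) (b k) (o (k, .W)) (o (k, .N)) (o (k, .E))
      (o (k, .S)))).symm
  · rw [← Equiv.prod_comp (eE e)]
    refine prod_congr rfl fun z _ => ?_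
    rw [mp_t]; rfl

lemma mp_cg (ρ : ℤˣ) (m : Bool) (o : κ' × Dir → ℤˣ) : CG (mp e X) ρ m o ↔ CG X ρ m (o ∘ eE e) := by
  have h1 : (mp e X).x0 = eE e X.x0 := rfl
  have h2 : (mp e X).y0 = eE e X.y0 := rfl
  have ho : ∀ z, Ord (mp e X) m (eE e z) ↔ Ord X m z := by
    intro z
    unfold Ord
    rw [h1, h2, mp_pi, mp_pi]
    simp only [Ne, (eE e).injective.eq_iff]
  unfold CG
  rw [h1, h2, mp_pi, mp_pi]
  refine and_congr Iff.rfl (and_congr Iff.rfl (and_congr Iff.rfl ?_))
  constructor
  · intro h z hz
    have := h _ ((ho z).2 hz)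
    rwa [mp_pi] at this
  · intro h z hz
    obtain ⟨z, rfl⟩ := (eE e).surjective z
    rw [mp_pi]
    exact h z ((ho z).1 hz)

lemma mp_VG (ρ : ℤˣ) (m : Bool) (a b : κ' → ℂ) : VG (mp e X) ρ m a b = VG X ρ m (a ∘ e) (b ∘ e) := by
  classical
  unfold VG
  refine Finset.sum_bij' (i := fun o _ => o ∘ eE e) (j := fun o _ => o ∘ (eE e).symm)
    (fun _ _ => mem_univ _) (fun _ _ => mem_univ _) ?_ ?_ ?_
  · intro o _; funext z; simp
  · intro o _; funext z; simp
  · intro o _
    rw [mp_wt]
    by_cases h : CG (mp e X) ρ m o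
    · rw [if_pos h, if_pos ((mp_cg e ρ m o).1 h)]
    · rw [if_neg h, if_neg (fun hh => h ((mp_cg e ρ m o).2 hh))]

lemma mp_V (a b : κ' → ℂ) : (mp e X).V a b = X.V (a ∘ e) (b ∘ e) := by
  rw [V_eq_VG, V_eq_VG, mp_VG]

lemma mp_flat (hw : Wi X) (hf : Flat X) : Flat (mp e X) := by
  obtain ⟨c, hc, h⟩ := hf
  refine ⟨c, hc, fun a b => ?_⟩
  have h1 := h (a ∘ e) (b ∘ e)
  rw [V0_eq_VG hw.inv, ← mp_VG, ← V0_eq_VG (mp_wi e hw).inv] at h1
  rw [h1]
  congr 1
  exact Equiv.prod_comp e (fun k => a k + b k)

end

end Pool.Agent.H56.W
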